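import Pool.Agent.Helper84.Oracle

/-!
# Relative Blum measures: compactness and the overhead function
-/

namespace Pool.Agent.Helper84

open Encodable

/-! ### König's lemma -/

theorem konig {f : List Bool → Bool} (hmono : ∀ σ τ, σ <+: τ → f σ = true → f τ = true)
    (h : ∀ X : ℕ → Bool, ∃ n, f (pre X n) = true) :
    ∃ n, ∀ σ : List Bool, σ.length = n → f σ = true := by
  by_contra hc
  push Not at hc
  let bad : List Bool → Prop := fun σ => ∀ m, ∃ τ, σ <+: τ ∧ m ≤ τ.length ∧ f τ = false
  have hnil : bad [] := by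
    intro m
    obtain ⟨σ, h1, h2⟩ := hc m
    exact ⟨σ, List.nil_prefix, h1.ge, by simpa using h2⟩
  have hstep : ∀ σ, bad σ → ∃ b, bad (σ ++ [b]) := by
    intro σ hσ
    by_contra hb
    push Not at hb
    have h0 := hb false
    have h1 := hb true
    simp only [bad, not_forall] at h0 h1
    obtain ⟨m0, h0⟩ := h0
    obtain ⟨m1, h1⟩ := h1
    obtain ⟨τ, h2, h3, h4⟩ := hσ (max (σ.length + 1) (max m0 m1))
    obtain ⟨l, rfl⟩ := h2
    cases l with
    | nil => simp at h3
    | cons b l =>
      have h5 : σ ++ [b] <+: σ ++ b :: l := ⟨l, by simp⟩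
      cases b
      · exact h0 ⟨_, h5, by omega, h4⟩
      · exact h1 ⟨_, h5, by omega, h4⟩
  choose nb hnb using hstep
  let S : ℕ → {σ // bad σ} := fun n =>
    Nat.rec ⟨[], hnil⟩ (fun _ p => ⟨p.1 ++ [nb p.1 p.2], hnb p.1 p.2⟩) n
  have hS : ∀ n, (S (n + 1)).1 = (S n).1 ++ [nb (S n).1 (S n).2] := fun n => rfl
  have hpre : ∀ n, pre (fun n => nb (S n).1 (S n).2) n = (S n).1 := by
    intro n
    induction n with
    | zero => rfl
    | succ n ih => rw [pre_succ, ih, hS]
  obtain ⟨n, hn⟩ := h (fun n => nb (S n).1 (S n).2)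
  rw [hpre] at hn
  obtain ⟨τ, h1, _, h3⟩ := (S n).2 0
  rw [hmono _ _ h1 hn] at h3
  exact Bool.noConfusion h3

/-! ### Computability helpers -/

section comp

variable {α : Type*} [Primcodable α]

theorem computable_all_range {b : α → ℕ} {p : α → ℕ → Bool} (hb : Computable b)
    (hp : Computable₂ p) : Computable fun a => (List.range (b a)).all (p a) := by
  have h : Computable fun a => (Nat.rec true (fun y IH => IH && p a y) (b a) : Bool) := by
    refine Computable.nat_rec (f := b) (g := fun _ => true)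
      (h := fun a (q : ℕ × Bool) => q.2 && p a q.1) hb (Computable.const true) ?_
    exact (Primrec.and.to_comp.comp (Computable.snd.comp Computable.snd)
      (hp.comp Computable.fst (Computable.fst.comp Computable.snd))).to₂
  refine h.of_eq fun a => ?_
  induction b a with
  | zero => rfl
  | succ n ih => simp only [ih, List.range_succ, List.all_append, List.all_cons, List.all_nil,
      Bool.and_true]

theorem computable_any_range {b : α → ℕ} {p : α → ℕ → Bool} (hb : Computable b)
    (hp : Computable₂ p) : Computable fun a => (List.range (b a)).any (p a) := by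
  have h : Computable fun a => (Nat.rec false (fun y IH => IH || p a y) (b a) : Bool) := by
    refine Computable.nat_rec (f := b) (g := fun _ => false)
      (h := fun a (q : ℕ × Bool) => q.2 || p a q.1) hb (Computable.const false) ?_
    exact (Primrec.or.to_comp.comp (Computable.snd.comp Computable.snd)
      (hp.comp Computable.fst (Computable.fst.comp Computable.snd))).to₂
  refine h.of_eq fun a => ?_
  induction b a with
  | zero => rfl
  | succ n ih => simp only [ih, List.range_succ, List.any_append, List.any_cons, List.any_nil,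
      Bool.or_false]

theorem exists_computable_find {P : α → ℕ → Bool} (hP : Computable₂ P)
    (h : ∀ a, ∃ n, P a n = true) :
    ∃ f : α → ℕ, Computable f ∧ ∀ a, P a (f a) = true ∧ ∀ m < f a, P a m = false := by
  have hp : Partrec fun a => Nat.rfind fun n => Part.some (P a n) :=
    Partrec.rfind (p := fun a n => Part.some (P a n)) hP
  have hdom : ∀ a, (Nat.rfind fun n => Part.some (P a n)).Dom := by
    intro a
    obtain ⟨n, hn⟩ := h a
    exact Nat.rfind_dom'.2 ⟨n, Part.mem_some_iff.2 hn.symm, fun {m} _ => trivial⟩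
  refine ⟨fun a => (Nat.rfind fun n => Part.some (P a n)).get (hdom a),
    Partrec.of_eq_tot hp fun a => Part.get_mem _, fun a => ?_⟩
  obtain ⟨h1, h2⟩ := Nat.mem_rfind.1 (Part.get_mem (hdom a))
  exact ⟨(Part.mem_some_iff.1 h1).symm, fun m hm => (Part.mem_some_iff.1 (h2 hm)).symm⟩

end comp

/-! ### Bounds on the oracle information -/

section measure

variable (M : RelBlumMeasure)

theorem bits_setOf (X : ℕ → Bool) : bits {n | X n = true} = X := by
  funext n
  unfold bits
  cases h : X n <;> simp [h]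

theorem chi_eq {A : Set ℕ} (x : ℕ) : chi A x = cond (bits A x) 1 0 := by
  by_cases h : x ∈ A <;> simp [chi, bits, h]

/-- If `Φ i X x ≤ y`, then the first `N (i, x, y)` bits of `X` determine `φ i X x`; this bound is
computable. -/
theorem exists_bound {fφ fD : List Bool → ℕ → Option ℕ}
    (hφ : Approx (fun X p => M.φ p.unpair.1 X p.unpair.2) fφ)
    (hD : Approx (fun X p =>
      chi {q : ℕ | q.unpair.2.unpair.2 ∈ M.Φ q.unpair.1 X q.unpair.2.unpair.1} p) fD) :
    ∃ N : ℕ × ℕ × ℕ → ℕ, Computable N ∧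
      (∀ i x y y', y ≤ y' → N (i, x, y) ≤ N (i, x, y')) ∧
      ∀ i x y X, y ∈ M.Φ i X x → ∀ n, N (i, x, y) ≤ n →
        ∃ v, fφ (pre (bits X) n) (Nat.pair i x) = some v := by
  let R : ℕ × ℕ × ℕ → List Bool → Bool := fun q σ =>
    (List.range (q.2.2 + 1)).all fun y' =>
      decide (fD σ (Nat.pair q.1 (Nat.pair q.2.1 y')) = some 0) ||
        (fφ σ (Nat.pair q.1 q.2.1)).isSome
  let Q : ℕ × ℕ × ℕ → ℕ → Bool := fun q n => (strs n).all fun σ => R q σ
  have hRmono : ∀ q σ τ, σ <+: τ → R q σ = true → R q τ = true := by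
    intro q σ τ h hR
    simp only [R, List.all_eq_true, Bool.or_eq_true, decide_eq_true_eq,
      Option.isSome_iff_exists] at hR ⊢
    intro y' hy'
    rcases hR y' hy' with h1 | ⟨v, hv⟩
    · exact Or.inl (hD.mono h h1)
    · exact Or.inr ⟨v, hφ.mono h hv⟩
  have hQ : ∀ q, ∃ n, Q q n = true := by
    rintro ⟨i, x, y⟩
    obtain ⟨n, hn⟩ := konig (hRmono (i, x, y)) (by
      intro X
      have key : ∀ y' : ℕ, ∃ n,
          (fD (pre X n) (Nat.pair i (Nat.pair x y')) = some 0 ∨
            ∃ v, fφ (pre X n) (Nat.pair i x) = some v) := by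
        intro y'
        by_cases hy : y' ∈ M.Φ i {n | X n = true} x
        · have hdom : (M.φ i {n | X n = true} x).Dom := (M.dom_iff _ _ _).1 (Part.dom_iff_mem.2 ⟨_, hy⟩)
          have hmem : (M.φ i {n | X n = true} x).get hdom ∈
              (fun (X : Set ℕ) (p : ℕ) => M.φ p.unpair.1 X p.unpair.2) {n | X n = true}
                (Nat.pair i x) := by
            simp only [Nat.unpair_pair]
            exact Part.get_mem hdom
          obtain ⟨n, hn⟩ := hφ.spec.1 hmem
          rw [bits_setOf] at hn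
          exact ⟨n, Or.inr ⟨_, hn⟩⟩
        · have hmem : 0 ∈ (fun (X : Set ℕ) (p : ℕ) => (chi {q : ℕ | q.unpair.2.unpair.2 ∈
              M.Φ q.unpair.1 X q.unpair.2.unpair.1} p : Part ℕ)) {n | X n = true}
                (Nat.pair i (Nat.pair x y')) := by
            simp [chi, hy]
          obtain ⟨n, hn⟩ := hD.spec.1 hmem
          rw [bits_setOf] at hn
          exact ⟨n, Or.inl hn⟩
      have key2 : ∀ w : ℕ, ∃ n, ∀ y' < w,
          (fD (pre X n) (Nat.pair i (Nat.pair x y')) = some 0 ∨
            ∃ v, fφ (pre X n) (Nat.pair i x) = some v) := by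
        intro w
        induction w with
        | zero => exact ⟨0, fun y' h => absurd h (Nat.not_lt_zero _)⟩
        | succ w ih =>
          obtain ⟨n, hn⟩ := ih
          obtain ⟨m, hm⟩ := key w
          refine ⟨max n m, fun y' hy' => ?_⟩
          rcases Nat.lt_succ_iff_lt_or_eq.1 hy' with h | rfl
          · rcases hn y' h with h1 | ⟨v, hv⟩
            · exact Or.inl (hD.mono (pre_prefix X (le_max_left n m)) h1)
            · exact Or.inr ⟨v, hφ.mono (pre_prefix X (le_max_left n m)) hv⟩
          · rcases hm with h1 | ⟨v, hv⟩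
            · exact Or.inl (hD.mono (pre_prefix X (le_max_right n m)) h1)
            · exact Or.inr ⟨v, hφ.mono (pre_prefix X (le_max_right n m)) hv⟩
      obtain ⟨n, hn⟩ := key2 (y + 1)
      refine ⟨n, ?_⟩
      simp only [R, List.all_eq_true, Bool.or_eq_true, decide_eq_true_eq,
        Option.isSome_iff_exists, List.mem_range]
      exact hn)
    refine ⟨n, ?_⟩
    simp only [Q, List.all_eq_true]
    intro σ hσ
    exact hn σ (mem_strs.1 hσ)
  have hQc : Computable₂ Q := by
    have : Primrec₂ Q := by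
      refine primrec_list_all (f := fun p : (ℕ × ℕ × ℕ) × ℕ => strs p.2)
        (p := fun (p : (ℕ × ℕ × ℕ) × ℕ) σ => R p.1 σ) (primrec_strs.comp Primrec.snd) ?_
      refine Primrec.to₂ (f := fun w : ((ℕ × ℕ × ℕ) × ℕ) × List Bool => R w.1.1 w.2) ?_
      refine primrec_list_all (f := fun w : ((ℕ × ℕ × ℕ) × ℕ) × List Bool =>
        List.range (w.1.1.2.2 + 1))
        (p := fun (w : ((ℕ × ℕ × ℕ) × ℕ) × List Bool) y' =>
          decide (fD w.2 (Nat.pair w.1.1.1 (Nat.pair w.1.1.2.1 y')) = some 0) ||
          (fφ w.2 (Nat.pair w.1.1.1 w.1.1.2.1)).isSome)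
        (Primrec.list_range.comp (Primrec.succ.comp (Primrec.snd.comp (Primrec.snd.comp
          (Primrec.fst.comp Primrec.fst))))) ?_
      refine Primrec.to₂ (f := fun v : (((ℕ × ℕ × ℕ) × ℕ) × List Bool) × ℕ =>
          decide (fD v.1.2 (Nat.pair v.1.1.1.1 (Nat.pair v.1.1.1.2.1 v.2)) = some 0) ||
          (fφ v.1.2 (Nat.pair v.1.1.1.1 v.1.1.1.2.1)).isSome) ?_
      have hσ : Primrec fun v : (((ℕ × ℕ × ℕ) × ℕ) × List Bool) × ℕ => v.1.2 :=
        Primrec.snd.comp Primrec.fst
      have hi : Primrec fun v : (((ℕ × ℕ × ℕ) × ℕ) × List Bool) × ℕ => v.1.1.1.1 :=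
        Primrec.fst.comp (Primrec.fst.comp (Primrec.fst.comp Primrec.fst))
      have hx : Primrec fun v : (((ℕ × ℕ × ℕ) × ℕ) × List Bool) × ℕ => v.1.1.1.2.1 :=
        Primrec.fst.comp (Primrec.snd.comp (Primrec.fst.comp (Primrec.fst.comp Primrec.fst)))
      refine Primrec.or.comp (Primrec.eq.decide.comp (hD.prim.comp hσ (Primrec₂.natPair.comp hi
        (Primrec₂.natPair.comp hx Primrec.snd))) (Primrec.const (some 0))) ?_
      exact Primrec.option_isSome.comp (hφ.prim.comp hσ (Primrec₂.natPair.comp hi hx))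
    exact this.to_comp
  obtain ⟨N, hN, hN'⟩ := exists_computable_find hQc hQ
  refine ⟨N, hN, ?_, ?_⟩
  · intro i x y y' hyy
    by_contra hc
    have h1 := (hN' (i, x, y)).2 _ (not_le.1 hc)
    have h2 := (hN' (i, x, y')).1
    have h3 : Q (i, x, y) (N (i, x, y')) = true := by
      simp only [Q, R, List.all_eq_true, Bool.or_eq_true, decide_eq_true_eq, List.mem_range] at h2 ⊢
      intro σ hσ z hz
      exact h2 σ hσ z (by omega)
    rw [h3] at h1
    exact Bool.noConfusion h1
  · intro i x y X hy n hn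
    have h2 := (hN' (i, x, y)).1
    simp only [Q, R, List.all_eq_true, Bool.or_eq_true, decide_eq_true_eq, List.mem_range,
      Option.isSome_iff_exists] at h2
    rcases h2 (pre (bits X) (N (i, x, y))) (mem_strs.2 (length_pre _ _)) y (Nat.lt_succ_self y) with
      h3 | ⟨v, hv⟩
    · have h4 := hD.spec.2 ⟨_, h3⟩
      simp [chi, hy] at h4
    · exact ⟨v, hφ.spec_mono hn hv⟩

end measure

end Pool.Agent.Helper84
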