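import Pool.Agent.Helper84.Strings

/-!
# The clocked process

For a code `u` of a function of a requirement index `r` and a string `τ`, `cnt u` is a slow clock:
if `cnt u ℓ + 1 < cnt u n`, then the values of `u` on all `(r, τ)` with `r, |τ| ≤ ℓ` are known
after `n` steps.  `K u r z n` is the string which the process of level `r` started at `z` has
reached at clock `n`.
-/

namespace Pool.Agent.Helper84

open Primrec Encodable
open Nat.Partrec (Code)
open Nat.Partrec.Code (evaln)

/-- The answer of the code `u` on the pair `(r, τ)`, if it arrives within `n` steps. -/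
def qry (u : Code) (n r : ℕ) (τ : List Bool) : Option ℕ := evaln n u (encode (r, τ))

/-- The answers of `u` on all pairs `(r, τ)` with `r, |τ| ≤ e` are known after `n` steps. -/
def known (u : Code) (n e : ℕ) : Bool :=
  (List.range (e + 1)).all fun r => (allStr e).all fun τ => (qry u n r τ).isSome

/-- The clock: (number of ticks so far, time of the last tick). -/
def st (u : Code) (n : ℕ) : ℕ × ℕ :=
  Nat.rec (0, 0) (fun m p => bif known u (m + 1) p.2 then (p.1 + 1, m + 1) else p) n

/-- Number of ticks of the clock up to time `n`. -/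
def cnt (u : Code) (n : ℕ) : ℕ := (st u n).1

/-- At `σ`, requirement `r` wants the extension `τ`. -/
def cand (u : Code) (n : ℕ) (σ : List Bool) (r : ℕ) (τ : List Bool) : Bool :=
  decide (τ.take σ.length = σ) && (decide (σ.length < τ.length) &&
    (decide (cnt u τ.length + r ≤ 2 * σ.length) &&
      (decide (qry u n r τ = some 1) && decide (qry u n r σ = some 0))))

/-- The first string wanted by requirement `r` at `σ`. -/
def pick (u : Code) (n : ℕ) (σ : List Bool) (r : ℕ) : Option (List Bool) :=
  (allStr n).find? (cand u n σ r)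

/-- The successor of `σ` in the process of level `r`, as computed at clock `n`. -/
def nextn (u : Code) (n r : ℕ) (σ : List Bool) : List Bool :=
  ((List.range (σ.length + 1)).findSome? fun r' =>
    bif decide (r ≤ r') then pick u n σ r' else none).getD (σ ++ [false])

/-- One round of the process of level `r` at clock `n`. -/
def step (u : Code) (n r : ℕ) (σ : List Bool) : List Bool :=
  bif decide (2 * σ.length + 1 < cnt u n + r) then nextn u n r σ else σ

/-- The string reached at clock `n` by the process of level `r` started at `z`. -/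
def K (u : Code) (r : ℕ) (z : List Bool) (n : ℕ) : List Bool := (step u n r)^[n] z

/-! ### Primitive recursiveness -/

section prim

variable {α : Type*} [Primcodable α]

theorem primrec_qry {u : α → Code} {n r : α → ℕ} {τ : α → List Bool} (hu : Primrec u)
    (hn : Primrec n) (hr : Primrec r) (hτ : Primrec τ) :
    Primrec fun a => qry (u a) (n a) (r a) (τ a) :=
  Nat.Partrec.Code.primrec_evaln.comp ((hn.pair hu).pair (Primrec.encode.comp (hr.pair hτ)))

theorem primrec_known {u : α → Code} {n e : α → ℕ} (hu : Primrec u)
    (hn : Primrec n) (he : Primrec e) :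
    Primrec fun a => known (u a) (n a) (e a) := by
  unfold known
  refine primrec_list_all (p := fun a r => (allStr (e a)).all fun τ => (qry (u a) (n a) r τ).isSome)
    (list_range.comp (Primrec.succ.comp he)) ?_
  refine Primrec.to₂ (f := fun q : α × ℕ =>
    (allStr (e q.1)).all fun τ => (qry (u q.1) (n q.1) q.2 τ).isSome) ?_
  refine primrec_list_all (p := fun (q : α × ℕ) τ => (qry (u q.1) (n q.1) q.2 τ).isSome)
    (primrec_allStr.comp (he.comp fst)) ?_
  refine Primrec.to₂ (f := fun q : (α × ℕ) × List Bool =>
    (qry (u q.1.1) (n q.1.1) q.1.2 q.2).isSome) ?_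
  exact Primrec.option_isSome.comp (primrec_qry (hu.comp (fst.comp fst)) (hn.comp (fst.comp fst))
    (snd.comp fst) snd)

theorem primrec_st {u : α → Code} {n : α → ℕ} (hu : Primrec u)
    (hn : Primrec n) : Primrec fun a => st (u a) (n a) := by
  unfold st
  refine nat_rec' (f := n) (g := fun _ => ((0, 0) : ℕ × ℕ))
    (h := fun a (q : ℕ × ℕ × ℕ) =>
      bif known (u a) (q.1 + 1) q.2.2 then (q.2.1 + 1, q.1 + 1) else q.2)
    hn (Primrec.const _) ?_
  refine Primrec.to₂ (f := fun x : α × (ℕ × ℕ × ℕ) =>
    bif known (u x.1) (x.2.1 + 1) x.2.2.2 then (x.2.2.1 + 1, x.2.1 + 1) else x.2.2) ?_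
  refine Primrec.cond ?_ ?_ ?_
  · exact primrec_known (hu.comp fst) (Primrec.succ.comp (fst.comp snd)) (snd.comp (snd.comp snd))
  · exact (Primrec.succ.comp (fst.comp (snd.comp snd))).pair (Primrec.succ.comp (fst.comp snd))
  · exact snd.comp snd

theorem primrec_cnt {u : α → Code} {n : α → ℕ} (hu : Primrec u)
    (hn : Primrec n) : Primrec fun a => cnt (u a) (n a) := fst.comp (primrec_st hu hn)

theorem primrec_cand {u : α → Code} {n r : α → ℕ} {σ τ : α → List Bool} (hu : Primrec u)
    (hn : Primrec n) (hσ : Primrec σ) (hr : Primrec r) (hτ : Primrec τ) :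
    Primrec fun a => cand (u a) (n a) (σ a) (r a) (τ a) := by
  unfold cand
  have ls := list_length.comp hσ
  have lt := list_length.comp hτ
  refine Primrec.and.comp (Primrec.eq.decide.comp (list_take.comp ls hτ) hσ) ?_
  refine Primrec.and.comp (nat_lt.decide.comp ls lt) ?_
  refine Primrec.and.comp (nat_le.decide.comp (nat_add.comp (primrec_cnt hu lt) hr)
    (nat_double.comp ls)) ?_
  exact Primrec.and.comp
    (Primrec.eq.decide.comp (primrec_qry hu hn hr hτ) (Primrec.const (some 1)))
    (Primrec.eq.decide.comp (primrec_qry hu hn hr hσ) (Primrec.const (some 0)))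

theorem primrec_pick {u : α → Code} {n r : α → ℕ} {σ : α → List Bool} (hu : Primrec u)
    (hn : Primrec n) (hσ : Primrec σ) (hr : Primrec r) :
    Primrec fun a => pick (u a) (n a) (σ a) (r a) := by
  unfold pick
  refine primrec_find (primrec_allStr.comp hn) ?_
  refine Primrec.to₂ (f := fun x : α × List Bool =>
    cand (u x.1) (n x.1) (σ x.1) (r x.1) x.2) ?_
  exact primrec_cand (hu.comp fst) (hn.comp fst) (hσ.comp fst) (hr.comp fst) snd

theorem primrec_nextn {u : α → Code} {n r : α → ℕ} {σ : α → List Bool} (hu : Primrec u)
    (hn : Primrec n) (hr : Primrec r) (hσ : Primrec σ) :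
    Primrec fun a => nextn (u a) (n a) (r a) (σ a) := by
  unfold nextn
  refine option_getD.comp (primrec_findSome (list_range.comp (Primrec.succ.comp
    (list_length.comp hσ))) ?_) (list_concat.comp hσ (Primrec.const false))
  refine Primrec.to₂ (f := fun x : α × ℕ =>
    bif decide (r x.1 ≤ x.2) then pick (u x.1) (n x.1) (σ x.1) x.2 else none) ?_
  exact Primrec.cond (nat_le.decide.comp (hr.comp fst) snd)
    (primrec_pick (hu.comp fst) (hn.comp fst) (hσ.comp fst) snd) (Primrec.const none)

theorem primrec_step {u : α → Code} {n r : α → ℕ} {σ : α → List Bool} (hu : Primrec u)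
    (hn : Primrec n) (hr : Primrec r) (hσ : Primrec σ) :
    Primrec fun a => step (u a) (n a) (r a) (σ a) := by
  unfold step
  exact Primrec.cond (nat_lt.decide.comp (nat_double_succ.comp (list_length.comp hσ))
    (nat_add.comp (primrec_cnt hu hn) hr)) (primrec_nextn hu hn hr hσ) hσ

theorem primrec_K {u : α → Code} {n r : α → ℕ} {z : α → List Bool} (hu : Primrec u)
    (hr : Primrec r) (hz : Primrec z) (hn : Primrec n) :
    Primrec fun a => K (u a) (r a) (z a) (n a) := by
  unfold K
  refine nat_iterate (h := fun a σ => step (u a) (n a) (r a) σ) hn hz ?_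
  refine Primrec.to₂ (f := fun x : α × List Bool => step (u x.1) (n x.1) (r x.1) x.2) ?_
  exact primrec_step (hu.comp fst) (hn.comp fst) (hr.comp fst) snd

end prim

end Pool.Agent.Helper84
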