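import Mathlib

/-!
# Node lemmas for the two-state GPFA theorem

Certificates for a pair of real `2 x 2` matrices: certain words of length six are not exposed.
-/

namespace Pool.Agent.Helper84.GPFA

open Matrix

/-- Real `2 x 2` matrices. -/
abbrev Mat := Matrix (Fin 2) (Fin 2) ℝ

/-- The planar cross product. -/
def cr (u v : Fin 2 → ℝ) : ℝ := u 0 * v 1 - u 1 * v 0

/-- The quadratic form of a matrix on row vectors. -/
def qf (X : Mat) (a : Fin 2 → ℝ) : ℝ := cr (a ᵥ* X) a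

/-- Minus the discriminant of the characteristic polynomial. -/
def dsc (X : Mat) : ℝ := 4 * X.det - X.trace ^ 2

/-- Polarisation of `dsc`. -/
def pol (X Y : Mat) : ℝ := X.trace * Y.trace - 2 * (X * Y).trace

theorem vecMul_zero' (a : Fin 2 → ℝ) (X : Mat) : (a ᵥ* X) 0 = a 0 * X 0 0 + a 1 * X 1 0 := by
  simp [Matrix.vecMul, dotProduct, Fin.sum_univ_two]

theorem vecMul_one' (a : Fin 2 → ℝ) (X : Mat) : (a ᵥ* X) 1 = a 0 * X 0 1 + a 1 * X 1 1 := by
  simp [Matrix.vecMul, dotProduct, Fin.sum_univ_two]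

theorem mul_entry (X Y : Mat) (i j : Fin 2) : (X * Y) i j = X i 0 * Y 0 j + X i 1 * Y 1 j := by
  simp [Matrix.mul_apply, Fin.sum_univ_two]

theorem ne_zero_iff (a : Fin 2 → ℝ) : a ≠ 0 ↔ a 0 ≠ 0 ∨ a 1 ≠ 0 := by
  constructor
  · intro h
    by_contra hc
    push Not at hc
    apply h
    ext i
    fin_cases i
    · exact hc.1
    · exact hc.2
  · rintro h rfl
    simp at h

theorem core (v0 v1 v2 v3 g : Fin 2 → ℝ) (n0 : 0 < v0 ⬝ᵥ g) (n1 : 0 < v1 ⬝ᵥ g)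
    (n2 : 0 < v2 ⬝ᵥ g) (n3 : 0 < v3 ⬝ᵥ g) (h1 : 0 < cr v2 v0 * cr v0 v1)
    (h2 : cr v2 v0 * cr v2 v3 < 0) (h3 : cr v2 v0 * cr v3 v1 < 0) : False := by
  have rel1 : (v1 ⬝ᵥ g) * cr v2 v0 + (v2 ⬝ᵥ g) * cr v0 v1 + (v0 ⬝ᵥ g) * cr v1 v2 = 0 := by
    simp only [cr, dotProduct, Fin.sum_univ_two]; ring
  have rel2 : (v3 ⬝ᵥ g) * cr v1 v2 + (v1 ⬝ᵥ g) * cr v2 v3 + (v2 ⬝ᵥ g) * cr v3 v1 = 0 := by
    simp only [cr, dotProduct, Fin.sum_univ_two]; ring
  rcases le_or_gt 0 (cr v2 v0 * cr v1 v2) with hd | hd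
  · have e : (v1 ⬝ᵥ g) * cr v2 v0 ^ 2 + (v2 ⬝ᵥ g) * (cr v2 v0 * cr v0 v1)
        + (v0 ⬝ᵥ g) * (cr v2 v0 * cr v1 v2) = 0 := by linear_combination (cr v2 v0) * rel1
    have p1 : 0 ≤ (v1 ⬝ᵥ g) * cr v2 v0 ^ 2 := by positivity
    have p2 : 0 < (v2 ⬝ᵥ g) * (cr v2 v0 * cr v0 v1) := mul_pos n2 h1
    have p3 : 0 ≤ (v0 ⬝ᵥ g) * (cr v2 v0 * cr v1 v2) := mul_nonneg n0.le hd
    linarith
  · have e : (v3 ⬝ᵥ g) * (cr v2 v0 * cr v1 v2) + (v1 ⬝ᵥ g) * (cr v2 v0 * cr v2 v3)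
        + (v2 ⬝ᵥ g) * (cr v2 v0 * cr v3 v1) = 0 := by linear_combination (cr v2 v0) * rel2
    have p1 : (v3 ⬝ᵥ g) * (cr v2 v0 * cr v1 v2) < 0 := mul_neg_of_pos_of_neg n3 hd
    have p2 : (v1 ⬝ᵥ g) * (cr v2 v0 * cr v2 v3) < 0 := mul_neg_of_pos_of_neg n1 h2
    have p3 : (v2 ⬝ᵥ g) * (cr v2 v0 * cr v3 v1) < 0 := mul_neg_of_pos_of_neg n2 h3
    linarith

theorem qf_eq (X : Mat) (a : Fin 2 → ℝ) :
    qf X a = -X 0 1 * a 0 ^ 2 + (X 0 0 - X 1 1) * (a 0 * a 1) + X 1 0 * a 1 ^ 2 := by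
  simp only [qf, cr, vecMul_zero', vecMul_one']; ring

theorem dsc_eq (X : Mat) : dsc X = 4 * (-X 0 1) * X 1 0 - (X 0 0 - X 1 1) ^ 2 := by
  simp only [dsc, Matrix.det_fin_two, Matrix.trace_fin_two]; ring

theorem pol_eq (X Y : Mat) : pol X Y = 2 * (-X 0 1) * Y 1 0 + 2 * X 1 0 * (-Y 0 1)
    - (X 0 0 - X 1 1) * (Y 0 0 - Y 1 1) := by
  simp only [pol, Matrix.trace_fin_two, mul_entry]; ring

theorem qf_ne {X : Mat} {a : Fin 2 → ℝ} (hX : 0 < dsc X) (ha : a ≠ 0) : 0 < X 1 0 * qf X a := by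
  rw [dsc_eq] at hX
  rw [ne_zero_iff] at ha
  have h10 : X 1 0 ≠ 0 := by
    intro h
    rw [h] at hX
    nlinarith [sq_nonneg (X 0 0 - X 1 1)]
  have e : 4 * (X 1 0 * qf X a) = (2 * X 1 0 * a 1 + (X 0 0 - X 1 1) * a 0) ^ 2
      + (4 * (-X 0 1) * X 1 0 - (X 0 0 - X 1 1) ^ 2) * a 0 ^ 2 := by
    rw [qf_eq]; ring
  by_cases ha0 : a 0 = 0
  · have ha1 : a 1 ≠ 0 := by tauto
    have : 0 < (2 * X 1 0 * a 1 + (X 0 0 - X 1 1) * a 0) ^ 2 := by
      rw [ha0]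
      have : 2 * X 1 0 * a 1 + (X 0 0 - X 1 1) * 0 ≠ 0 := by
        simp [h10, ha1]
      positivity
    nlinarith [sq_nonneg (a 0)]
  · have : 0 < a 0 ^ 2 := by positivity
    nlinarith [sq_nonneg (2 * X 1 0 * a 1 + (X 0 0 - X 1 1) * a 0), mul_pos hX this]

theorem same_sign {X : Mat} {a b : Fin 2 → ℝ} (hX : 0 < dsc X) (ha : a ≠ 0) (hb : b ≠ 0) :
    0 < qf X a * qf X b := by
  have h1 := qf_ne hX ha
  have h2 := qf_ne hX hb
  have h3 : 0 < X 1 0 ^ 2 * (qf X a * qf X b) := by nlinarith [mul_pos h1 h2]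
  by_contra hc
  push Not at hc
  nlinarith [sq_nonneg (X 1 0)]

theorem polar {X Y : Mat} {a : Fin 2 → ℝ} (hX : 0 < dsc X) (hY : 0 < dsc Y) (ha : a ≠ 0) :
    0 < pol X Y * (qf X a * qf Y a) := by
  have e : 2 * (pol X Y * (qf X a * qf Y a)) = dsc Y * qf X a ^ 2 + dsc X * qf Y a ^ 2
      + ((-X 0 1 * (Y 0 0 - Y 1 1) - (X 0 0 - X 1 1) * (-Y 0 1)) * a 0 ^ 2
        + 2 * (-X 0 1 * Y 1 0 - X 1 0 * (-Y 0 1)) * (a 0 * a 1)
        + ((X 0 0 - X 1 1) * Y 1 0 - X 1 0 * (Y 0 0 - Y 1 1)) * a 1 ^ 2) ^ 2 := by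
    rw [qf_eq, qf_eq, pol_eq, dsc_eq, dsc_eq]; ring
  have h1 := qf_ne hX ha
  have h1' : qf X a ≠ 0 := by
    intro h; rw [h] at h1; simp at h1
  have : 0 < dsc Y * qf X a ^ 2 := by positivity
  have : 0 ≤ dsc X * qf Y a ^ 2 := by positivity
  nlinarith [sq_nonneg ((-X 0 1 * (Y 0 0 - Y 1 1) - (X 0 0 - X 1 1) * (-Y 0 1)) * a 0 ^ 2
        + 2 * (-X 0 1 * Y 1 0 - X 1 0 * (-Y 0 1)) * (a 0 * a 1)
        + ((X 0 0 - X 1 1) * Y 1 0 - X 1 0 * (Y 0 0 - Y 1 1)) * a 1 ^ 2)]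

/-! ### Pure identities for cross products -/

theorem cr_f1 (S R : Mat) (a : Fin 2 → ℝ) :
    cr (a ᵥ* S) (a ᵥ* R) = R.trace * qf S a - qf (S * R) a := by
  simp only [qf, cr, vecMul_zero', vecMul_one', Matrix.trace_fin_two, mul_entry]; ring

theorem cr_f2 (S R : Mat) (a : Fin 2 → ℝ) :
    cr (a ᵥ* (S * R)) (a ᵥ* R) = R.det * qf S a := by
  simp only [qf, cr, vecMul_zero', vecMul_one', Matrix.det_fin_two, mul_entry]; ring

theorem cr_f3 (S R : Mat) (a : Fin 2 → ℝ) :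
    cr (a ᵥ* (S * R)) (a ᵥ* S)
      = S.trace * qf (S * R) a - (S * R).trace * qf S a - S.det * qf R a := by
  simp only [qf, cr, vecMul_zero', vecMul_one', Matrix.det_fin_two, Matrix.trace_fin_two,
    mul_entry]; ring

theorem qf_self (S : Mat) (a : Fin 2 → ℝ) : qf S (a ᵥ* S) = S.det * qf S a := by
  simp only [qf, cr, vecMul_zero', vecMul_one', Matrix.det_fin_two]; ring

theorem qf_mulS (S R : Mat) (a : Fin 2 → ℝ) : qf R (a ᵥ* S) = cr (a ᵥ* (S * R)) (a ᵥ* S) := by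
  simp only [qf, Matrix.vecMul_vecMul]

theorem cr_anti (u v : Fin 2 → ℝ) : cr u v = -cr v u := by
  simp only [cr]; ring

theorem qf_SR_mulS (S R : Mat) (a : Fin 2 → ℝ) : qf (S * R) (a ᵥ* S)
      = S.trace * cr (a ᵥ* (S * R)) (a ᵥ* S) - S.det * cr (a ᵥ* R) (a ᵥ* S) := by
  simp only [qf, cr, vecMul_zero', vecMul_one', Matrix.det_fin_two, Matrix.trace_fin_two,
    mul_entry]; ring

theorem dsc_smul_sub (c : ℝ) (S R : Mat) : dsc (c • S - R)
      = 4 * (c ^ 2 * S.det + R.det - c * (S.trace * R.trace - (S * R).trace))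
        - (c * S.trace - R.trace) ^ 2 := by
  simp only [dsc, Matrix.det_fin_two, Matrix.trace_fin_two, mul_entry, Matrix.sub_apply,
    Matrix.smul_apply, smul_eq_mul]; ring

theorem pol_smul_sub (c : ℝ) (S R Y : Mat) : pol (c • S - R) Y = c * pol S Y - pol R Y := by
  simp only [pol, Matrix.trace_fin_two, mul_entry, Matrix.sub_apply,
    Matrix.smul_apply, smul_eq_mul]; ring

theorem pol_self (S : Mat) : pol S S = dsc S := by
  simp only [pol, dsc, Matrix.det_fin_two, Matrix.trace_fin_two, mul_entry]; ring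

theorem pol_comm (S R : Mat) : pol S R = pol R S := by
  simp only [pol, Matrix.trace_fin_two, mul_entry]; ring

theorem pol_S_SR (S R : Mat) : pol S (S * R) = 2 * S.det * R.trace - S.trace * (S * R).trace := by
  simp only [pol, Matrix.det_fin_two, Matrix.trace_fin_two, mul_entry]; ring

theorem pol_R_SR (S R : Mat) : pol R (S * R) = 2 * R.det * S.trace - R.trace * (S * R).trace := by
  simp only [pol, Matrix.det_fin_two, Matrix.trace_fin_two, mul_entry]; ring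

theorem vecMul_ne {S : Mat} (hS : S.det = 1) {a : Fin 2 → ℝ} (ha : a ≠ 0) : a ᵥ* S ≠ 0 := by
  intro h
  apply ha
  have : IsUnit S.det := by rw [hS]; exact isUnit_one
  have h2 : a ᵥ* S ᵥ* S⁻¹ = 0 := by rw [h]; simp
  rwa [Matrix.vecMul_vecMul, Matrix.mul_nonsing_inv S this, Matrix.vecMul_one] at h2

theorem qf_smul_sub (c : ℝ) (S R : Mat) (a : Fin 2 → ℝ) :
    qf (c • S - R) a = c * qf S a - qf R a := by
  simp only [qf, cr, vecMul_zero', vecMul_one', Matrix.sub_apply,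
    Matrix.smul_apply, smul_eq_mul]; ring

theorem adj_mul {S : Mat} {t : ℝ} (hS : S.det = 1) (tS : S.trace = t) (a : Fin 2 → ℝ) :
    (t • a - a ᵥ* S) ᵥ* S = a := by
  have hd : S 0 0 * S 1 1 - S 0 1 * S 1 0 = 1 := by rw [← Matrix.det_fin_two]; exact hS
  have htr : S 0 0 + S 1 1 = t := by rw [← Matrix.trace_fin_two]; exact tS
  ext i
  fin_cases i
  · show ((t • a - a ᵥ* S) ᵥ* S) 0 = a 0
    simp only [vecMul_zero', vecMul_one', Pi.sub_apply, Pi.smul_apply, smul_eq_mul]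
    rw [← htr]
    linear_combination (a 0) * hd
  · show ((t • a - a ᵥ* S) ᵥ* S) 1 = a 1
    simp only [vecMul_zero', vecMul_one', Pi.sub_apply, Pi.smul_apply, smul_eq_mul]
    rw [← htr]
    linear_combination (a 1) * hd

/-- Plus certificate. -/
theorem Pplus {S R : Mat} {t s : ℝ} (hS : S.det = 1) (hR : R.det = 1) (tS : S.trace = t)
    (tR : R.trace = t) (hp : (S * R).trace = 2 - s) (hs0 : 0 < s) (hs2 : s < 2)
    (hts : t ^ 2 * s < 4) {a g : Fin 2 → ℝ}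
    (n0 : 0 < (a ᵥ* (S * R - t • S)) ⬝ᵥ g)
    (n1 : 0 < (a ᵥ* (S * R - 1)) ⬝ᵥ g)
    (n2 : 0 < (a ᵥ* (S * R - t • S - t • R + (t ^ 2 - 1) • (1 : Mat))) ⬝ᵥ g)
    (n3 : 0 < (a ᵥ* (S * R - t • S + (t ^ 2 - 1) • (1 : Mat))) ⬝ᵥ g) : False := by
  have ha : a ≠ 0 := by
    rintro rfl
    simp at n0
  have hu : a ᵥ* S ≠ 0 := vecMul_ne hS ha
  -- `u' = a S'`
  have f1 := cr_f1 S R a
  have f2 := cr_f2 S R a
  have f3 := cr_f3 S R a
  have f5 := qf_SR_mulS S R a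
  rw [tR] at f1
  rw [hR] at f2
  rw [tS, hp, hS] at f3
  rw [tS, hS, cr_anti (a ᵥ* R)] at f5
  have dSR : 0 < dsc (S * R) := by
    rw [dsc, Matrix.det_mul, hS, hR, hp]; nlinarith
  have dF : 0 < dsc ((s - 1) • S - R) := by
    rw [dsc_smul_sub, hS, hR, tS, tR, hp]
    nlinarith [mul_pos hs0 (sub_pos.mpr hts)]
  have pF : pol ((s - 1) • S - R) (S * R) = t * s * (s - 2) := by
    rw [pol_smul_sub, pol_S_SR, pol_R_SR, hS, hR, tS, tR, hp]; ring
  have lem : ∀ b : Fin 2 → ℝ, b ≠ 0 → t * (qf ((s - 1) • S - R) b * qf (S * R) b) < 0 := by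
    intro b hb
    have := polar dF dSR hb
    rw [pF] at this
    have h2 : s * (s - 2) < 0 := mul_neg_of_pos_of_neg hs0 (by linarith)
    nlinarith
  have hb1 := adj_mul hS tS a
  have hb : t • a - a ᵥ* S ≠ 0 := by
    intro h
    rw [h] at hb1
    apply ha
    rw [← hb1]; simp
  have hb2 : (t • a - a ᵥ* S) ᵥ* R = t • (a ᵥ* R) - a ᵥ* (S * R) := by
    rw [Matrix.sub_vecMul, Matrix.smul_vecMul, Matrix.vecMul_vecMul]
  have qFa : qf ((s - 1) • S - R) a = (s - 1) * cr (a ᵥ* S) a - cr (a ᵥ* R) a := by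
    rw [qf_smul_sub]; rfl
  have qFb : qf ((s - 1) • S - R) (t • a - a ᵥ* S) = (s - 1) * cr a (t • a - a ᵥ* S)
      - cr (t • (a ᵥ* R) - a ᵥ* (S * R)) (t • a - a ᵥ* S) := by
    rw [qf_smul_sub, qf, qf, hb1, hb2]
  have qSa : qf S a = cr (a ᵥ* S) a := rfl
  have qRa : qf R a = cr (a ᵥ* R) a := rfl
  have qSRa : qf (S * R) a = cr (a ᵥ* (S * R)) a := rfl
  have s1 := same_sign dSR ha hu
  have s2 := same_sign dSR ha hb
  have l1 := lem a ha
  have l2 := lem _ hb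
  have e0 : a ᵥ* (S * R - t • S) = a ᵥ* (S * R) - t • (a ᵥ* S) := by
    simp only [Matrix.vecMul_sub, Matrix.vecMul_smul]
  have e1 : a ᵥ* (S * R - 1) = a ᵥ* (S * R) - a := by
    simp only [Matrix.vecMul_sub, Matrix.vecMul_one]
  have e2 : a ᵥ* (S * R - t • S - t • R + (t ^ 2 - 1) • (1 : Mat))
      = a ᵥ* (S * R) - t • (a ᵥ* S) - t • (a ᵥ* R) + (t ^ 2 - 1) • a := by
    simp only [Matrix.vecMul_add, Matrix.vecMul_sub, Matrix.vecMul_smul, Matrix.vecMul_one]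
  have e3 : a ᵥ* (S * R - t • S + (t ^ 2 - 1) • (1 : Mat))
      = a ᵥ* (S * R) - t • (a ᵥ* S) + (t ^ 2 - 1) • a := by
    simp only [Matrix.vecMul_add, Matrix.vecMul_sub, Matrix.vecMul_smul, Matrix.vecMul_one]
  rw [e0] at n0
  rw [e1] at n1
  rw [e2] at n2
  rw [e3] at n3
  rw [qFa] at l1
  rw [qFb] at l2
  rw [qSa, qSRa] at f1
  rw [qSa] at f2
  rw [qSa, qSRa, qRa] at f3
  rw [f5, qSRa] at s1
  rw [qSRa] at s2 l1
  generalize a ᵥ* (S * R) = w at *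
  generalize qf (S * R) (t • a - a ᵥ* S) = qb at *
  generalize a ᵥ* S = u at *
  generalize a ᵥ* R = r at *
  have c20 : cr (w - t • u - t • r + (t ^ 2 - 1) • a) (w - t • u) = cr w a := by
    simp only [cr, Pi.sub_apply, Pi.add_apply, Pi.smul_apply, smul_eq_mul] at *
    linear_combination t * f2 - t ^ 2 * f1
  have c01 : cr (w - t • u) (w - a) = t * cr w u - 1 * -cr u r := by
    simp only [cr, Pi.sub_apply, Pi.add_apply, Pi.smul_apply, smul_eq_mul] at *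
    linear_combination -f1
  have c31 : cr (w - t • u + (t ^ 2 - 1) • a) (w - a) = t * ((s - 1) * cr u a - cr r a) := by
    simp only [cr, Pi.sub_apply, Pi.add_apply, Pi.smul_apply, smul_eq_mul] at *
    linear_combination t * f3
  have c23 : cr (w - t • u - t • r + (t ^ 2 - 1) • a) (w - t • u + (t ^ 2 - 1) • a)
      = t * ((s - 1) * cr a (t • a - u) - cr (t • r - w) (t • a - u)) := by
    simp only [cr, Pi.sub_apply, Pi.add_apply, Pi.smul_apply, smul_eq_mul] at *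
    linear_combination t * f3 + t * f2
  refine core _ _ _ _ g n0 n1 n2 n3 ?_ ?_ ?_
  · rw [c20, c01]; exact s1
  · rw [c20, c23]
    generalize ((s - 1) * cr a (t • a - u) - cr (t • r - w) (t • a - u)) = F at *
    by_contra hc
    push Not at hc
    nlinarith [mul_nonneg hc (sq_nonneg qb), mul_pos s2 (neg_pos.mpr l2)]
  · rw [c20, c31]; linarith

/-- Minus certificate. -/
theorem Pminus {S R : Mat} {t s : ℝ} (hS : S.det = 1) (hR : R.det = 1) (tS : S.trace = t)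
    (tR : R.trace = t) (hp : (S * R).trace = 2 - s) (ht2 : t ^ 2 < 2) (hs : 4 - t ^ 2 ≤ s)
    (hts : t ^ 2 * s < 4) {a g : Fin 2 → ℝ}
    (n1 : 0 < (a ᵥ* (t • S)) ⬝ᵥ g)
    (n2 : 0 < (a ᵥ* (t • (t • (1 : Mat) - R))) ⬝ᵥ g)
    (n0 : 0 < (a ᵥ* (t • S - S * R)) ⬝ᵥ g)
    (n3 : 0 < (a ᵥ* (t • S - S * R + (1 - s) • (1 : Mat))) ⬝ᵥ g) : False := by
  have ha : a ≠ 0 := by
    rintro rfl
    simp at n0
  have ht : t ≠ 0 := by
    rintro rfl
    simp at n1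
  have hu : a ᵥ* S ≠ 0 := vecMul_ne hS ha
  have hs0 : 0 < s := by linarith
  have f1 := cr_f1 S R a
  have f2 := cr_f2 S R a
  have f3 := cr_f3 S R a
  rw [tR] at f1
  rw [hR] at f2
  rw [tS, hp, hS] at f3
  have f4 := qf_self S a
  rw [hS, one_mul] at f4
  have dS : 0 < dsc S := by
    rw [dsc, hS, tS]; nlinarith
  have dR : 0 < dsc R := by
    rw [dsc, hR, tR]; nlinarith
  have pSR : 0 < pol S R := by
    rw [pol, tS, tR, hp]; nlinarith
  have dF : 0 < dsc ((s - 1) • S - R) := by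
    rw [dsc_smul_sub, hS, hR, tS, tR, hp]
    nlinarith [mul_pos hs0 (sub_pos.mpr hts)]
  have hp' : (R * S).trace = 2 - s := by rw [Matrix.trace_mul_comm]; exact hp
  have dG : 0 < dsc ((s - 1) • R - S) := by
    rw [dsc_smul_sub, hS, hR, tS, tR, hp']
    nlinarith [mul_pos hs0 (sub_pos.mpr hts)]
  have pF : 0 < pol ((s - 1) • S - R) S := by
    have : pol ((s - 1) • S - R) S = s * (2 - t ^ 2) := by
      rw [pol_smul_sub, pol_self, pol_comm R S, pol, dsc, hS, tS, tR, hp]; ring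
    rw [this]
    exact mul_pos hs0 (by linarith)
  have pG : 0 < pol ((s - 1) • R - S) S := by
    have : pol ((s - 1) • R - S) S = s * (t ^ 2 + 2 * s - 6) := by
      rw [pol_smul_sub, pol_self, pol_comm R S, pol, dsc, hS, tS, tR, hp]; ring
    rw [this]
    exact mul_pos hs0 (by linarith)
  have cancel : ∀ {P Q : ℝ}, 0 < P → 0 < P * Q → 0 < Q := by
    intro P Q h1 h2
    exact (mul_pos_iff_of_pos_left h1).mp h2
  have s1 := cancel pSR (polar dS dR hu)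
  have s2 := cancel pG (polar dG dS ha)
  have s3 := cancel pF (polar dF dS hu)
  rw [f4] at s1 s3
  rw [qf_smul_sub] at s2 s3
  rw [f4] at s3
  rw [qf_mulS S R a] at s1 s3
  have qSa : qf S a = cr (a ᵥ* S) a := rfl
  have qRa : qf R a = cr (a ᵥ* R) a := rfl
  have qSRa : qf (S * R) a = cr (a ᵥ* (S * R)) a := rfl
  have e1 : a ᵥ* (t • S) = t • (a ᵥ* S) := by
    simp only [Matrix.vecMul_smul]
  have e2 : a ᵥ* (t • (t • (1 : Mat) - R)) = t • (t • a - a ᵥ* R) := by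
    simp only [Matrix.vecMul_sub, Matrix.vecMul_smul, Matrix.vecMul_one]
  have e0 : a ᵥ* (t • S - S * R) = t • (a ᵥ* S) - a ᵥ* (S * R) := by
    simp only [Matrix.vecMul_sub, Matrix.vecMul_smul]
  have e3 : a ᵥ* (t • S - S * R + (1 - s) • (1 : Mat))
      = t • (a ᵥ* S) - a ᵥ* (S * R) + (1 - s) • a := by
    simp only [Matrix.vecMul_add, Matrix.vecMul_sub, Matrix.vecMul_smul, Matrix.vecMul_one]
  rw [e0] at n0
  rw [e1] at n1
  rw [e2] at n2
  rw [e3] at n3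
  rw [qSa, qSRa] at f1
  rw [qSa] at f2
  rw [qSa, qSRa, qRa] at f3
  rw [qSa] at s1 s2 s3
  rw [qRa] at s2
  generalize a ᵥ* (S * R) = w at *
  generalize a ᵥ* S = u at *
  generalize a ᵥ* R = r at *
  have c20 : cr (t • (t • a - r)) (t • u - w) = -t * cr u a := by
    simp only [cr, Pi.sub_apply, Pi.add_apply, Pi.smul_apply, smul_eq_mul] at *
    linear_combination t ^ 2 * f1 - t * f2
  have c01 : cr (t • u - w) (t • u) = -t * cr w u := by
    simp only [cr, Pi.sub_apply, Pi.add_apply, Pi.smul_apply, smul_eq_mul] at *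
    ring
  have c23 : cr (t • (t • a - r)) (t • u - w + (1 - s) • a) = t * ((s - 1) * cr r a - cr u a) := by
    simp only [cr, Pi.sub_apply, Pi.add_apply, Pi.smul_apply, smul_eq_mul] at *
    linear_combination t ^ 2 * f1 - t * f2
  have c31 : cr (t • u - w + (1 - s) • a) (t • u) = t * ((s - 1) * cr u a - cr w u) := by
    simp only [cr, Pi.sub_apply, Pi.add_apply, Pi.smul_apply, smul_eq_mul] at *
    ring
  have tt : 0 < t ^ 2 := by positivity
  refine core _ _ _ _ g n0 n1 n2 n3 ?_ ?_ ?_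
  · rw [c20, c01]
    have : -t * cr u a * (-t * cr w u) = t ^ 2 * (cr u a * cr w u) := by ring
    rw [this]; exact mul_pos tt s1
  · rw [c20, c23]
    have : -t * cr u a * (t * ((s - 1) * cr r a - cr u a))
        = -(t ^ 2 * (((s - 1) * cr r a - cr u a) * cr u a)) := by ring
    rw [this]; exact neg_neg_of_pos (mul_pos tt s2)
  · rw [c20, c31]
    have : -t * cr u a * (t * ((s - 1) * cr u a - cr w u))
        = -(t ^ 2 * (((s - 1) * cr u a - cr w u) * cr u a)) := by ring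
    rw [this]; exact neg_neg_of_pos (mul_pos tt s3)

/-- Reality of the pair: `0 < s`, `t ^ 2 < 4` force `4 ≤ t ^ 2 + s`. -/
theorem four_le {S R : Mat} {t s : ℝ} (hS : S.det = 1) (hR : R.det = 1) (tS : S.trace = t)
    (tR : R.trace = t) (hp : (S * R).trace = 2 - s) (hs0 : 0 < s) : 4 ≤ t ^ 2 + s := by
  by_contra hc
  push Not at hc
  have dS : 0 < dsc S := by
    rw [dsc, hS, tS]; nlinarith
  have dR : 0 < dsc R := by
    rw [dsc, hR, tR]; nlinarith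
  have ha : (![1, 0] : Fin 2 → ℝ) ≠ 0 := by
    intro h
    have := congrFun h 0
    simp at this
  have e : 2 * (pol S R * (qf S ![1, 0] * qf R ![1, 0]))
      = dsc R * qf S ![1, 0] ^ 2 + dsc S * qf R ![1, 0] ^ 2
        + (-S 0 1 * (R 0 0 - R 1 1) - (S 0 0 - S 1 1) * (-R 0 1)) ^ 2 := by
    rw [qf_eq, qf_eq, pol_eq, dsc_eq, dsc_eq]
    simp only [Matrix.cons_val_zero, Matrix.cons_val_one]
    ring
  have hq := qf_ne dS ha
  have hr := qf_ne dR ha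
  have hq0 : qf S ![1, 0] ≠ 0 := by
    intro h; rw [h] at hq; simp at hq
  have hr0 : qf R ![1, 0] ≠ 0 := by
    intro h; rw [h] at hr; simp at hr
  generalize qf S ![1, 0] = q at *
  generalize qf R ![1, 0] = r at *
  rw [pol, dsc, dsc, hS, hR, tS, tR, hp] at e
  generalize (-S 0 1 * (R 0 0 - R 1 1) - (S 0 0 - S 1 1) * (-R 0 1)) = K at *
  rcases lt_or_gt_of_ne (mul_ne_zero hq0 hr0) with h | h
  · nlinarith [sq_nonneg K, sq_nonneg (q + r), mul_pos hs0 (neg_pos.mpr h)]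
  · nlinarith [sq_nonneg K, sq_nonneg (q - r)]

end Pool.Agent.Helper84.GPFA
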