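import Mathlib

/-!
# The trace part of the two-state GPFA theorem

Elementary real inequalities on the tree of trace triples `(tr X, tr Y, tr XY)`.
-/

namespace Pool.Agent.Helper84.GPFA

/-- Trace condition at every node of the substitution tree, down to depth `n`. -/
def TreeG (k : ℝ) : ℕ → ℝ → ℝ → ℝ → Prop
  | 0, _, _, z => 4 ≤ z ^ 2 * (k - z ^ 2)
  | n + 1, x, y, z =>
      4 ≤ z ^ 2 * (k - z ^ 2) ∧ TreeG k n x z (x * z - y) ∧ TreeG k n z y (y * z - x)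

theorem TreeG.root {k : ℝ} : ∀ {n : ℕ} {x y z : ℝ}, TreeG k n x y z → 4 ≤ z ^ 2 * (k - z ^ 2)
  | 0, _, _, _, h => h
  | _ + 1, _, _, _, h => h.1

theorem TreeG.mono {k : ℝ} : ∀ {n : ℕ} {x y z : ℝ}, TreeG k (n + 1) x y z → TreeG k n x y z
  | 0, _, _, _, h => h.1
  | _ + 1, _, _, _, h => ⟨h.1, h.2.1.mono, h.2.2.mono⟩

theorem TreeG.symm {k : ℝ} : ∀ {n : ℕ} {x y z : ℝ}, TreeG k n x y z → TreeG k n y x z
  | 0, _, _, _, h => h
  | _ + 1, _, _, _, h => ⟨h.1, h.2.2.symm, h.2.1.symm⟩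

/-- The Gap Lemma. -/
theorem gap {t m M E F : ℝ} (ht0 : 0 < t) (ht2 : t < 2) (hm : 0 < m) (hmM : m * M = 2)
    (hF : m ≤ F) (hE : E ≤ M) (hFE : 2 * F ≤ t * E)
    (hg : E ^ 2 + F ^ 2 - t * E * F = m ^ 2 + M ^ 2 - t ^ 2) : False := by
  have h1 : 0 ≤ (F - m) * (t * E - F - m) := mul_nonneg (by linarith) (by linarith)
  have hE0 : 0 < E := by
    by_contra h
    push Not at h
    nlinarith
  have hFE' : F ≤ E := by nlinarith
  have h2 : 0 ≤ (M - E) * (M + E - t * m) := by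
    apply mul_nonneg (by linarith)
    nlinarith
  have h3 : 0 ≤ t * (t - 2) := by
    have : t * (t - 2) = (F - m) * (t * E - F - m) + (M - E) * (M + E - t * m)
        + 2 * t * (m * M / 2 - 1) := by
      nlinarith
    rw [this, hmM]
    linarith
  nlinarith

/-- Absolute values between `m` and `M`. -/
def Adm (m M z : ℝ) : Prop := m ≤ |z| ∧ |z| ≤ M

theorem adm_of {k m M z : ℝ} (hm : 0 < m) (hmM' : m ≤ M) (hmM : m * M = 2)
    (hk : m ^ 2 + M ^ 2 = k) (h : 4 ≤ z ^ 2 * (k - z ^ 2)) : Adm m M z := by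
  have hM : 0 < M := lt_of_lt_of_le hm hmM'
  have h1 : (z ^ 2 - m ^ 2) * (z ^ 2 - M ^ 2) ≤ 0 := by
    have : (z ^ 2 - m ^ 2) * (z ^ 2 - M ^ 2) = (m * M) ^ 2 - z ^ 2 * (k - z ^ 2) := by
      rw [← hk]; ring
    rw [this, hmM]; linarith
  have hmM2 : m ^ 2 ≤ M ^ 2 := pow_le_pow_left₀ hm.le hmM' 2
  constructor
  · have : m ^ 2 ≤ z ^ 2 := by
      by_contra hlt
      push Not at hlt
      nlinarith
    have := sq_le_sq.mp this
    rwa [abs_of_pos hm] at this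
  · have : z ^ 2 ≤ M ^ 2 := by
      by_contra hlt
      push Not at hlt
      nlinarith
    have := sq_le_sq.mp this
    rwa [abs_of_pos hM] at this

theorem Adm.neg {m M z : ℝ} (h : Adm m M z) : Adm m M (-z) := by
  simpa [Adm] using h

theorem Adm.pos {m M z : ℝ} (h : Adm m M z) (hz : 0 < z) : m ≤ z ∧ z ≤ M := by
  simpa [Adm, abs_of_pos hz] using h

theorem Adm.ne {m M z : ℝ} (h : Adm m M z) (hm : 0 < m) : z ≠ 0 := by
  rintro rfl
  have := h.1
  simp at this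
  linarith

/-- Four consecutive admissible terms of a sequence `E_{j+1} = T E_j - E_{j-1}` are impossible for
`1 ≤ T < 2`; first with the sign of the first term fixed. -/
theorem orbit4_pos {m M T E0 E1 E2 E3 : ℝ} (hm : 0 < m) (hmM : m * M = 2)
    (hT1 : 1 ≤ T) (hT2 : T < 2) (h0 : Adm m M E0) (h1 : Adm m M E1) (h2 : Adm m M E2)
    (h3 : Adm m M E3) (e2 : E2 = T * E1 - E0) (e3 : E3 = T * E2 - E1)
    (hg : E0 ^ 2 + E1 ^ 2 - T * E0 * E1 = m ^ 2 + M ^ 2 - T ^ 2) (hE0 : 0 < E0) : False := by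
  have hT0 : 0 < T := by linarith
  have g01 := hg
  have g12 : E1 ^ 2 + E2 ^ 2 - T * E1 * E2 = m ^ 2 + M ^ 2 - T ^ 2 := by
    rw [← hg, e2]; ring
  have g23 : E2 ^ 2 + E3 ^ 2 - T * E2 * E3 = m ^ 2 + M ^ 2 - T ^ 2 := by
    rw [← g12, e3]; ring
  have a0 := h0.pos hE0
  rcases lt_or_gt_of_ne (h1.ne hm) with hE1 | hE1
  · -- Case B: `E1 < 0`
    have hE2 : E2 < 0 := by nlinarith
    have b1 := h1.neg.pos (by linarith : (0:ℝ) < -E1)
    have b2 := h2.neg.pos (by linarith : (0:ℝ) < -E2)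
    have c1 : T * (-E2) < 2 * (-E1) := by
      by_contra hc
      push Not at hc
      exact gap hT0 hT2 hm hmM b1.1 b2.2 hc (by rw [← g12]; ring)
    have hE3 : E3 < 0 → False := by
      intro hneg
      have b3 := h3.neg.pos (by linarith : (0:ℝ) < -E3)
      refine gap hT0 hT2 hm hmM b3.1 b2.2 ?_ (by rw [← g23]; ring)
      rw [e3]; linarith
    have hE3' : 0 < E3 := lt_of_le_of_ne (not_lt.mp hE3) (h3.ne hm).symm
    nlinarith
  · -- Case A: `0 < E1`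
    have a1 := h1.pos hE1
    have c1 : T * E0 < 2 * E1 := by
      by_contra hc
      push Not at hc
      exact gap hT0 hT2 hm hmM a1.1 a0.2 hc g01
    have c2 : T * E1 < 2 * E0 := by
      by_contra hc
      push Not at hc
      exact gap hT0 hT2 hm hmM a0.1 a1.2 hc (by rw [← g01]; ring)
    have hE2 : 0 < E2 → False := by
      intro hpos
      have a2 := h2.pos hpos
      refine gap hT0 hT2 hm hmM a2.1 a1.2 ?_ g12
      rw [e2]; linarith
    have hE2' : E2 < 0 := lt_of_le_of_ne (not_lt.mp hE2) (h2.ne hm)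
    have hE3 : E3 < 0 := by rw [e3]; nlinarith
    have b2 := h2.neg.pos (by linarith : (0:ℝ) < -E2)
    have b3 := h3.neg.pos (by linarith : (0:ℝ) < -E3)
    have c3 : T * (-E3) < 2 * (-E2) := by
      by_contra hc
      push Not at hc
      exact gap hT0 hT2 hm hmM b2.1 b3.2 hc (by rw [← g23]; ring)
    -- with `V = -E2`: `(2 - T^2) V > T E1` and `T V < (2 - T^2) E1`
    have d1 : T * E1 < (2 - T ^ 2) * (-E2) := by rw [e3] at c3; nlinarith
    have d2 : T * (-E2) < (2 - T ^ 2) * E1 := by rw [e2]; nlinarith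
    have d3 : 0 < 2 - T ^ 2 := by
      by_contra hc
      push Not at hc
      nlinarith
    have d4 : T ^ 2 * E1 < (2 - T ^ 2) ^ 2 * E1 := by nlinarith
    have d5 : T ^ 2 < (2 - T ^ 2) ^ 2 := lt_of_mul_lt_mul_right d4 hE1.le
    have d6 : T < 2 - T ^ 2 := by nlinarith
    nlinarith

theorem orbit4 {m M T E0 E1 E2 E3 : ℝ} (hm : 0 < m) (hmM : m * M = 2)
    (hT1 : 1 ≤ T) (hT2 : T < 2) (h0 : Adm m M E0) (h1 : Adm m M E1) (h2 : Adm m M E2)
    (h3 : Adm m M E3) (e2 : E2 = T * E1 - E0) (e3 : E3 = T * E2 - E1)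
    (hg : E0 ^ 2 + E1 ^ 2 - T * E0 * E1 = m ^ 2 + M ^ 2 - T ^ 2) : False := by
  rcases lt_or_gt_of_ne (h0.ne hm) with hE0 | hE0
  · exact orbit4_pos hm hmM hT1 hT2 h0.neg h1.neg h2.neg h3.neg (by rw [e2]; ring)
      (by rw [e3]; ring) (by rw [← hg]; ring) (by linarith)
  · exact orbit4_pos hm hmM hT1 hT2 h0 h1 h2 h3 e2 e3 hg hE0

/-- Large trace, positive type. -/
theorem big_pos {T x y : ℝ} (hT : 2 ≤ T) (hx : 0 < x) (hxy : x ≤ y)
    (hG : 4 ≤ T ^ 2 * (x ^ 2 + y ^ 2 - x * y * T))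
    (hu : ((T ^ 2 - 1) * y - T * x) ^ 2 < x ^ 2 + y ^ 2 + T ^ 2 - x * y * T) : False := by
  have hy : 0 < y := lt_of_lt_of_le hx hxy
  obtain ⟨h, rfl⟩ : ∃ h, T = 2 + h := ⟨T - 2, by ring⟩
  have hh : 0 ≤ h := by linarith
  set T := 2 + h with hTdef
  have key : (T ^ 2 - 1) ^ 2 * (x ^ 2 + y ^ 2 - x * y * T) ≤ ((T ^ 2 - 1) * y - T * x) ^ 2 := by
    have e : ((T ^ 2 - 1) * y - T * x) ^ 2 - (T ^ 2 - 1) ^ 2 * (x ^ 2 + y ^ 2 - x * y * T)
        = T * (T ^ 2 - 1) * (T ^ 2 - 3) * (x * (y - x))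
          + (1 + 15 * h + 35 * h ^ 2 + 28 * h ^ 3 + 9 * h ^ 4 + h ^ 5) * x ^ 2 := by
      rw [hTdef]; ring
    have p1 : 0 ≤ T * (T ^ 2 - 1) * (T ^ 2 - 3) * (x * (y - x)) := by
      have : 0 ≤ T ^ 2 - 1 := by nlinarith
      have : 0 ≤ T ^ 2 - 3 := by nlinarith
      have : 0 ≤ x * (y - x) := mul_nonneg hx.le (by linarith)
      positivity
    have p2 : 0 ≤ (1 + 15 * h + 35 * h ^ 2 + 28 * h ^ 3 + 9 * h ^ 4 + h ^ 5) * x ^ 2 := by
      positivity
    linarith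
  set s := x ^ 2 + y ^ 2 - x * y * T with hs
  have h1 : (T ^ 2 - 1) ^ 2 * s < T ^ 2 + s := by
    have : x ^ 2 + y ^ 2 + T ^ 2 - x * y * T = T ^ 2 + s := by rw [hs]; ring
    linarith
  have hT2 : 4 ≤ T ^ 2 := by nlinarith
  have h2 : (T ^ 2 - 2) * (T ^ 2 * s) < T ^ 2 := by nlinarith
  nlinarith

/-- Large trace, negative type. -/
theorem big_neg {T x y : ℝ} (hT : 2 ≤ T) (hx : 0 < x) (hy : 0 < y)
    (hG : 4 ≤ T ^ 2 * (x ^ 2 + y ^ 2 + x * y * T))
    (hu : ((T ^ 3 - 2 * T) * y + (T ^ 2 - 1) * x) ^ 2 < x ^ 2 + y ^ 2 + T ^ 2 + x * y * T) :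
    False := by
  have hT2 : 4 ≤ T ^ 2 := by nlinarith
  have key : (T ^ 2 - 1) ^ 2 * (x ^ 2 + y ^ 2 + x * y * T)
      ≤ ((T ^ 3 - 2 * T) * y + (T ^ 2 - 1) * x) ^ 2 := by
    have e : ((T ^ 3 - 2 * T) * y + (T ^ 2 - 1) * x) ^ 2
          - (T ^ 2 - 1) ^ 2 * (x ^ 2 + y ^ 2 + x * y * T)
        = (T ^ 2 * (T ^ 2 - 2) * (T ^ 2 - 3) - 1) * y ^ 2
          + T * (T ^ 2 - 1) * (T ^ 2 - 3) * (x * y) := by
      ring
    have p1 : 0 ≤ T * (T ^ 2 - 1) * (T ^ 2 - 3) * (x * y) := by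
      have : 0 ≤ T ^ 2 - 1 := by nlinarith
      have : 0 ≤ T ^ 2 - 3 := by nlinarith
      positivity
    have p2 : 0 ≤ (T ^ 2 * (T ^ 2 - 2) * (T ^ 2 - 3) - 1) * y ^ 2 := by
      apply mul_nonneg _ (sq_nonneg y)
      have a1 : 2 ≤ T ^ 2 - 2 := by linarith
      have a2 : 1 ≤ T ^ 2 - 3 := by linarith
      have a3 : 2 ≤ (T ^ 2 - 2) * (T ^ 2 - 3) := by nlinarith
      nlinarith
    linarith
  set s := x ^ 2 + y ^ 2 + x * y * T with hs
  have h1 : (T ^ 2 - 1) ^ 2 * s < T ^ 2 + s := by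
    have : x ^ 2 + y ^ 2 + T ^ 2 + x * y * T = T ^ 2 + s := by rw [hs]; ring
    linarith
  have h2 : (T ^ 2 - 2) * (T ^ 2 * s) < T ^ 2 := by nlinarith
  nlinarith

theorem exists_mM {k : ℝ} (hk : 4 ≤ k) :
    ∃ m M : ℝ, 0 < m ∧ m ≤ M ∧ m * M = 2 ∧ m ^ 2 + M ^ 2 = k := by
  have a1 : 0 ≤ k + 4 := by linarith
  have a2 : 0 ≤ k - 4 := by linarith
  have s1 := Real.sq_sqrt a1
  have s2 := Real.sq_sqrt a2
  have p2 := Real.sqrt_nonneg (k - 4)
  have p12 : √(k - 4) < √(k + 4) := Real.sqrt_lt_sqrt a2 (by linarith)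
  refine ⟨(√(k + 4) - √(k - 4)) / 2, (√(k + 4) + √(k - 4)) / 2, by linarith, by linarith, ?_, ?_⟩
  · nlinarith
  · nlinarith

theorem lt_of_root {k w : ℝ} (h : 4 ≤ w ^ 2 * (k - w ^ 2)) : w ^ 2 < k := by
  by_contra hc
  push Not at hc
  nlinarith [sq_nonneg w]

theorem big {k x y z : ℝ} (hkap : x ^ 2 + y ^ 2 + z ^ 2 - x * y * z = k)
    (hx : x ≠ 0) (hy : y ≠ 0) (hxy : |x| ≤ |y|) (hz4 : 4 ≤ z ^ 2) (h : TreeG k 4 x y z) :
    False := by
  have hx' : 0 < |x| := abs_pos.mpr hx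
  have hy' : 0 < |y| := abs_pos.mpr hy
  have hT : 2 ≤ |z| := by
    have := sq_le_sq.mp (by linarith : (2:ℝ) ^ 2 ≤ z ^ 2)
    rwa [abs_of_pos (by norm_num : (0:ℝ) < 2)] at this
  have hz0 : z ≠ 0 := by
    rintro rfl
    norm_num at hz4
  have hG := h.root
  have hu := lt_of_root h.2.2.2.1.root
  have h4 := lt_of_root h.2.2.2.1.2.1.root
  have sx := sq_abs x
  have sy := sq_abs y
  have sz := sq_abs z
  have hne : x * y * z ≠ 0 := mul_ne_zero (mul_ne_zero hx hy) hz0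
  rcases lt_or_gt_of_ne hne with hneg | hpos
  · have e : x * y * z = -(|x| * |y| * |z|) := by
      rw [← abs_mul, ← abs_mul, abs_of_neg hneg]; ring
    refine big_neg hT hx' hy' ?_ ?_
    · rw [sx, sy, sz]
      have : x ^ 2 + y ^ 2 + |x| * |y| * |z| = k - z ^ 2 := by linear_combination hkap + e
      rw [this]; exact hG
    · have e1 : x ^ 2 + y ^ 2 + z ^ 2 + |x| * |y| * |z| = k := by linear_combination hkap + e
      have e2 : ((|z| ^ 3 - 2 * |z|) * |y| + (|z| ^ 2 - 1) * |x|) ^ 2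
          = |z| ^ 2 * (|z| ^ 2 - 2) ^ 2 * |y| ^ 2 + (|z| ^ 2 - 1) ^ 2 * |x| ^ 2
            + 2 * (|z| ^ 2 - 2) * (|z| ^ 2 - 1) * (|x| * |y| * |z|) := by ring
      rw [e2, sx, sy, sz, e1]
      refine lt_of_eq_of_lt ?_ h4
      linear_combination (2 * (z ^ 2 - 2) * (z ^ 2 - 1)) * e
  · have e : x * y * z = |x| * |y| * |z| := by
      rw [← abs_mul, ← abs_mul, abs_of_pos hpos]
    refine big_pos hT hx' hxy ?_ ?_
    · rw [sx, sy, sz]
      have : x ^ 2 + y ^ 2 - |x| * |y| * |z| = k - z ^ 2 := by linear_combination hkap + e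
      rw [this]; exact hG
    · have e1 : x ^ 2 + y ^ 2 + z ^ 2 - |x| * |y| * |z| = k := by linear_combination hkap + e
      have e2 : ((|z| ^ 2 - 1) * |y| - |z| * |x|) ^ 2
          = (|z| ^ 2 - 1) ^ 2 * |y| ^ 2 + |z| ^ 2 * |x| ^ 2
            - 2 * (|z| ^ 2 - 1) * (|x| * |y| * |z|) := by ring
      rw [e2, sx, sy, sz, e1]
      refine lt_of_eq_of_lt ?_ hu
      linear_combination (2 * (z ^ 2 - 1)) * e

/-- A node value with a deep enough tree below it has absolute value less than `1`. -/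
theorem small {k x y z : ℝ} (hk : 4 ≤ k) (hkap : x ^ 2 + y ^ 2 + z ^ 2 - x * y * z = k)
    (hx : x ≠ 0) (hy : y ≠ 0) (h : TreeG k 4 x y z) : z ^ 2 < 1 := by
  obtain ⟨m, M, hm, hmM', hmM, hmk⟩ := exists_mM hk
  by_contra hz1
  push Not at hz1
  have adm : ∀ {w : ℝ}, 4 ≤ w ^ 2 * (k - w ^ 2) → Adm m M w :=
    fun hw => adm_of hm hmM' hmM hmk hw
  rcases lt_or_ge (z ^ 2) 4 with hz4 | hz4
  · have hq := adm h.2.2.root
    have hu := adm h.2.2.2.1.root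
    have h4 := adm h.2.2.2.1.2.1.root
    have h5 := adm h.2.2.2.1.2.1.2.1.root
    have hg : (y * z - x) ^ 2 + (z * (y * z - x) - y) ^ 2
        - z * (y * z - x) * (z * (y * z - x) - y) = m ^ 2 + M ^ 2 - z ^ 2 := by
      rw [hmk, ← hkap]; ring
    rcases lt_or_ge z 0 with hz0 | hz0
    · refine orbit4 (T := -z) hm hmM (by nlinarith) (by nlinarith) hq hu.neg h4 h5.neg
        (by ring) (by ring) ?_
      linear_combination hg
    · refine orbit4 (T := z) hm hmM (by nlinarith) (by nlinarith) hq hu h4 h5 rfl rfl hg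
  · rcases le_total |x| |y| with hxy | hxy
    · exact big hkap hx hy hxy hz4 h
    · exact big (by rw [← hkap]; ring) hy hx hxy hz4 h.symm

/-- The trace tree of depth six is contradictory. -/
theorem tree_false {k x y z : ℝ} (hk : 4 ≤ k) (hkap : x ^ 2 + y ^ 2 + z ^ 2 - x * y * z = k)
    (hx : x ≠ 0) (hy : y ≠ 0) (h : TreeG k 6 x y z) : False := by
  have hz : z ^ 2 < 1 := small hk hkap hx hy h.mono.mono
  have hz0 : z ≠ 0 := by
    rintro rfl
    have := h.root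
    norm_num at this
  have hp : (x * z - y) ^ 2 < 1 :=
    small (x := x) (y := z) hk (by rw [← hkap]; ring) hx hz0 h.2.1.mono
  have hp0 : x * z - y ≠ 0 := by
    intro h0
    have := h.2.1.root
    rw [h0] at this
    norm_num at this
  have hr : ((z * (x * z - y)) - x) ^ 2 < 1 :=
    small (x := x * z - y) (y := z) hk (by rw [← hkap]; ring) hp0 hz0 h.2.1.2.2
  set p := x * z - y with hpdef
  set r := z * p - x with hrdef
  have hkap' : p ^ 2 + z ^ 2 + r ^ 2 - p * z * r = k := by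
    rw [← hkap, hrdef, hpdef]; ring
  have hpz : (p * z) ^ 2 ≤ 1 := by
    rw [mul_pow]; nlinarith [sq_nonneg p, sq_nonneg z]
  have hpzr : -(p * z * r) ≤ 1 := by
    nlinarith [sq_nonneg (p * z + r)]
  linarith

end Pool.Agent.Helper84.GPFA
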