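import Pool.Agent.Helper84.GPFAWords

/-!
# Substitutions, scaling and the contradiction for the two-state GPFA theorem
-/

set_option linter.unusedSimpArgs false

namespace Pool.Agent.Helper84.GPFA

open Matrix

/-- Substitution `0 ↦ 0`, `1 ↦ 10`. -/
def sL (b : Bool) : List Bool := if b then [true, false] else [false]

/-- Substitution `0 ↦ 01`, `1 ↦ 1`. -/
def sR (b : Bool) : List Bool := if b then [true] else [false, true]

theorem prodW_nil (A B : Mat) : prodW A B [] = 1 := by simp [prodW]

theorem prodW_cons (A B : Mat) (b : Bool) (w : List Bool) :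
    prodW A B (b :: w) = pm A B b * prodW A B w := by simp [prodW]

theorem prodW_append (A B : Mat) (u v : List Bool) :
    prodW A B (u ++ v) = prodW A B u * prodW A B v := by simp [prodW]

theorem prodW_sL (A B : Mat) (w : List Bool) :
    prodW A B (w.flatMap sL) = prodW A (B * A) w := by
  induction w with
  | nil => simp [prodW]
  | cons b w ih =>
    rw [List.flatMap_cons, prodW_append, prodW_cons, ih]
    cases b <;> simp [prodW, pm, sL]

theorem prodW_sR (A B : Mat) (w : List Bool) :
    prodW A B (w.flatMap sR) = prodW (A * B) B w := by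
  induction w with
  | nil => simp [prodW]
  | cons b w ih =>
    rw [List.flatMap_cons, prodW_append, prodW_cons, ih]
    cases b <;> simp [prodW, pm, sR]

theorem sL_inj : ∀ u v : List Bool, u.flatMap sL = v.flatMap sL → u = v
  | [], [], _ => rfl
  | [], b :: v, h => by cases b <;> simp [sL] at h
  | b :: u, [], h => by cases b <;> simp [sL] at h
  | b :: u, c :: v, h => by
    rw [List.flatMap_cons, List.flatMap_cons] at h
    cases b <;> cases c <;> simp [sL] at h ⊢ <;> exact sL_inj u v (by simpa [sL] using h)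

theorem sR_inj : ∀ u v : List Bool, u.flatMap sR = v.flatMap sR → u = v
  | [], [], _ => rfl
  | [], b :: v, h => by cases b <;> simp [sR] at h
  | b :: u, [], h => by cases b <;> simp [sR] at h
  | b :: u, c :: v, h => by
    rw [List.flatMap_cons, List.flatMap_cons] at h
    cases b <;> cases c <;> simp [sR] at h ⊢ <;> exact sR_inj u v (by simpa [sR] using h)

theorem Feas.substL {A B : Mat} {w : List Bool} (h : Feas A B (w.flatMap sL)) :
    Feas A (B * A) w := by
  obtain ⟨α, β, f⟩ := h
  refine ⟨α, β, fun z hz hne => ?_⟩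
  have := f (z.flatMap sL) (hz.flatMap_right sL) (fun h => hne (sL_inj _ _ h))
  rwa [prodW_sL, prodW_sL] at this

theorem Feas.substR {A B : Mat} {w : List Bool} (h : Feas A B (w.flatMap sR)) :
    Feas (A * B) B w := by
  obtain ⟨α, β, f⟩ := h
  refine ⟨α, β, fun z hz hne => ?_⟩
  have := f (z.flatMap sR) (hz.flatMap_right sR) (fun h => hne (sR_inj _ _ h))
  rwa [prodW_sR, prodW_sR] at this

/-- The test words for the tree of depth `n`. -/
def need : ℕ → List (List Bool)
  | 0 => [w1, w2]
  | n + 1 => w1 :: w2 :: ((need n).map (fun w => w.flatMap sL)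
      ++ (need n).map (fun w => w.flatMap sR))

theorem w1_mem (n : ℕ) : w1 ∈ need n := by cases n <;> simp [need]

theorem w2_mem (n : ℕ) : w2 ∈ need n := by cases n <;> simp [need]

theorem tree_of {k : ℝ} : ∀ (n : ℕ) (X Y : Mat), X.det = 1 → Y.det = 1 → X.trace ≠ 0 →
    Y.trace ≠ 0 →
    X.trace ^ 2 + Y.trace ^ 2 + (X * Y).trace ^ 2 - X.trace * Y.trace * (X * Y).trace = k →
    (∀ y ∈ need n, Feas X Y y) → TreeG k n X.trace Y.trace (X * Y).trace := by
  intro n
  induction n with
  | zero =>
    intro X Y hX hY hx hy hk hf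
    have := (node hX hY hx hy (hf w1 (w1_mem 0)) (hf w2 (w2_mem 0))).2
    show 4 ≤ _
    rw [← hk]
    refine this.trans_eq ?_
    ring
  | succ n ih =>
    intro X Y hX hY hx hy hk hf
    have h0 := (node hX hY hx hy (hf w1 (w1_mem _)) (hf w2 (w2_mem _))).2
    have ht : (X * Y).trace ≠ 0 := by
      intro h
      rw [h] at h0
      norm_num at h0
    have t1 : (X * (Y * X)).trace = X.trace * (X * Y).trace - Y.trace := by
      rw [ch3, hX]
      simp only [Matrix.trace_sub, Matrix.trace_smul, Matrix.trace_one, smul_eq_mul,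
        Fintype.card_fin]
      push_cast
      ring
    have t2 : (X * Y * Y).trace = Y.trace * (X * Y).trace - X.trace := by
      rw [mul_assoc, ch Y, hY]
      simp only [mul_sub, Matrix.trace_sub, mul_smul_comm, Matrix.trace_smul, smul_eq_mul, mul_one,
        one_smul]
    have tR : (Y * X).trace = (X * Y).trace := Matrix.trace_mul_comm Y X
    refine ⟨?_, ?_, ?_⟩
    · rw [← hk]
      refine h0.trans_eq ?_
      ring
    · have := ih X (Y * X) hX (by rw [Matrix.det_mul, hX, hY, one_mul]) hx (by rwa [tR])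
        (by rw [t1, tR, ← hk]; ring) (fun y hy' => (hf (y.flatMap sL) (by
          simp only [need, List.mem_cons, List.mem_append, List.mem_map]
          exact Or.inr (Or.inr (Or.inl ⟨y, hy', rfl⟩)))).substL)
      rwa [t1, tR] at this
    · have := ih (X * Y) Y (by rw [Matrix.det_mul, hX, hY, one_mul]) hY ht hy
        (by rw [t2, ← hk]; ring) (fun y hy' => (hf (y.flatMap sR) (by
          simp only [need, List.mem_cons, List.mem_append, List.mem_map]
          exact Or.inr (Or.inr (Or.inr ⟨y, hy', rfl⟩)))).substR)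
      rwa [t2] at this

theorem sl2_false {X Y : Mat} (hX : X.det = 1) (hY : Y.det = 1) (hx : X.trace ≠ 0)
    (hy : Y.trace ≠ 0) (hf : ∀ y ∈ need 6, Feas X Y y) : False := by
  have h0 := (node hX hY hx hy (hf w1 (w1_mem _)) (hf w2 (w2_mem _))).1
  exact tree_false h0 rfl hx hy (tree_of 6 X Y hX hY hx hy rfl hf)

theorem prodW_smul (c d : ℝ) (A B : Mat) (w : List Bool) : prodW (c • A) (d • B) w
      = (c ^ w.count false * d ^ w.count true) • prodW A B w := by
  induction w with
  | nil => simp [prodW]
  | cons b w ih =>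
    rw [prodW_cons, prodW_cons, ih]
    cases b
    · simp only [pm, List.count_cons_self, Bool.false_eq_true, if_false, smul_mul_smul_comm]
      rw [List.count_cons_of_ne (by decide)]
      congr 1
      ring
    · simp only [pm, List.count_cons_self, if_true, smul_mul_smul_comm]
      rw [List.count_cons_of_ne (by decide)]
      congr 1
      ring

theorem Feas.unscale {c d : ℝ} (hc : 0 < c) (hd : 0 < d) {A B : Mat} {w : List Bool}
    (h : Feas (c • A) (d • B) w) : Feas A B w := by
  obtain ⟨α, β, f⟩ := h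
  refine ⟨α, β, fun z hz hne => ?_⟩
  have := f z hz hne
  rw [prodW_smul, prodW_smul, hz.count_eq false, hz.count_eq true, Matrix.smul_mulVec,
    Matrix.smul_mulVec, dotProduct_smul, dotProduct_smul, smul_eq_mul, smul_eq_mul] at this
  exact lt_of_mul_lt_mul_left this (by positivity)

theorem det_pos_aux {A B P z1 z2 z3 z4 : Mat} {α β : Fin 2 → ℝ}
    (hP : P = A * (A * (B * (A * A)))) (e1 : z1 = A * (A * (A * (B * A))))
    (e2 : z2 = A * (B * (A * (A * A)))) (e3 : z3 = B * (A * (A * (A * A))))
    (e4 : z4 = A * (A * (A * (A * B))))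
    (h1 : α ⬝ᵥ (z1 *ᵥ β) < α ⬝ᵥ (P *ᵥ β)) (h2 : α ⬝ᵥ (z2 *ᵥ β) < α ⬝ᵥ (P *ᵥ β))
    (h3 : α ⬝ᵥ (z3 *ᵥ β) < α ⬝ᵥ (P *ᵥ β)) (h4 : α ⬝ᵥ (z4 *ᵥ β) < α ⬝ᵥ (P *ᵥ β)) :
    0 < A.det ∧ A.trace ≠ 0 := by
  have hA := ch A
  have hA' : ∀ Z : Mat, A * (A * Z) = A.trace • (A * Z) - A.det • Z := fun Z => by
    rw [← mul_assoc, hA, sub_mul, smul_mul_assoc, smul_mul_assoc, one_mul]
  have i1 : (P - z1) + (P - z2) = A.det • (A * (B * A) + A * (B * A) - B * (A * A) - A * (A * B)) := by
    rw [hP, e1, e2]
    simp only [mul_sub, sub_mul, mul_add, add_mul, smul_mul_assoc, mul_smul_comm, mul_assoc,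
      mul_one, one_mul, hA, hA']
    module
  have i2 : (P - z3) + (P - z4)
      = (A.trace ^ 2) • (A * (B * A) + A * (B * A) - B * (A * A) - A * (A * B)) := by
    rw [hP, e3, e4]
    simp only [mul_sub, sub_mul, mul_add, add_mul, smul_mul_assoc, mul_smul_comm, mul_assoc,
      mul_one, one_mul, hA, hA']
    module
  have j1 := congrArg (fun Q : Mat => α ⬝ᵥ (Q *ᵥ β)) i1
  have j2 := congrArg (fun Q : Mat => α ⬝ᵥ (Q *ᵥ β)) i2
  simp only [Matrix.add_mulVec, Matrix.sub_mulVec, Matrix.smul_mulVec, dotProduct_add,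
    dotProduct_sub, dotProduct_smul, smul_eq_mul] at j1 j2
  generalize α ⬝ᵥ ((A * (B * A)) *ᵥ β) + α ⬝ᵥ ((A * (B * A)) *ᵥ β) - α ⬝ᵥ ((B * (A * A)) *ᵥ β)
    - α ⬝ᵥ ((A * (A * B)) *ᵥ β) = d at *
  have k1 : 0 < A.det * d := by linarith
  have k2 : 0 < A.trace ^ 2 * d := by linarith
  have hd : 0 < d := by
    by_contra hd
    push Not at hd
    nlinarith [sq_nonneg A.trace]
  constructor
  · exact (mul_pos_iff_of_pos_right hd).mp k1
  · intro h
    rw [h] at k2
    norm_num at k2

theorem det_pos_left {A B : Mat} (h : Feas A B [false, false, true, false, false]) :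
    0 < A.det ∧ A.trace ≠ 0 := by
  obtain ⟨α, β, f⟩ := h
  exact det_pos_aux (A := A) (B := B) (by simp [prodW, pm]) (by simp [prodW, pm])
    (by simp [prodW, pm]) (by simp [prodW, pm]) (by simp [prodW, pm])
    (f [false, false, false, true, false] (by decide) (by decide))
    (f [false, true, false, false, false] (by decide) (by decide))
    (f [true, false, false, false, false] (by decide) (by decide))
    (f [false, false, false, false, true] (by decide) (by decide))

theorem det_pos_right {A B : Mat} (h : Feas A B [true, true, false, true, true]) :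
    0 < B.det ∧ B.trace ≠ 0 := by
  obtain ⟨α, β, f⟩ := h
  exact det_pos_aux (A := B) (B := A) (by simp [prodW, pm]) (by simp [prodW, pm])
    (by simp [prodW, pm]) (by simp [prodW, pm]) (by simp [prodW, pm])
    (f [true, true, true, false, true] (by decide) (by decide))
    (f [true, false, true, true, true] (by decide) (by decide))
    (f [false, true, true, true, true] (by decide) (by decide))
    (f [true, true, true, true, false] (by decide) (by decide))

theorem exists_scale {A : Mat} (h : 0 < A.det) (ht : A.trace ≠ 0) :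
    ∃ (c : ℝ) (X : Mat), 0 < c ∧ A = c • X ∧ X.det = 1 ∧ X.trace ≠ 0 := by
  have hc : 0 < √A.det := Real.sqrt_pos.mpr h
  have hs : √A.det ^ 2 = A.det := Real.sq_sqrt h.le
  refine ⟨√A.det, (√A.det)⁻¹ • A, hc, ?_, ?_, ?_⟩
  · rw [smul_smul, mul_inv_cancel₀ hc.ne', one_smul]
  · rw [Matrix.det_smul, Fintype.card_fin, inv_pow, hs]
    exact inv_mul_cancel₀ h.ne'
  · rw [Matrix.trace_smul, smul_eq_mul]
    exact mul_ne_zero (inv_ne_zero hc.ne') ht

/-- All test words. -/
def testWords : List (List Bool) :=
  [false, false, true, false, false] :: [true, true, false, true, true] :: need 6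

theorem feas_false {A B : Mat} (hf : ∀ y ∈ testWords, Feas A B y) : False := by
  obtain ⟨dA, tA⟩ := det_pos_left (hf _ (by simp [testWords]))
  obtain ⟨dB, tB⟩ := det_pos_right (hf _ (by simp [testWords]))
  obtain ⟨c, X, hc, rfl, hX, hx⟩ := exists_scale dA tA
  obtain ⟨d, Y, hd, rfl, hY, hy⟩ := exists_scale dB tB
  refine sl2_false hX hY hx hy fun y hy' => (hf y ?_).unscale hc hd
  simp only [testWords, List.mem_cons]
  exact Or.inr (Or.inr hy')

/-- The hard word. -/
def hardWord : List Bool := testWords.flatten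

/-- No two-state real representation exposes the hard word, even inside a longer word. -/
theorem hard (A B : Mat) (p q : Fin 2 → ℝ) (u v : List Bool) :
    ∃ z : List Bool, z.Perm hardWord ∧ z ≠ hardWord ∧
      p ⬝ᵥ (prodW A B (u ++ hardWord ++ v) *ᵥ q) ≤ p ⬝ᵥ (prodW A B (u ++ z ++ v) *ᵥ q) := by
  by_contra hcon
  push Not at hcon
  refine feas_false (A := A) (B := B) fun y hy => ?_
  obtain ⟨s, t, hst⟩ := List.append_of_mem hy
  have hx : hardWord = s.flatten ++ y ++ t.flatten := by
    rw [hardWord, hst]; simp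
  refine ⟨p ᵥ* prodW A B (u ++ s.flatten), prodW A B (t.flatten ++ v) *ᵥ q, fun z hz hne => ?_⟩
  have h1 := hcon (s.flatten ++ z ++ t.flatten)
    (by rw [hx]; exact (hz.append_left _).append_right _)
    (by
      rw [hx]
      intro h
      apply hne
      exact List.append_cancel_left (List.append_cancel_right h))
  rw [hx] at h1
  simp only [← Matrix.dotProduct_mulVec, Matrix.mulVec_mulVec, ← prodW_append]
  simpa only [List.append_assoc] using h1

end Pool.Agent.Helper84.GPFA
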