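import Pool.Agent.Helper84.GPFANode
import Pool.Agent.Helper84.GPFATrace

/-!
# Words, factors and substitutions for the two-state GPFA theorem
-/

set_option linter.unusedSimpArgs false

namespace Pool.Agent.Helper84.GPFA

open Matrix

/-- The matrix of a letter. -/
def pm (A B : Mat) (b : Bool) : Mat := if b then B else A

/-- The matrix product along a word. -/
def prodW (A B : Mat) (w : List Bool) : Mat := (w.map (pm A B)).prod

/-- The word `y` is exposed by a rank-one functional among its anagrams. -/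
def Feas (A B : Mat) (y : List Bool) : Prop :=
  ∃ α β : Fin 2 → ℝ, ∀ z : List Bool, z.Perm y → z ≠ y →
    α ⬝ᵥ (prodW A B z *ᵥ β) < α ⬝ᵥ (prodW A B y *ᵥ β)

/-- First test word `011001`. -/
def w1 : List Bool := [false, true, true, false, false, true]

/-- Second test word `010101`. -/
def w2 : List Bool := [false, true, false, true, false, true]

theorem ch (X : Mat) : X * X = X.trace • X - X.det • (1 : Mat) := by
  ext i j
  fin_cases i <;> fin_cases j <;>
    simp [Matrix.mul_apply, Fin.sum_univ_two, Matrix.det_fin_two, Matrix.trace_fin_two] <;> ring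

theorem ch3 (X Y : Mat) :
    X * (Y * X) = (X * Y).trace • X - X.det • (Y.trace • (1 : Mat) - Y) := by
  ext i j
  fin_cases i <;> fin_cases j <;>
    simp [Matrix.mul_apply, Fin.sum_univ_two, Matrix.det_fin_two, Matrix.trace_fin_two] <;> ring

section diffs

variable {S R X Y : Mat} {t p a b : ℝ}

theorem ch' (hS : S * S = t • S - 1) (Z : Mat) : S * (S * Z) = t • (S * Z) - Z := by
  rw [← mul_assoc, hS, sub_mul, smul_mul_assoc, one_mul]

theorem diff0 (hS : S * S = t • S - 1) (hR : R * R = t • R - 1) :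
    S * R * S - S * S * S = (S * R - t • S) * (S - R) := by
  simp only [mul_sub, sub_mul, mul_add, add_mul, smul_mul_assoc, mul_smul_comm, mul_assoc,
    mul_one, one_mul, hS, hR, ch' hS, ch' hR]
  module

theorem diff1 (hS : S * S = t • S - 1) (hR : R * R = t • R - 1) :
    S * R * S - S * S * R = (S * R - 1) * (S - R) := by
  simp only [mul_sub, sub_mul, mul_add, add_mul, smul_mul_assoc, mul_smul_comm, mul_assoc,
    mul_one, one_mul, hS, hR, ch' hS, ch' hR]
  module

theorem diff2 (hS : S * S = t • S - 1) (hR : R * R = t • R - 1) :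
    S * R * S - R * S * S
      = (S * R - t • S - t • R + (t ^ 2 - 1) • (1 : Mat)) * (S - R) := by
  simp only [mul_sub, sub_mul, mul_add, add_mul, smul_mul_assoc, mul_smul_comm, mul_assoc,
    mul_one, one_mul, hS, hR, ch' hS, ch' hR]
  module

theorem diff3 (hS : S * S = t • S - 1) (hR : R * R = t • R - 1) :
    S * R * S - R * R * R = (S * R - t • S + (t ^ 2 - 1) • (1 : Mat)) * (S - R) := by
  simp only [mul_sub, sub_mul, mul_add, add_mul, smul_mul_assoc, mul_smul_comm, mul_assoc,
    mul_one, one_mul, hS, hR, ch' hS, ch' hR]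
  module

theorem diffB1 (hS : S * S = t • S - 1) (hR : R * R = t • R - 1) :
    S * S * S - S * R * R = (t • S) * (S - R) := by
  simp only [mul_sub, sub_mul, mul_add, add_mul, smul_mul_assoc, mul_smul_comm, mul_assoc,
    mul_one, one_mul, hS, hR, ch' hS, ch' hR]
  module

theorem diffB2 (hS : S * S = t • S - 1) (hR : R * R = t • R - 1) :
    S * S * S - R * R * S = (t • (t • (1 : Mat) - R)) * (S - R) := by
  simp only [mul_sub, sub_mul, mul_add, add_mul, smul_mul_assoc, mul_smul_comm, mul_assoc,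
    mul_one, one_mul, hS, hR, ch' hS, ch' hR]
  module

theorem diffB0 (hS : S * S = t • S - 1) (hR : R * R = t • R - 1) :
    S * S * S - S * R * S = (t • S - S * R) * (S - R) := by
  simp only [mul_sub, sub_mul, mul_add, add_mul, smul_mul_assoc, mul_smul_comm, mul_assoc,
    mul_one, one_mul, hS, hR, ch' hS, ch' hR]
  module

theorem diffB3 (hS : S * S = t • S - 1) (hR : R * R = t • R - 1)
    (hSRS : S * (R * S) = p • S - (t • (1 : Mat) - R))
    (hRSR : R * (S * R) = p • R - (t • (1 : Mat) - S)) :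
    S * S * S - R * S * R = (t • S - S * R + (1 - (2 - p)) • (1 : Mat)) * (S - R) := by
  simp only [mul_sub, sub_mul, mul_add, add_mul, smul_mul_assoc, mul_smul_comm, mul_assoc,
    mul_one, one_mul, hS, hR, ch' hS, ch' hR, hSRS, hRSR]
  module

/-- Rewriting for the third letter pattern. -/
theorem ch3' (h : X * (Y * X) = t • X - (b • (1 : Mat) - Y)) (Z : Mat) :
    X * (Y * (X * Z)) = t • (X * Z) - (b • Z - Y * Z) := by
  have : X * (Y * (X * Z)) = (X * (Y * X)) * Z := by simp only [mul_assoc]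
  rw [this, h, sub_mul, sub_mul, smul_mul_assoc, smul_mul_assoc, one_mul]

theorem diff4 (hX : X * X = a • X - 1) (hY : Y * Y = b • Y - 1)
    (hXYX : X * (Y * X) = t • X - (b • (1 : Mat) - Y))
    (hYXY : Y * (X * Y) = t • Y - (a • (1 : Mat) - X)) :
    X * Y * (Y * X) * (X * Y) - X * X * Y * Y * X * Y
      = ((-b) • (b • (1 : Mat) - Y)) * (X * Y - Y * X) := by
  simp only [mul_sub, sub_mul, mul_add, add_mul, smul_mul_assoc, mul_smul_comm, mul_assoc,
    mul_one, one_mul, hX, hY, ch' hX, ch' hY, hXYX, hYXY, ch3' hXYX, ch3' hYXY]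
  module

theorem idP1 (hX : X * X = a • X - 1) (hY : Y * Y = b • Y - 1)
    (hXYX : X * (Y * X) = t • X - (b • (1 : Mat) - Y)) :
    (X * Y) * (Y * X) - 1 = (b * t - a) • X - b • (b • (1 : Mat) - Y) := by
  simp only [mul_sub, sub_mul, mul_add, add_mul, smul_mul_assoc, mul_smul_comm, mul_assoc,
    mul_one, one_mul, hX, hY, ch' hX, ch' hY, hXYX, ch3' hXYX]
  module

theorem idP2 (hX : X * X = a • X - 1) (hY : Y * Y = b • Y - 1)
    (hXYX : X * (Y * X) = t • X - (b • (1 : Mat) - Y))
    (hanti : X * Y = a • Y + b • X + (t - a * b) • (1 : Mat) - Y * X) :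
    (X * Y) * (Y * X) - t • (X * Y) - t • (Y * X) + (t ^ 2 - 1) • (1 : Mat)
      = (a * t - b) • (b • (1 : Mat) - Y) - a • X := by
  have h1 := idP1 hX hY hXYX
  have h2 : (X * Y) * (Y * X) = (b * t - a) • X - b • (b • (1 : Mat) - Y) + 1 := by
    rw [← h1]; abel
  rw [h2, hanti]
  module

end diffs

theorem anti (X Y : Mat) : X * Y = X.trace • Y + Y.trace • X
    + ((X * Y).trace - X.trace * Y.trace) • (1 : Mat) - Y * X := by
  ext i j
  fin_cases i <;> fin_cases j <;>
    simp [Matrix.mul_apply, Fin.sum_univ_two, Matrix.trace_fin_two] <;> ring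

theorem trace_SR {X Y : Mat} (hX : X.det = 1) (hY : Y.det = 1) :
    ((X * Y) * (Y * X)).trace
      = 2 - (X.trace ^ 2 + Y.trace ^ 2 - X.trace * Y.trace * (X * Y).trace) := by
  have hXX := ch X
  have hYY := ch Y
  have hXYX := ch3 X Y
  rw [hX, one_smul] at hXX hXYX
  rw [hY, one_smul] at hYY
  have h1 := idP1 hXX hYY hXYX
  have h2 := congrArg Matrix.trace h1
  simp only [Matrix.trace_sub, Matrix.trace_smul, Matrix.trace_one, smul_eq_mul,
    Fintype.card_fin] at h2
  push_cast at h2
  linear_combination h2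

theorem key {Py Pz M C : Mat} {α β : Fin 2 → ℝ}
    (hlt : α ⬝ᵥ (Pz *ᵥ β) < α ⬝ᵥ (Py *ᵥ β)) (hD : Py - Pz = M * C) :
    0 < (α ᵥ* M) ⬝ᵥ (C *ᵥ β) := by
  have : (α ᵥ* M) ⬝ᵥ (C *ᵥ β) = α ⬝ᵥ (Py *ᵥ β) - α ⬝ᵥ (Pz *ᵥ β) := by
    rw [← Matrix.dotProduct_mulVec, Matrix.mulVec_mulVec, ← hD, Matrix.sub_mulVec,
      dotProduct_sub]
  rw [this]; linarith

/-- The conclusion at a node of the tree. -/
theorem node {X Y : Mat} (hX : X.det = 1) (hY : Y.det = 1) (hx : X.trace ≠ 0)
    (hy : Y.trace ≠ 0) (h1 : Feas X Y w1) (h2 : Feas X Y w2) :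
    4 ≤ X.trace ^ 2 + Y.trace ^ 2 + (X * Y).trace ^ 2 - X.trace * Y.trace * (X * Y).trace ∧
    4 ≤ (X * Y).trace ^ 2 * (X.trace ^ 2 + Y.trace ^ 2 - X.trace * Y.trace * (X * Y).trace) := by
  have hXX := ch X
  have hYY := ch Y
  have hXYX := ch3 X Y
  have hYXY := ch3 Y X
  have hanti := anti X Y
  have hp := trace_SR hX hY
  rw [Matrix.trace_mul_comm Y X] at hYXY
  rw [hX, one_smul] at hXX hXYX
  rw [hY, one_smul] at hYY hYXY
  have hSd : (X * Y).det = 1 := by rw [Matrix.det_mul, hX, hY, one_mul]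
  have hRd : (Y * X).det = 1 := by rw [Matrix.det_mul, hX, hY, one_mul]
  have tR : (Y * X).trace = (X * Y).trace := Matrix.trace_mul_comm Y X
  have hSS := ch (X * Y)
  have hRR := ch (Y * X)
  rw [hSd, one_smul] at hSS
  rw [hRd, one_smul, tR] at hRR
  have hSRS := ch3 (X * Y) (Y * X)
  have hRSR := ch3 (Y * X) (X * Y)
  rw [hSd, one_smul, tR] at hSRS
  rw [hRd, one_smul, Matrix.trace_mul_comm (Y * X) (X * Y)] at hRSR
  have i1 := idP1 hXX hYY hXYX
  have i2 := idP2 hXX hYY hXYX hanti
  have tS : (X * Y).trace = (X * Y).trace := rfl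
  obtain ⟨α, β, f1⟩ := h1
  obtain ⟨α', β', f2⟩ := h2
  have m0 := key (f1 [false, true, false, true, false, true] (by decide) (by decide))
    (M := (X * Y) * (Y * X) - (X * Y).trace • (X * Y)) (C := X * Y - Y * X)
    (by rw [← diff0 hSS hRR]; simp [prodW, pm, w1, mul_assoc])
  have m1 := key (f1 [false, true, false, true, true, false] (by decide) (by decide))
    (M := (X * Y) * (Y * X) - 1) (C := X * Y - Y * X)
    (by rw [← diff1 hSS hRR]; simp [prodW, pm, w1, mul_assoc])
  have m2 := key (f1 [true, false, false, true, false, true] (by decide) (by decide))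
    (M := (X * Y) * (Y * X) - (X * Y).trace • (X * Y) - (X * Y).trace • (Y * X)
      + ((X * Y).trace ^ 2 - 1) • (1 : Mat)) (C := X * Y - Y * X)
    (by rw [← diff2 hSS hRR]; simp [prodW, pm, w1, mul_assoc])
  have m3 := key (f1 [true, false, true, false, true, false] (by decide) (by decide))
    (M := (X * Y) * (Y * X) - (X * Y).trace • (X * Y)
      + ((X * Y).trace ^ 2 - 1) • (1 : Mat)) (C := X * Y - Y * X)
    (by rw [← diff3 hSS hRR]; simp [prodW, pm, w1, mul_assoc])
  have m4 := key (f1 [false, false, true, true, false, true] (by decide) (by decide))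
    (M := (-Y.trace) • (Y.trace • (1 : Mat) - Y)) (C := X * Y - Y * X)
    (by rw [← diff4 hXX hYY hXYX hYXY]; simp [prodW, pm, w1, mul_assoc])
  have k1 := key (f2 [false, true, true, false, true, false] (by decide) (by decide))
    (M := (X * Y).trace • (X * Y)) (C := X * Y - Y * X)
    (by rw [← diffB1 hSS hRR]; simp [prodW, pm, w2, mul_assoc])
  have k2 := key (f2 [true, false, true, false, false, true] (by decide) (by decide))
    (M := (X * Y).trace • ((X * Y).trace • (1 : Mat) - Y * X)) (C := X * Y - Y * X)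
    (by rw [← diffB2 hSS hRR]; simp [prodW, pm, w2, mul_assoc])
  have k0 := key (f2 [false, true, true, false, false, true] (by decide) (by decide))
    (M := (X * Y).trace • (X * Y) - (X * Y) * (Y * X)) (C := X * Y - Y * X)
    (by rw [← diffB0 hSS hRR]; simp [prodW, pm, w2, mul_assoc])
  have k3 := key (f2 [true, false, false, true, true, false] (by decide) (by decide))
    (M := (X * Y).trace • (X * Y) - (X * Y) * (Y * X)
      + (1 - (2 - ((X * Y) * (Y * X)).trace)) • (1 : Mat)) (C := X * Y - Y * X)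
    (by rw [← diffB3 hSS hRR hSRS hRSR]; simp [prodW, pm, w2, mul_assoc])
  have ht : (X * Y).trace ≠ 0 := by
    intro h
    rw [h] at k1
    simp at k1
  generalize hs : X.trace ^ 2 + Y.trace ^ 2 - X.trace * Y.trace * (X * Y).trace = s at *
  generalize htt : (X * Y).trace = t at *
  have hs0 : 0 < s := by
    by_contra hs0
    push Not at hs0
    rw [i1] at m1
    rw [i2] at m2
    generalize (X * Y - Y * X) *ᵥ β = g at *
    simp only [Matrix.vecMul_sub, Matrix.vecMul_smul, Matrix.sub_vecMul, sub_dotProduct,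
      smul_dotProduct, smul_eq_mul, Matrix.vecMul_one, neg_mul] at m1 m2 m4
    generalize hNX : (α ᵥ* X) ⬝ᵥ g = NX at *
    generalize hNB : Y.trace * α ⬝ᵥ g - (α ᵥ* Y) ⬝ᵥ g = NB at *
    generalize X.trace = a at *
    generalize Y.trace = b at *
    have e : -(a * b * t) * s * (-(b * NB)) + (a * b) ^ 2 * ((b * t - a) * NX - b * NB)
        + b ^ 2 * (b ^ 2 - s) * ((a * t - b) * NB - a * NX) = 0 := by
      rw [← hs]; ring
    have hab : a * b * t = a ^ 2 + b ^ 2 - s := by rw [← hs]; ring
    have ha2 : 0 < a ^ 2 := by positivity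
    have hb2 : 0 < b ^ 2 := by positivity
    have q1 : 0 ≤ -(a * b * t) * s * (-(b * NB)) := by
      rw [hab]
      have : 0 ≤ (a ^ 2 + b ^ 2 - s) * (-s) := mul_nonneg (by linarith) (by linarith)
      have := mul_nonneg this m4.le
      linarith
    have q2 : 0 < (a * b) ^ 2 * ((b * t - a) * NX - b * NB) := by
      have : 0 < (a * b) ^ 2 := by positivity
      exact mul_pos this m1
    have q3 : 0 < b ^ 2 * (b ^ 2 - s) * ((a * t - b) * NB - a * NX) :=
      mul_pos (mul_pos hb2 (by linarith)) m2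
    linarith
  have hk := four_le hSd hRd htt tR hp hs0
  have e1 : X.trace ^ 2 + Y.trace ^ 2 + t ^ 2 - X.trace * Y.trace * t = t ^ 2 + s := by
    rw [← hs]; ring
  refine ⟨by rw [e1]; exact hk, ?_⟩
  by_contra hlt
  push Not at hlt
  rcases lt_or_ge s 2 with hs2 | hs2
  · exact Pplus hSd hRd htt tR hp hs0 hs2 hlt m0 m1 m2 m3
  · refine Pminus hSd hRd htt tR hp ?_ (by linarith) hlt k1 k2 k0 ?_
    · nlinarith [sq_nonneg t]
    · rw [hp] at k3
      have : (1 - (2 - (2 - s))) = 1 - s := by ring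
      rw [this] at k3
      exact k3

end Pool.Agent.Helper84.GPFA
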