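import Pool.Agent.Helper84.Clock

/-!
# The construction

Given a computable family `U` of upward closed sets of strings, we construct a computable `B` such
that for each `r` either some initial segment of `B` is in `U r`, or the clocked process of level
`r + 1` started at a suitable string never leaves `B`, and at clock `n` it stands at a string
above which there is no string of length at most `n` in `U r`.
-/

namespace Pool.Agent.Helper84

open Encodable
open Nat.Partrec (Code)
open Nat.Partrec.Code (evaln evaln_mono evaln_sound evaln_complete)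

/-- The initial segment of `B` of length `n`. -/
def pre (B : ℕ → Bool) (n : ℕ) : List Bool := (List.range n).map B

@[simp] theorem length_pre (B : ℕ → Bool) (n : ℕ) : (pre B n).length = n := by simp [pre]

theorem pre_succ (B : ℕ → Bool) (n : ℕ) : pre B (n + 1) = pre B n ++ [B n] := by
  simp [pre, List.range_succ]

theorem pre_prefix (B : ℕ → Bool) {m n : ℕ} (h : m ≤ n) : pre B m <+: pre B n := by
  obtain ⟨k, rfl⟩ := Nat.exists_eq_add_of_le h
  induction k with
  | zero => exact List.prefix_rfl
  | succ k ih =>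
    rw [← Nat.add_assoc, pre_succ]
    exact (ih (Nat.le_add_right _ _)).trans (List.prefix_append _ _)

theorem pre_take (B : ℕ → Bool) {m n : ℕ} (h : m ≤ n) : (pre B n).take m = pre B m := by
  have := List.prefix_iff_eq_take.1 (pre_prefix B h)
  rw [length_pre] at this
  exact this.symm

theorem prefix_getElem? {σ τ : List Bool} (h : σ <+: τ) {i : ℕ} (hi : i < σ.length) :
    σ[i]? = τ[i]? := by
  obtain ⟨l, rfl⟩ := h
  exact (List.getElem?_append_left hi).symm

theorem getElem?_pre (B : ℕ → Bool) (n i : ℕ) :
    (pre B n)[i]? = if i < n then some (B i) else none := by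
  by_cases h : i < n <;> simp [pre, h]

section clock

variable (u : Code)

theorem cnt_zero : cnt u 0 = 0 := rfl

theorem st_succ (n : ℕ) : st u (n + 1) =
    bif known u (n + 1) (st u n).2 then ((st u n).1 + 1, n + 1) else st u n := rfl

theorem cnt_le_succ (n : ℕ) : cnt u n ≤ cnt u (n + 1) ∧ cnt u (n + 1) ≤ cnt u n + 1 := by
  unfold cnt
  rw [st_succ]
  cases known u (n + 1) (st u n).2 <;> simp

theorem cnt_mono {m n : ℕ} (h : m ≤ n) : cnt u m ≤ cnt u n :=
  monotone_nat_of_le_succ (fun n => (cnt_le_succ u n).1) h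

theorem cnt_le (n : ℕ) : cnt u n ≤ n := by
  induction n with
  | zero => simp [cnt_zero]
  | succ n ih => exact (cnt_le_succ u n).2.trans (by omega)

theorem lt_of_cnt_lt {m n : ℕ} (h : cnt u m < cnt u n) : m < n := by
  by_contra hc
  exact absurd (cnt_mono u (not_lt.1 hc)) (by omega)

theorem qry_mono {n n' r : ℕ} {τ : List Bool} {v : ℕ} (h : n ≤ n') (hv : qry u n r τ = some v) :
    qry u n' r τ = some v := evaln_mono h hv

theorem known_mono {n n' e e' : ℕ} (hn : n ≤ n') (he : e' ≤ e) (h : known u n e = true) :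
    known u n' e' = true := by
  simp only [known, List.all_eq_true, List.mem_range, mem_allStr] at h ⊢
  intro r hr τ hτ
  have := h r (by omega) τ (hτ.trans he)
  rw [Option.isSome_iff_exists] at this ⊢
  obtain ⟨v, hv⟩ := this
  exact ⟨v, qry_mono u hn hv⟩

theorem known_spec {n e r : ℕ} {τ : List Bool} (h : known u n e = true) (hr : r ≤ e)
    (hτ : τ.length ≤ e) : ∃ v, qry u n r τ = some v := by
  simp only [known, List.all_eq_true, List.mem_range, mem_allStr] at h
  exact Option.isSome_iff_exists.1 (h r (by omega) τ hτ)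

/-- Invariants of the clock. -/
theorem clock_inv (n : ℕ) : (∀ l, cnt u l < cnt u n → l < (st u n).2) ∧
    (∀ l, cnt u l + 1 < cnt u n → known u n l = true) := by
  induction n with
  | zero => simp [cnt_zero]
  | succ n ih =>
    obtain ⟨ih1, ih2⟩ := ih
    by_cases h : known u (n + 1) (st u n).2 = true
    · have hst : st u (n + 1) = ((st u n).1 + 1, n + 1) := by rw [st_succ, h]; rfl
      have hc : cnt u (n + 1) = cnt u n + 1 := by unfold cnt; rw [hst]
      constructor
      · intro l hl
        rw [hst]
        exact lt_of_cnt_lt u hl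
      · intro l hl
        rw [hc] at hl
        exact known_mono u le_rfl (ih1 l (by omega)).le h
    · have hst : st u (n + 1) = st u n := by
        rw [st_succ]; simp only [Bool.not_eq_true] at h; rw [h]; rfl
      have hc : cnt u (n + 1) = cnt u n := by unfold cnt; rw [hst]
      constructor
      · intro l hl
        rw [hst]
        rw [hc] at hl
        exact ih1 l hl
      · intro l hl
        rw [hc] at hl
        exact known_mono u (Nat.le_succ n) le_rfl (ih2 l hl)

theorem known_of_cnt {l n : ℕ} (h : cnt u l + 1 < cnt u n) : known u n l = true :=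
  (clock_inv u n).2 l h

end clock

section construction

variable {u : Code} {U : ℕ → List Bool → Bool}

/-- `u` is a code for `U`. -/
def IsCode (u : Code) (U : ℕ → List Bool → Bool) : Prop :=
  ∀ r τ, encode (U r τ) ∈ u.eval (encode (r, τ))

theorem qry_eq (hu : IsCode u U) {n r : ℕ} {τ : List Bool} {v : ℕ} (h : qry u n r τ = some v) :
    v = encode (U r τ) :=
  Part.mem_unique (evaln_sound h) (hu r τ)

theorem exists_qry (hu : IsCode u U) (r : ℕ) (τ : List Bool) :
    ∃ n, qry u n r τ = some (encode (U r τ)) :=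
  evaln_complete.1 (hu r τ)

theorem exists_known (hu : IsCode u U) (e : ℕ) : ∃ n, known u n e = true := by
  have key : ∀ L : List (ℕ × List Bool), ∃ n, ∀ p ∈ L, (qry u n p.1 p.2).isSome = true := by
    intro L
    induction L with
    | nil => exact ⟨0, by simp⟩
    | cons p L ih =>
      obtain ⟨n, hn⟩ := ih
      obtain ⟨m, hm⟩ := exists_qry hu p.1 p.2
      refine ⟨max n m, ?_⟩
      intro q hq
      rcases List.mem_cons.1 hq with rfl | hq
      · rw [qry_mono u (le_max_right n m) hm]; rfl
      · obtain ⟨v, hv⟩ := Option.isSome_iff_exists.1 (hn q hq)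
        rw [qry_mono u (le_max_left n m) hv]; rfl
  obtain ⟨n, hn⟩ := key ((List.range (e + 1)).flatMap fun r => (allStr e).map fun τ => (r, τ))
  refine ⟨n, ?_⟩
  simp only [known, List.all_eq_true]
  intro r hr τ hτ
  refine hn (r, τ) ?_
  rw [List.mem_flatMap]
  exact ⟨r, hr, List.mem_map.2 ⟨τ, hτ, rfl⟩⟩

theorem exists_cnt_gt (hu : IsCode u U) (m : ℕ) : ∃ n, m < cnt u n := by
  induction m with
  | zero =>
    obtain ⟨n, hn⟩ := exists_known hu 0
    by_contra hc
    push Not at hc
    have h0 : ∀ k, st u k = (0, 0) := by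
      intro k
      induction k with
      | zero => rfl
      | succ k ih =>
        rw [st_succ, ih]
        have h1 := hc (k + 1)
        unfold cnt at h1
        rw [st_succ, ih] at h1
        cases hk : known u (k + 1) (0, 0).2 with
        | false => rfl
        | true => rw [hk] at h1; simp at h1
    have h1 := hc (n + 1)
    unfold cnt at h1
    rw [st_succ, h0 n, known_mono u (Nat.le_succ n) le_rfl hn] at h1
    simp at h1
  | succ m ih =>
    obtain ⟨n, hn⟩ := ih
    obtain ⟨k, hk⟩ := exists_known hu (st u n).2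
    by_contra hc
    push Not at hc
    -- the clock does not tick after `n`
    have h0 : ∀ j, st u (n + j) = st u n := by
      intro j
      induction j with
      | zero => rfl
      | succ j ih =>
        rw [← Nat.add_assoc, st_succ, ih]
        have h1 := hc (n + j + 1)
        unfold cnt at h1 hn
        rw [st_succ, ih] at h1
        cases hk : known u (n + j + 1) (st u n).2 with
        | false => rfl
        | true => rw [hk] at h1; simp at h1; omega
    have h1 := hc (n + k + 1)
    unfold cnt at h1 hn
    rw [st_succ, h0 k, known_mono u (by omega) le_rfl hk] at h1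
    simp at h1
    omega

/-- Requirement `r` wants `τ` at `σ`. -/
def Cnd (u : Code) (U : ℕ → List Bool → Bool) (σ : List Bool) (r : ℕ) (τ : List Bool) : Prop :=
  σ <+: τ ∧ σ.length < τ.length ∧ cnt u τ.length + r ≤ 2 * σ.length ∧ U r τ = true ∧
    U r σ = false

theorem cand_iff (hu : IsCode u U) {n r r0 : ℕ} {σ τ : List Bool}
    (hn : 2 * σ.length + 1 < cnt u n + r0) (h0 : r0 ≤ r) (hr : r ≤ σ.length) :
    cand u n σ r τ = true ↔ Cnd u U σ r τ := by
  have key : σ.length < τ.length → cnt u τ.length + r ≤ 2 * σ.length →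
      (qry u n r τ = some (encode (U r τ)) ∧ qry u n r σ = some (encode (U r σ))) := by
    intro h1 h2
    have hk : known u n τ.length = true := known_of_cnt u (by omega)
    obtain ⟨v, hv⟩ := known_spec u hk (r := r) (τ := τ) (by omega) le_rfl
    obtain ⟨w, hw⟩ := known_spec u hk (r := r) (τ := σ) (by omega) h1.le
    rw [hv, hw, qry_eq hu hv, qry_eq hu hw]
    exact ⟨rfl, rfl⟩
  unfold cand Cnd
  simp only [Bool.and_eq_true, decide_eq_true_eq]
  constructor
  · rintro ⟨h1, h2, h3, h4, h5⟩
    obtain ⟨k1, k2⟩ := key h2 h3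
    refine ⟨?_, h2, h3, ?_, ?_⟩
    · rw [List.prefix_iff_eq_take]; exact h1.symm
    · rw [k1] at h4
      cases hU : U r τ
      · rw [hU] at h4; simp at h4
      · rfl
    · rw [k2] at h5
      cases hU : U r σ
      · rfl
      · rw [hU] at h5; simp at h5
  · rintro ⟨h1, h2, h3, h4, h5⟩
    obtain ⟨k1, k2⟩ := key h2 h3
    refine ⟨(List.prefix_iff_eq_take.1 h1).symm, h2, h3, ?_, ?_⟩
    · rw [k1, h4]; rfl
    · rw [k2, h5]; rfl

theorem length_lt_of_cnd {n r r0 : ℕ} {σ τ : List Bool}
    (hn : 2 * σ.length + 1 < cnt u n + r0) (h0 : r0 ≤ r) (h : Cnd u U σ r τ) : τ.length < n := by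
  apply lt_of_cnt_lt u
  have := h.2.2.1
  omega

theorem pick_stable (hu : IsCode u U) {n n' r r0 : ℕ} {σ : List Bool} (hnn : n ≤ n')
    (hn : 2 * σ.length + 1 < cnt u n + r0) (h0 : r0 ≤ r) (hr : r ≤ σ.length) :
    pick u n σ r = pick u n' σ r := by
  have hn' : 2 * σ.length + 1 < cnt u n' + r0 := by
    have := cnt_mono u hnn; omega
  unfold pick
  obtain ⟨L, hL⟩ := allStr_prefix hnn
  rw [← hL, List.find?_append]
  have e1 : ∀ τ, cand u n σ r τ = cand u n' σ r τ := fun τ => by
    rw [Bool.eq_iff_iff, cand_iff hu hn h0 hr, cand_iff hu hn' h0 hr]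
  have e2 : cand u n σ r = cand u n' σ r := funext e1
  rw [e2]
  cases hf : (allStr n).find? (cand u n' σ r) with
  | some τ => simp
  | none =>
    simp only [Option.none_or]
    symm
    rw [List.find?_eq_none]
    intro τ hτ hc
    have hc' := (cand_iff hu hn' h0 hr).1 hc
    have hlt := length_lt_of_cnd hn h0 hc'
    rw [List.find?_eq_none] at hf
    exact hf τ (mem_allStr.2 hlt.le) hc

theorem nextn_stable (hu : IsCode u U) {n n' r0 : ℕ} {σ : List Bool} (hnn : n ≤ n')
    (hn : 2 * σ.length + 1 < cnt u n + r0) : nextn u n r0 σ = nextn u n' r0 σ := by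
  unfold nextn
  congr 1
  have : ∀ L : List ℕ, (∀ r ∈ L, r ≤ σ.length) →
      L.findSome? (fun r' => bif decide (r0 ≤ r') then pick u n σ r' else none) =
      L.findSome? (fun r' => bif decide (r0 ≤ r') then pick u n' σ r' else none) := by
    intro L
    induction L with
    | nil => intro _; rfl
    | cons r L ih =>
      intro hL
      rw [List.findSome?_cons, List.findSome?_cons, ih (fun r hr => hL r (List.mem_cons_of_mem _ hr))]
      by_cases h : r0 ≤ r
      · simp only [h, decide_true, cond_true]
        rw [pick_stable hu hnn hn h (hL r List.mem_cons_self)]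
      · simp only [h, decide_false, cond_false]
  exact this _ (fun r hr => by have := List.mem_range.1 hr; omega)

/-- A time at which the clock has passed `2 |σ| + 1`. -/
noncomputable def gd (hu : IsCode u U) (σ : List Bool) : ℕ :=
  (exists_cnt_gt hu (2 * σ.length + 1)).choose

theorem gd_spec (hu : IsCode u U) (σ : List Bool) : 2 * σ.length + 1 < cnt u (gd hu σ) :=
  (exists_cnt_gt hu (2 * σ.length + 1)).choose_spec

/-- The successor of `σ` in the process of level `r`. -/
noncomputable def nx (hu : IsCode u U) (r : ℕ) (σ : List Bool) : List Bool :=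
  nextn u (gd hu σ) r σ

theorem nextn_eq_nx (hu : IsCode u U) {n r : ℕ} {σ : List Bool}
    (hn : 2 * σ.length + 1 < cnt u n + r) : nextn u n r σ = nx hu r σ := by
  have h1 := gd_spec hu σ
  unfold nx
  rcases le_total n (gd hu σ) with h | h
  · exact nextn_stable hu h hn
  · exact (nextn_stable hu h (by omega)).symm

theorem nx_spec (hu : IsCode u U) (r0 : ℕ) (σ : List Bool) :
    (∃ r τ, r0 ≤ r ∧ r ≤ σ.length ∧ Cnd u U σ r τ ∧ nx hu r0 σ = τ ∧
      ∀ r', r0 ≤ r' → r' < r → ∀ τ', ¬ Cnd u U σ r' τ') ∨
    (nx hu r0 σ = σ ++ [false] ∧ ∀ r', r0 ≤ r' → r' ≤ σ.length → ∀ τ', ¬ Cnd u U σ r' τ') := by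
  have h1 := gd_spec hu σ
  have hpick : ∀ r, r ≤ σ.length → (∀ τ, pick u (gd hu σ) σ r = some τ → Cnd u U σ r τ) ∧
      (pick u (gd hu σ) σ r = none → ∀ τ, ¬ Cnd u U σ r τ) := by
    intro r hr
    have hn : 2 * σ.length + 1 < cnt u (gd hu σ) + 0 := by omega
    constructor
    · intro τ hτ
      exact (cand_iff hu hn (Nat.zero_le r) hr).1 (List.find?_some hτ)
    · intro hnone τ hc
      unfold pick at hnone
      rw [List.find?_eq_none] at hnone
      exact hnone τ (mem_allStr.2 (length_lt_of_cnd hn (Nat.zero_le r) hc).le)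
        ((cand_iff hu hn (Nat.zero_le r) hr).2 hc)
  have key : ∀ m, m ≤ σ.length + 1 →
      (∃ r τ, r0 ≤ r ∧ r < m ∧ Cnd u U σ r τ ∧
        (List.range m).findSome? (fun r' => bif decide (r0 ≤ r') then pick u (gd hu σ) σ r'
          else none) = some τ ∧
        ∀ r', r0 ≤ r' → r' < r → ∀ τ', ¬ Cnd u U σ r' τ') ∨
      ((List.range m).findSome? (fun r' => bif decide (r0 ≤ r') then pick u (gd hu σ) σ r'
          else none) = none ∧ ∀ r', r0 ≤ r' → r' < m → ∀ τ', ¬ Cnd u U σ r' τ') := by
    intro m
    induction m with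
    | zero => intro _; right; exact ⟨rfl, fun r' _ h => absurd h (by omega)⟩
    | succ m ih =>
      intro hm
      rw [List.range_succ, List.findSome?_append]
      rcases ih (by omega) with ⟨r, τ, h1, h2, h3, h4, h5⟩ | ⟨h1, h2⟩
      · left
        exact ⟨r, τ, h1, by omega, h3, by rw [h4]; rfl, h5⟩
      · rw [h1, Option.none_or]
        by_cases hr0 : r0 ≤ m
        · simp only [List.findSome?_cons, List.findSome?_nil, hr0, decide_true, cond_true]
          cases hp : pick u (gd hu σ) σ m with
          | some τ =>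
            left
            exact ⟨m, τ, hr0, by omega, (hpick m (by omega)).1 τ hp, rfl, h2⟩
          | none =>
            right
            refine ⟨rfl, fun r' h3 h4 τ' => ?_⟩
            rcases Nat.lt_succ_iff_lt_or_eq.1 h4 with h5 | rfl
            · exact h2 r' h3 h5 τ'
            · exact (hpick _ (by omega)).2 hp τ'
        · right
          simp only [List.findSome?_cons, List.findSome?_nil, hr0, decide_false, cond_false]
          refine ⟨trivial, fun r' h3 h4 τ' => ?_⟩
          exact absurd h3 (by omega)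
  unfold nx nextn
  rcases key (σ.length + 1) le_rfl with ⟨r, τ, h1, h2, h3, h4, h5⟩ | ⟨h1, h2⟩
  · left
    exact ⟨r, τ, h1, by omega, h3, by rw [h4]; rfl, h5⟩
  · right
    exact ⟨by rw [h1]; rfl, fun r' h3 h4 => h2 r' h3 (by omega)⟩

/-- If no requirement below `r1` wants anything, the levels `r0` and `r1` agree. -/
theorem nx_eq (hu : IsCode u U) {r0 r1 : ℕ} {σ : List Bool} (h01 : r0 ≤ r1)
    (hno : ∀ r, r0 ≤ r → r < r1 → ∀ τ, ¬ Cnd u U σ r τ) : nx hu r0 σ = nx hu r1 σ := by
  have h1 := gd_spec hu σ
  have hn : 2 * σ.length + 1 < cnt u (gd hu σ) + 0 := by omega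
  unfold nx nextn
  congr 1
  have : ∀ L : List ℕ, (∀ r ∈ L, r ≤ σ.length) →
      L.findSome? (fun r' => bif decide (r0 ≤ r') then pick u (gd hu σ) σ r' else none) =
      L.findSome? (fun r' => bif decide (r1 ≤ r') then pick u (gd hu σ) σ r' else none) := by
    intro L
    induction L with
    | nil => intro _; rfl
    | cons r L ih =>
      intro hL
      rw [List.findSome?_cons, List.findSome?_cons, ih (fun r hr => hL r (List.mem_cons_of_mem _ hr))]
      by_cases h : r1 ≤ r
      · have h' : r0 ≤ r := h01.trans h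
        simp only [h, h', decide_true, cond_true]
      · by_cases h' : r0 ≤ r
        · simp only [h, h', decide_true, decide_false, cond_true, cond_false]
          have : pick u (gd hu σ) σ r = none := by
            unfold pick
            rw [List.find?_eq_none]
            intro τ _ hc
            exact hno r h' (not_le.1 h) τ
              ((cand_iff hu hn (Nat.zero_le r) (hL r List.mem_cons_self)).1 hc)
          rw [this]
        · simp only [h, h', decide_false, cond_false]
  exact this _ (fun r hr => by have := List.mem_range.1 hr; omega)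

theorem nx_prefix (hu : IsCode u U) (r : ℕ) (σ : List Bool) :
    σ <+: nx hu r σ ∧ σ.length < (nx hu r σ).length := by
  rcases nx_spec hu r σ with ⟨r', τ, _, _, h3, h4, _⟩ | ⟨h1, _⟩
  · rw [h4]; exact ⟨h3.1, h3.2.1⟩
  · rw [h1]; exact ⟨List.prefix_append _ _, by simp⟩

/-- The sequence of strings of the construction. -/
noncomputable def sq (hu : IsCode u U) : ℕ → List Bool
  | 0 => []
  | s + 1 => nx hu 0 (sq hu s)

theorem sq_prefix (hu : IsCode u U) {s t : ℕ} (h : s ≤ t) : sq hu s <+: sq hu t := by
  obtain ⟨k, rfl⟩ := Nat.exists_eq_add_of_le h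
  induction k with
  | zero => exact List.prefix_rfl
  | succ k ih => exact (ih (Nat.le_add_right _ _)).trans (nx_prefix hu 0 _).1

theorem le_length_sq (hu : IsCode u U) (s : ℕ) : s ≤ (sq hu s).length := by
  induction s with
  | zero => exact Nat.zero_le _
  | succ s ih => exact Nat.succ_le_of_lt (ih.trans_lt (nx_prefix hu 0 _).2)

theorem add_le_length_sq (hu : IsCode u U) (s k : ℕ) :
    (sq hu s).length + k ≤ (sq hu (s + k)).length := by
  induction k with
  | zero => exact le_rfl
  | succ k ih =>
    have := (nx_prefix hu 0 (sq hu (s + k))).2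
    change _ ≤ (nx hu 0 (sq hu (s + k))).length
    omega

/-- The set constructed. -/
noncomputable def BB (hu : IsCode u U) (n : ℕ) : Bool := (sq hu (n + 1)).getD n false

theorem BB_eq (hu : IsCode u U) {n s : ℕ} (h : n < (sq hu s).length) :
    (sq hu s)[n]? = some (BB hu n) := by
  have h1 : n < (sq hu (n + 1)).length := lt_of_lt_of_le (Nat.lt_succ_self n) (le_length_sq hu _)
  have h2 : (sq hu (n + 1))[n]? = some (BB hu n) := by
    unfold BB
    rw [List.getD_eq_getElem?_getD, List.getElem?_eq_getElem h1]
    rfl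
  rcases le_total s (n + 1) with h' | h'
  · rw [← h2]
    exact (prefix_getElem? (sq_prefix hu h') h)
  · rw [← h2]
    exact (prefix_getElem? (sq_prefix hu h') h1).symm

theorem sq_eq_pre (hu : IsCode u U) (s : ℕ) : sq hu s = pre (BB hu) (sq hu s).length := by
  apply List.ext_getElem?
  intro i
  rw [getElem?_pre]
  by_cases h : i < (sq hu s).length
  · rw [if_pos h, BB_eq hu h]
  · rw [if_neg h, List.getElem?_eq_none (not_lt.1 h)]

/-- Priority argument: each requirement eventually stops wanting anything. -/
theorem eventually_quiet (hmono : ∀ r σ τ, σ <+: τ → U r σ = true → U r τ = true)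
    (hu : IsCode u U) (r : ℕ) :
    ∃ s1, ∀ r', r' ≤ r → ∀ s, s1 ≤ s → ∀ τ, ¬ Cnd u U (sq hu s) r' τ := by
  induction r using Nat.strong_induction_on with
  | _ r ih =>
    have h0 : ∃ s0, ∀ r', r' < r → ∀ s, s0 ≤ s → ∀ τ, ¬ Cnd u U (sq hu s) r' τ := by
      rcases Nat.eq_zero_or_pos r with rfl | hr
      · exact ⟨0, fun r' h => absurd h (Nat.not_lt_zero _)⟩
      · obtain ⟨s0, hs0⟩ := ih (r - 1) (by omega)
        exact ⟨s0, fun r' h => hs0 r' (by omega)⟩
    obtain ⟨s0, hs0⟩ := h0
    by_cases hex : ∃ s, max s0 r ≤ s ∧ ∃ τ, Cnd u U (sq hu s) r τ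
    · obtain ⟨s, hs, τ, hτ⟩ := hex
      have hlen := le_length_sq hu s
      have hU : U r (sq hu (s + 1)) = true := by
        change U r (nx hu 0 (sq hu s)) = true
        rcases nx_spec hu 0 (sq hu s) with ⟨r', τ', h1, h2, h3, h4, h5⟩ | ⟨_, h2⟩
        · have hr' : r' = r := by
            rcases lt_trichotomy r' r with h | h | h
            · exact absurd h3 (hs0 r' h s (by omega) τ')
            · exact h
            · exact absurd hτ (h5 r (Nat.zero_le _) h τ)
          subst hr'
          rw [h4]
          exact h3.2.2.2.1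
        · exact absurd hτ (h2 r (Nat.zero_le _) (by omega) τ)
      refine ⟨s + 1, fun r' hr' t ht τ' hc => ?_⟩
      rcases Nat.lt_or_eq_of_le hr' with h | rfl
      · exact hs0 r' h t (by omega) τ' hc
      · have h1 := hmono _ _ _ (sq_prefix hu ht) hU
        have h2 := hc.2.2.2.2
        rw [h1] at h2
        exact Bool.noConfusion h2
    · push Not at hex
      refine ⟨max s0 r, fun r' hr' t ht τ' hc => ?_⟩
      rcases Nat.lt_or_eq_of_le hr' with h | rfl
      · exact hs0 r' h t (by omega) τ' hc
      · exact hex t ht τ' hc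

theorem K_spec (hu : IsCode u U) {r s1 : ℕ} (hr : r + 1 ≤ s1)
    (hq : ∀ r', r' ≤ r → ∀ s, s1 ≤ s → ∀ τ, ¬ Cnd u U (sq hu s) r' τ) (n : ℕ) :
    ∃ s, s1 ≤ s ∧ K u (r + 1) (sq hu s1) n = sq hu s ∧
      cnt u n + r ≤ 2 * (sq hu s).length := by
  have key : ∀ k, ∃ s, s1 ≤ s ∧ (step u n (r + 1))^[k] (sq hu s1) = sq hu s ∧
      (cnt u n + r ≤ 2 * (sq hu s).length ∨ s = s1 + k) := by
    intro k
    induction k with
    | zero => exact ⟨s1, le_rfl, rfl, Or.inr rfl⟩
    | succ k ih =>
      obtain ⟨s, h1, h2, h3⟩ := ih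
      rw [Function.iterate_succ_apply', h2]
      by_cases hc : 2 * (sq hu s).length + 1 < cnt u n + (r + 1)
      · refine ⟨s + 1, by omega, ?_, ?_⟩
        · unfold step
          rw [decide_eq_true hc, cond_true, nextn_eq_nx hu hc]
          change _ = nx hu 0 (sq hu s)
          exact (nx_eq hu (Nat.zero_le _) (fun r' _ h => hq r' (by omega) s h1)).symm
        · rcases h3 with h3 | h3
          · omega
          · right; omega
      · refine ⟨s, h1, ?_, ?_⟩
        · unfold step
          rw [decide_eq_false hc, cond_false]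
        · left; omega
  obtain ⟨s, h1, h2, h3⟩ := key n
  refine ⟨s, h1, h2, ?_⟩
  rcases h3 with h3 | h3
  · exact h3
  · have := le_length_sq hu s
    have := cnt_le u n
    omega

theorem K_zero_spec (hu : IsCode u U) (n : ℕ) :
    ∃ s, K u 0 [] n = sq hu s ∧ cnt u n ≤ 2 * (sq hu s).length + 1 := by
  have key : ∀ k, ∃ s, (step u n 0)^[k] [] = sq hu s ∧
      (cnt u n ≤ 2 * (sq hu s).length + 1 ∨ s = k) := by
    intro k
    induction k with
    | zero => exact ⟨0, rfl, Or.inr rfl⟩
    | succ k ih =>
      obtain ⟨s, h2, h3⟩ := ih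
      rw [Function.iterate_succ_apply', h2]
      by_cases hc : 2 * (sq hu s).length + 1 < cnt u n + 0
      · refine ⟨s + 1, ?_, ?_⟩
        · unfold step
          rw [decide_eq_true hc, cond_true, nextn_eq_nx hu hc]
          rfl
        · rcases h3 with h3 | h3
          · omega
          · right; omega
      · refine ⟨s, ?_, ?_⟩
        · unfold step
          rw [decide_eq_false hc, cond_false]
        · left; omega
  obtain ⟨s, h2, h3⟩ := key n
  refine ⟨s, h2, ?_⟩
  rcases h3 with h3 | h3
  · exact h3
  · have := le_length_sq hu s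
    have := cnt_le u n
    omega

theorem computable_BB (hu : IsCode u U) : Computable (BB hu) := by
  have hp : Partrec fun i : ℕ => Nat.rfindOpt fun n => (K u 0 [] n)[i]? := by
    refine Partrec.rfindOpt (f := fun i n => (K u 0 [] n)[i]?) ?_
    have : Primrec₂ fun i n => (K u 0 [] n)[i]? :=
      (Primrec.list_getElem?.comp (primrec_K (Primrec.const u) (Primrec.const 0)
        (Primrec.const []) Primrec.snd) Primrec.fst).to₂
    exact this.to_comp
  refine Partrec.of_eq_tot hp ?_
  intro i
  have h1 : ∃ n, ((K u 0 [] n)[i]?).isSome = true := by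
    obtain ⟨n, hn⟩ := exists_cnt_gt hu (2 * i + 1)
    obtain ⟨s, h2, h3⟩ := K_zero_spec hu n
    refine ⟨n, ?_⟩
    rw [h2, BB_eq hu (by omega)]
    rfl
  have h2 : (Nat.rfindOpt fun n => (K u 0 [] n)[i]?).Dom := by
    rw [Nat.rfindOpt_dom]
    obtain ⟨n, hn⟩ := h1
    obtain ⟨b, hb⟩ := Option.isSome_iff_exists.1 hn
    exact ⟨n, b, hb⟩
  obtain ⟨n, hn⟩ := Nat.rfindOpt_spec (Part.get_mem h2)
  obtain ⟨s, h3, _⟩ := K_zero_spec hu n
  have h4 : BB hu i = (Nat.rfindOpt fun n => (K u 0 [] n)[i]?).get h2 := by
    rw [h3] at hn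
    have hlt : i < (sq hu s).length := by
      by_contra hc
      rw [List.getElem?_eq_none (not_lt.1 hc)] at hn
      exact Option.not_mem_none _ hn
    rw [BB_eq hu hlt] at hn
    exact (Option.mem_some_iff.1 hn)
  rw [h4]
  exact Part.get_mem h2

/-- The main theorem on the construction. -/
theorem BB_spec (hmono : ∀ r σ τ, σ <+: τ → U r σ = true → U r τ = true)
    (hu : IsCode u U) (r : ℕ) (hr : ∀ n, U r (pre (BB hu) n) = false) :
    (∃ z, ∀ n, (∃ m, K u (r + 1) z n = pre (BB hu) m) ∧
      ∀ τ, (τ <+: K u (r + 1) z n ∨ K u (r + 1) z n <+: τ) → τ.length ≤ n → U r τ = false) ∧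
    (∃ p0, ∀ p, p0 ≤ p → ∀ b, U r (pre (BB hu) p ++ [b]) = false) := by
  obtain ⟨s0, hs0⟩ := eventually_quiet hmono hu r
  have hq : ∀ r', r' ≤ r → ∀ s, max s0 (r + 1) ≤ s → ∀ τ, ¬ Cnd u U (sq hu s) r' τ :=
    fun r' h s hs => hs0 r' h s ((le_max_left _ _).trans hs)
  have hsq : ∀ s, U r (sq hu s) = false := fun s => by rw [sq_eq_pre]; exact hr _
  generalize hs1 : max s0 (r + 1) = s1 at hq
  have hs1' : r + 1 ≤ s1 := hs1 ▸ le_max_right _ _
  constructor
  · refine ⟨sq hu s1, fun n => ?_⟩
    obtain ⟨s, h1, h2, h3⟩ := K_spec hu hs1' hq n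
    rw [h2]
    refine ⟨⟨_, sq_eq_pre hu s⟩, fun τ hτ hn => ?_⟩
    by_contra hU
    rw [Bool.not_eq_false] at hU
    rcases hτ with hτ | hτ
    · have := hmono _ _ _ hτ hU
      rw [hsq] at this
      exact Bool.noConfusion this
    · have hle := hτ.length_le
      rcases Nat.lt_or_eq_of_le hle with hlt | heq
      · refine hq r le_rfl s h1 τ ⟨hτ, hlt, ?_, hU, hsq s⟩
        have := cnt_mono u hn
        omega
      · have := hτ.eq_of_length heq
        rw [← this, hsq] at hU
        exact Bool.noConfusion hU
  · refine ⟨(sq hu s1).length, fun p hp b => ?_⟩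
    -- find `s` with `|sq s| ≤ p < |sq (s+1)|`
    have hex : ∃ k, p < (sq hu (s1 + k)).length :=
      ⟨p + 1, by have := add_le_length_sq hu s1 (p + 1); omega⟩
    classical
    have hk0 : Nat.find hex ≠ 0 := by
      intro h0
      have := Nat.find_spec hex
      rw [h0] at this
      simp at this
      omega
    obtain ⟨k, hk⟩ := Nat.exists_eq_succ_of_ne_zero hk0
    have hlt : p < (sq hu (s1 + (k + 1))).length := by
      have := Nat.find_spec hex
      rw [hk] at this
      exact this
    have hge : (sq hu (s1 + k)).length ≤ p := by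
      have := Nat.find_min hex (m := k) (by omega)
      omega
    by_contra hU
    rw [Bool.not_eq_false] at hU
    have hpre : sq hu (s1 + k) <+: pre (BB hu) p ++ [b] := by
      rw [sq_eq_pre]
      exact (pre_prefix _ hge).trans (List.prefix_append _ _)
    refine hq r le_rfl (s1 + k) (by omega) _ ⟨hpre, ?_, ?_, hU, hsq _⟩
    · simp; omega
    · rw [List.length_append, length_pre, List.length_singleton]
      change p < (nx hu 0 (sq hu (s1 + k))).length at hlt
      rcases nx_spec hu 0 (sq hu (s1 + k)) with ⟨r', τ', h1, h2, h3, h4, h5⟩ | ⟨h1, _⟩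
      · rw [h4] at hlt
        have hr' : r < r' := by
          by_contra hc
          exact hq r' (not_lt.1 hc) (s1 + k) (by omega) τ' h3
        have h6 := cnt_mono u (show p + 1 ≤ τ'.length by omega)
        have h7 := h3.2.2.1
        omega
      · rw [h1, List.length_append, List.length_singleton] at hlt
        have h8 := cnt_le u (p + 1)
        have h9 := le_length_sq hu (s1 + k)
        omega

end construction

/-- **Core theorem.** For every computable family of upward closed sets of strings there is a
computable `B` such that for each `r`, if no initial segment of `B` is in `U r`, then the clocked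
process of level `r + 1` started at some string `z` stays on `B` and at clock `n` no string
comparable with its position and of length at most `n` is in `U r`; moreover no one-bit variation
of a late initial segment of `B` is in `U r`. -/
theorem core {U : ℕ → List Bool → Bool} (hU : Computable₂ U)
    (hmono : ∀ r σ τ, σ <+: τ → U r σ = true → U r τ = true) :
    ∃ (u : Code) (B : ℕ → Bool), Computable B ∧ ∀ r, (∀ n, U r (pre B n) = false) →
      (∃ z, ∀ n, (∃ m, K u (r + 1) z n = pre B m) ∧
        ∀ τ, (τ <+: K u (r + 1) z n ∨ K u (r + 1) z n <+: τ) → τ.length ≤ n → U r τ = false) ∧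
      (∃ p0, ∀ p, p0 ≤ p → ∀ b, U r (pre B p ++ [b]) = false) := by
  have h1 : Partrec fun p : ℕ × List Bool => (Part.some (U p.1 p.2) : Part Bool) := hU
  obtain ⟨u, hu⟩ := Nat.Partrec.Code.exists_code.1 h1
  have hu' : IsCode u U := by
    intro r τ
    rw [hu]
    simp
  exact ⟨u, BB hu', computable_BB hu', fun r hr => BB_spec hmono hu' r hr⟩

end Pool.Agent.Helper84
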