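import Pool.Agent.Helper84.Blum

/-!
# The non-helping theorem
-/

namespace Pool.Agent.Helper84

open Encodable
open Nat.Partrec (Code)

section D

variable (fφ : List Bool → ℕ → Option ℕ)

/-- Comparability of strings. -/
def comparable (σ τ : List Bool) : Bool :=
  decide (τ.take σ.length = σ) || decide (σ.take τ.length = τ)

theorem comparable_iff {σ τ : List Bool} : comparable σ τ = true ↔ (σ <+: τ ∨ τ <+: σ) := by
  unfold comparable
  rw [Bool.or_eq_true, decide_eq_true_eq, decide_eq_true_eq, List.prefix_iff_eq_take,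
    List.prefix_iff_eq_take, eq_comm, @eq_comm _ τ]

/-- The clocked simulation: search all strings of length at most `n` comparable with the string
reached by the clocked process. -/
def DD (q : Code × ℕ × List Bool) (x n : ℕ) : Option ℕ :=
  (allStr n).findSome? fun τ =>
    bif decide (x ≤ τ.length) && comparable τ (K q.1 (2 * q.2.1 + 1) q.2.2 n) then
      fφ τ (Nat.pair q.2.1 x) else none

/-- The clocked simulation with coded parameters. -/
def DN (d x n : ℕ) : Option ℕ := (decode (α := Code × ℕ × List Bool) d).bind fun q => DD fφ q x n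

variable {fφ}

theorem primrec_DN' (hf : Primrec₂ fφ) : Primrec fun p : ℕ × ℕ × ℕ => DN fφ p.1 p.2.1 p.2.2 := by
  unfold DN
  refine Primrec.option_bind (Primrec.decode.comp Primrec.fst) ?_
  unfold DD
  refine Primrec.to₂ (f := fun w : (ℕ × ℕ × ℕ) × (Code × ℕ × List Bool) =>
    (allStr w.1.2.2).findSome? fun τ =>
      bif decide (w.1.2.1 ≤ τ.length) &&
        comparable τ (K w.2.1 (2 * w.2.2.1 + 1) w.2.2.2 w.1.2.2) then
        fφ τ (Nat.pair w.2.2.1 w.1.2.1) else none) ?_
  have hn : Primrec fun w : (ℕ × ℕ × ℕ) × (Code × ℕ × List Bool) => w.1.2.2 :=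
    Primrec.snd.comp (Primrec.snd.comp Primrec.fst)
  have hx : Primrec fun w : (ℕ × ℕ × ℕ) × (Code × ℕ × List Bool) => w.1.2.1 :=
    Primrec.fst.comp (Primrec.snd.comp Primrec.fst)
  have hu : Primrec fun w : (ℕ × ℕ × ℕ) × (Code × ℕ × List Bool) => w.2.1 :=
    Primrec.fst.comp Primrec.snd
  have hi : Primrec fun w : (ℕ × ℕ × ℕ) × (Code × ℕ × List Bool) => w.2.2.1 :=
    Primrec.fst.comp (Primrec.snd.comp Primrec.snd)
  have hz : Primrec fun w : (ℕ × ℕ × ℕ) × (Code × ℕ × List Bool) => w.2.2.2 :=
    Primrec.snd.comp (Primrec.snd.comp Primrec.snd)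
  refine primrec_findSome (primrec_allStr.comp hn) ?_
  refine Primrec.to₂ (f := fun v : ((ℕ × ℕ × ℕ) × (Code × ℕ × List Bool)) × List Bool =>
      bif decide (v.1.1.2.1 ≤ v.2.length) &&
        comparable v.2 (K v.1.2.1 (2 * v.1.2.2.1 + 1) v.1.2.2.2 v.1.1.2.2) then
        fφ v.2 (Nat.pair v.1.2.2.1 v.1.1.2.1) else none) ?_
  have hl : Primrec fun v : ((ℕ × ℕ × ℕ) × (Code × ℕ × List Bool)) × List Bool => v.2.length :=
    Primrec.list_length.comp Primrec.snd
  have hK : Primrec fun v : ((ℕ × ℕ × ℕ) × (Code × ℕ × List Bool)) × List Bool =>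
      K v.1.2.1 (2 * v.1.2.2.1 + 1) v.1.2.2.2 v.1.1.2.2 :=
    primrec_K (hu.comp Primrec.fst) (Primrec.nat_double_succ.comp (hi.comp Primrec.fst))
      (hz.comp Primrec.fst) (hn.comp Primrec.fst)
  refine Primrec.cond (Primrec.and.comp (Primrec.nat_le.decide.comp (hx.comp Primrec.fst) hl) ?_)
    (hf.comp Primrec.snd (Primrec₂.natPair.comp (hi.comp Primrec.fst) (hx.comp Primrec.fst)))
    (Primrec.const none)
  unfold comparable
  exact Primrec.or.comp
    (Primrec.eq.decide.comp (Primrec.list_take.comp hl hK) Primrec.snd)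
    (Primrec.eq.decide.comp (Primrec.list_take.comp (Primrec.list_length.comp hK) Primrec.snd) hK)

attribute [local irreducible] DN in
theorem primrec_DN (hf : Primrec₂ fφ) {α : Type*} [Primcodable α] {d x n : α → ℕ}
    (hd : Primrec d) (hx : Primrec x) (hn : Primrec n) :
    Primrec fun a => DN fφ (d a) (x a) (n a) :=
  (primrec_DN' hf).comp (hd.pair (hx.pair hn))

attribute [local irreducible] DN in
theorem partrec_DN (hf : Primrec₂ fφ) :
    Partrec fun p : ℕ => Nat.rfindOpt (fun n => DN fφ p.unpair.1 p.unpair.2 n) := by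
  have h : Primrec₂ fun (p : ℕ) (n : ℕ) => DN fφ (Nat.unpair p).1 (Nat.unpair p).2 n :=
    Primrec.to₂ (f := fun q : ℕ × ℕ => DN fφ (Nat.unpair q.1).1 (Nat.unpair q.1).2 q.2)
      (primrec_DN hf (Primrec.fst.comp (Primrec.unpair.comp Primrec.fst))
        (Primrec.snd.comp (Primrec.unpair.comp Primrec.fst)) Primrec.snd)
  exact Partrec.rfindOpt h.to_comp

end D

/-- Decision of `y ∈ Φ i ∅ x`. -/
theorem exists_decide (M : RelBlumMeasure) {fD : List Bool → ℕ → Option ℕ}
    (hD : Approx (fun X p =>
      chi {q : ℕ | q.unpair.2.unpair.2 ∈ M.Φ q.unpair.1 X q.unpair.2.unpair.1} p) fD) :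
    ∃ dec : ℕ × ℕ × ℕ → Bool, Computable dec ∧
      ∀ i x y, dec (i, x, y) = true ↔ y ∈ M.Φ i ∅ x := by
  have he : bits (∅ : Set ℕ) = fun _ => false := by funext n; simp [bits]
  have hpre : Primrec fun n : ℕ => pre (fun _ => false) n :=
    Primrec.list_map Primrec.list_range (Primrec.const false).to₂
  have hq : Primrec₂ fun (q : ℕ × ℕ × ℕ) (n : ℕ) =>
      fD (pre (fun _ => false) n) (Nat.pair q.1 (Nat.pair q.2.1 q.2.2)) :=
    (hD.prim.comp (hpre.comp Primrec.snd) (Primrec₂.natPair.comp (Primrec.fst.comp Primrec.fst)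
      (Primrec₂.natPair.comp (Primrec.fst.comp (Primrec.snd.comp Primrec.fst))
        (Primrec.snd.comp (Primrec.snd.comp Primrec.fst))))).to₂
  obtain ⟨f, hf, hf'⟩ := exists_computable_find (P := fun (q : ℕ × ℕ × ℕ) (n : ℕ) =>
      (fD (pre (fun _ => false) n) (Nat.pair q.1 (Nat.pair q.2.1 q.2.2))).isSome)
    (Primrec.option_isSome.comp hq).to_comp (by
      rintro ⟨i, x, y⟩
      have hmem : chi {q : ℕ | q.unpair.2.unpair.2 ∈ M.Φ q.unpair.1 ∅ q.unpair.2.unpair.1}
          (Nat.pair i (Nat.pair x y)) ∈ (fun (X : Set ℕ) (p : ℕ) =>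
            (chi {q : ℕ | q.unpair.2.unpair.2 ∈ M.Φ q.unpair.1 X q.unpair.2.unpair.1} p :
              Part ℕ)) ∅ (Nat.pair i (Nat.pair x y)) := Part.mem_some _
      obtain ⟨n, hn⟩ := hD.spec.1 hmem
      rw [he] at hn
      exact ⟨n, by simp only [hn]; rfl⟩)
  refine ⟨fun q => decide (fD (pre (fun _ => false) (f q))
    (Nat.pair q.1 (Nat.pair q.2.1 q.2.2)) = some 1), ?_, ?_⟩
  · exact Primrec.eq.decide.to_comp.comp (hq.to_comp.comp Computable.id hf)
      (Computable.const (some 1))
  · intro i x y
    obtain ⟨v, hv⟩ := Option.isSome_iff_exists.1 (hf' (i, x, y)).1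
    simp only at hv
    simp only [hv, decide_eq_true_eq, Option.some_inj]
    have h1 := hD.spec.2 ⟨_, by rw [he]; exact hv⟩
    have h2 : v = chi {q : ℕ | q.unpair.2.unpair.2 ∈ M.Φ q.unpair.1 ∅ q.unpair.2.unpair.1}
        (Nat.pair i (Nat.pair x y)) := Part.mem_some_iff.1 h1
    rw [h2]
    by_cases hy : y ∈ M.Φ i ∅ x <;> simp [chi, hy]

attribute [local irreducible] DN DD K allStr strs in
/-- **Non-helping theorem.** -/
theorem nonhelping (M : RelBlumMeasure) :
    ∃ g : ℕ → ℕ → ℕ, Computable₂ g ∧
      ∀ A : Set ℕ, ComputablePred (fun n => n ∈ A) →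
      ∀ t' : ℕ → ℕ, Computable t' →
        ∃ B : Set ℕ, ComputablePred (fun n => n ∈ B) ∧ CompAE M ∅ B t' ∧
          ∀ t : ℕ → ℕ, CompIO M ∅ A (fun x => g x (t x)) → CompIO M B A t := by
  obtain ⟨fφ, hφ⟩ := exists_approx M.universal
  obtain ⟨fD, hD⟩ := exists_approx M.decidable_graph
  obtain ⟨N, hN, hNm, hNs⟩ := exists_bound M hφ hD
  obtain ⟨dec, hdec, hdec'⟩ := exists_decide M hD
  -- translation of the simulations into the enumeration
  have hFrec : RecFunctional fun _ p => Nat.rfindOpt (fun n => DN fφ p.unpair.1 p.unpair.2 n) :=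
    RecFunctional.of_partrec (Partrec.nat_iff.1 (partrec_DN hφ.prim))
  obtain ⟨s, hs, hs'⟩ := M.acceptable _ hFrec
  simp only [Nat.unpair_pair] at hs'
  -- the overhead function
  let idx : ℕ → ℕ := fun d =>
    ((decode (α := Code × ℕ × List Bool) d).map fun q => q.2.1).getD 0
  have hidx : Primrec idx :=
    Primrec.option_getD.comp (Primrec.option_map Primrec.decode
      (Primrec.fst.comp (Primrec.snd.comp Primrec.snd)).to₂) (Primrec.const 0)
  let bnd : ℕ × ℕ → ℕ → ℕ := fun q d => max q.1 (N (idx d, q.1, q.2))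
  have hbnd : Computable₂ bnd := by
    have h1 : Computable fun w : (ℕ × ℕ) × ℕ => w.1.1 := Computable.fst.comp Computable.fst
    have h2 : Computable fun w : (ℕ × ℕ) × ℕ => w.1.2 := Computable.snd.comp Computable.fst
    exact Primrec.nat_max.to_comp.comp h1
      (hN.comp ((hidx.to_comp.comp Computable.snd).pair (h1.pair h2)))
  let Pg : ℕ × ℕ → ℕ → Bool := fun q m =>
    (List.range (q.1 + 1)).all fun d =>
      !((List.range (bnd q d + 1)).any fun n => (DN fφ d q.1 n).isSome) ||
        (List.range (m + 1)).any fun y' => dec (s d, q.1, y')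
  have hPg : Computable₂ Pg := by
    refine computable_all_range (b := fun w : (ℕ × ℕ) × ℕ => w.1.1 + 1)
      (p := fun (w : (ℕ × ℕ) × ℕ) d =>
        !((List.range (bnd w.1 d + 1)).any fun n => (DN fφ d w.1.1 n).isSome) ||
        (List.range (w.2 + 1)).any fun y' => dec (s d, w.1.1, y'))
      (Computable.succ.comp (Computable.fst.comp Computable.fst)) ?_
    refine Primrec.or.to_comp.comp (Primrec.not.to_comp.comp ?_) ?_
    · refine computable_any_range (b := fun v : ((ℕ × ℕ) × ℕ) × ℕ => bnd v.1.1 v.2 + 1)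
        (p := fun (v : ((ℕ × ℕ) × ℕ) × ℕ) n => (DN fφ v.2 v.1.1.1 n).isSome)
        (Computable.succ.comp (hbnd.comp (Computable.fst.comp Computable.fst) Computable.snd)) ?_
      have : Primrec₂ fun (v : ((ℕ × ℕ) × ℕ) × ℕ) (n : ℕ) => (DN fφ v.2 v.1.1.1 n).isSome :=
        Primrec.option_isSome.comp (primrec_DN hφ.prim (Primrec.snd.comp Primrec.fst)
          (Primrec.fst.comp (Primrec.fst.comp (Primrec.fst.comp Primrec.fst))) Primrec.snd)
      exact this.to_comp
    · refine computable_any_range (b := fun v : ((ℕ × ℕ) × ℕ) × ℕ => v.1.2 + 1)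
        (p := fun (v : ((ℕ × ℕ) × ℕ) × ℕ) y' => dec (s v.2, v.1.1.1, y'))
        (Computable.succ.comp (Computable.snd.comp Computable.fst)) ?_
      exact hdec.comp ((hs.comp (Computable.snd.comp Computable.fst)).pair
        ((Computable.fst.comp (Computable.fst.comp (Computable.fst.comp Computable.fst))).pair
          Computable.snd))
  have hPg_iff : ∀ x y m, Pg (x, y) m = true ↔ ∀ d ≤ x,
      (∃ n ≤ bnd (x, y) d, ∃ v, DN fφ d x n = some v) → ∃ y' ≤ m, y' ∈ M.Φ (s d) ∅ x := by
    intro x y m
    simp only [Pg, List.all_eq_true, List.mem_range, Bool.or_eq_true, Bool.not_eq_true',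
      ← Bool.not_eq_true, List.any_eq_true, Nat.lt_succ_iff, hdec', Option.isSome_iff_exists]
    refine forall_congr' fun d => imp_congr_right fun _ => ?_
    rw [← imp_iff_not_or]
  have hPg_ex : ∀ q, ∃ m, Pg q m = true := by
    rintro ⟨x, y⟩
    have key : ∀ w, ∃ m, ∀ d < w,
        (∃ n ≤ bnd (x, y) d, ∃ v, DN fφ d x n = some v) → ∃ y' ≤ m, y' ∈ M.Φ (s d) ∅ x := by
      intro w
      induction w with
      | zero => exact ⟨0, fun d h => absurd h (Nat.not_lt_zero _)⟩
      | succ w ih =>
        obtain ⟨m, hm⟩ := ih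
        by_cases hw : ∃ n ≤ bnd (x, y) w, ∃ v, DN fφ w x n = some v
        · have hdom : (M.Φ (s w) ∅ x).Dom := by
            rw [M.dom_iff, hs', Nat.rfindOpt_dom]
            obtain ⟨n, _, v, hv⟩ := hw
            exact ⟨n, v, hv⟩
          refine ⟨max m ((M.Φ (s w) ∅ x).get hdom), fun d hd hex => ?_⟩
          rcases Nat.lt_succ_iff_lt_or_eq.1 hd with h | rfl
          · obtain ⟨y', h1, h2⟩ := hm d h hex
            exact ⟨y', h1.trans (le_max_left _ _), h2⟩
          · exact ⟨_, le_max_right _ _, Part.get_mem hdom⟩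
        · refine ⟨m, fun d hd hex => ?_⟩
          rcases Nat.lt_succ_iff_lt_or_eq.1 hd with h | rfl
          · exact hm d h hex
          · exact absurd hex hw
    obtain ⟨m, hm⟩ := key (x + 1)
    exact ⟨m, (hPg_iff x y m).2 fun d hd => hm d (by omega)⟩
  obtain ⟨g, hg, hg'⟩ := exists_computable_find hPg hPg_ex
  have hgspec : ∀ x y d, d ≤ x → (∃ n ≤ bnd (x, y) d, ∃ v, DN fφ d x n = some v) →
      ∃ y' ≤ g (x, y), y' ∈ M.Φ (s d) ∅ x := fun x y => (hPg_iff x y _).1 (hg' (x, y)).1
  have hgmono : ∀ x y y', y ≤ y' → g (x, y) ≤ g (x, y') := by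
    intro x y y' hyy
    by_contra hc
    have h1 := (hg' (x, y)).2 _ (not_le.1 hc)
    have h2 : Pg (x, y) (g (x, y')) = true := by
      rw [hPg_iff]
      intro d hd hex
      refine hgspec x y' d hd ?_
      obtain ⟨n, hn, h3⟩ := hex
      exact ⟨n, hn.trans (max_le_max le_rfl (hNm _ _ _ _ hyy)), h3⟩
    rw [h2] at h1
    exact Bool.noConfusion h1
  refine ⟨fun x y => g (x, y), hg.comp (Computable.fst.pair Computable.snd), ?_⟩
  -- the construction of `B`
  intro A hA t' ht'
  have hAc : Computable (bits A) := by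
    obtain ⟨inst, hA⟩ := hA
    refine hA.of_eq fun n => ?_
    unfold bits
    congr
  let a : ℕ → ℕ := fun x => cond (bits A x) 1 0
  have ha : Computable a :=
    Computable.cond hAc (Computable.const 1) (Computable.const 0)
  have ha' : ∀ x, a x = chi A x := fun x => (chi_eq x).symm
  have hpre0 : Primrec fun n : ℕ => pre (fun _ => false) n :=
    Primrec.list_map Primrec.list_range (Primrec.const false).to₂
  have hempty : bits (∅ : Set ℕ) = fun _ => false := by funext n; simp [bits]
  let h : ℕ → ℕ → Option Bool := fun k p =>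
    bif (List.range (t' p + 1)).any (fun y => dec (k, p, y)) then
      (fφ (pre (fun _ => false) (N (k, p, t' p))) (Nat.pair k p)).map fun v => decide (v = 1)
    else none
  have hh : Computable₂ h := by
    have hk : Computable fun q : ℕ × ℕ => q.1 := Computable.fst
    have hp : Computable fun q : ℕ × ℕ => q.2 := Computable.snd
    have ht : Computable fun q : ℕ × ℕ => t' q.2 := ht'.comp hp
    refine Computable.cond (c := fun q : ℕ × ℕ =>
      (List.range (t' q.2 + 1)).any (fun y => dec (q.1, q.2, y))) ?_ ?_ (Computable.const none)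
    · refine computable_any_range (b := fun q : ℕ × ℕ => t' q.2 + 1)
        (p := fun (q : ℕ × ℕ) y => dec (q.1, q.2, y)) (Computable.succ.comp ht) ?_
      exact hdec.comp ((hk.comp Computable.fst).pair ((hp.comp Computable.fst).pair
        Computable.snd))
    · refine Computable.option_map ?_ ?_
      · exact hφ.prim.to_comp.comp (hpre0.to_comp.comp (hN.comp (hk.pair (hp.pair ht))))
          (Primrec₂.natPair.to_comp.comp hk hp)
      · exact (Primrec.eq.decide.comp Primrec.snd (Primrec.const 1)).to_comp.to₂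
  let U : ℕ → List Bool → Bool := fun r τ =>
    bif decide (r % 2 = 0) then
      (List.range (τ.length + 1)).any fun x => (fφ τ (Nat.pair (r / 2) x)).isSome &&
        !(decide (fφ τ (Nat.pair (r / 2) x) = some (a x)))
    else
      (List.range τ.length).any fun p => (h (r / 2) p).isSome &&
        !(decide (τ[p]? = h (r / 2) p))
  have hUc : Computable₂ U := by
    have hr : Computable fun q : ℕ × List Bool => q.1 / 2 :=
      (Primrec.nat_div.comp Primrec.fst (Primrec.const 2)).to_comp
    refine Computable.cond (c := fun q : ℕ × List Bool => decide (q.1 % 2 = 0)) ?_ ?_ ?_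
    · exact (Primrec.eq.decide.comp (Primrec.nat_mod.comp Primrec.fst (Primrec.const 2))
        (Primrec.const 0)).to_comp
    · refine computable_any_range (b := fun q : ℕ × List Bool => q.2.length + 1)
        (p := fun (q : ℕ × List Bool) x => (fφ q.2 (Nat.pair (q.1 / 2) x)).isSome &&
        !(decide (fφ q.2 (Nat.pair (q.1 / 2) x) = some (a x))))
        (Computable.succ.comp (Computable.list_length.comp Computable.snd)) ?_
      have h1 : Computable fun w : (ℕ × List Bool) × ℕ => fφ w.1.2 (Nat.pair (w.1.1 / 2) w.2) :=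
        hφ.prim.to_comp.comp (Computable.snd.comp Computable.fst)
          (Primrec₂.natPair.to_comp.comp (hr.comp Computable.fst) Computable.snd)
      exact Primrec.and.to_comp.comp (Primrec.option_isSome.to_comp.comp h1)
        (Primrec.not.to_comp.comp (Primrec.eq.decide.to_comp.comp h1
          (Computable.option_some.comp (ha.comp Computable.snd))))
    · refine computable_any_range (b := fun q : ℕ × List Bool => q.2.length)
        (p := fun (q : ℕ × List Bool) p => (h (q.1 / 2) p).isSome &&
        !(decide (q.2[p]? = h (q.1 / 2) p)))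
        (Computable.list_length.comp Computable.snd) ?_
      have h1 : Computable fun w : (ℕ × List Bool) × ℕ => h (w.1.1 / 2) w.2 :=
        hh.comp (hr.comp Computable.fst) Computable.snd
      have h2 : Computable fun w : (ℕ × List Bool) × ℕ => w.1.2[w.2]? :=
        Computable.list_getElem?.comp (Computable.snd.comp Computable.fst) Computable.snd
      exact Primrec.and.to_comp.comp (Primrec.option_isSome.to_comp.comp h1)
        (Primrec.not.to_comp.comp (Primrec.eq.decide.to_comp.comp h2 h1))
  have hU0 : ∀ i τ, U (2 * i) τ = true ↔ ∃ x ≤ τ.length, ∃ v,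
      fφ τ (Nat.pair i x) = some v ∧ v ≠ chi A x := by
    intro i τ
    have e1 : (2 * i) % 2 = 0 := by omega
    have e2 : (2 * i) / 2 = i := by omega
    simp only [U, e1, e2, decide_true, cond_true, List.any_eq_true, List.mem_range,
      Bool.and_eq_true, Option.isSome_iff_exists, Bool.not_eq_true', decide_eq_false_iff_not,
      Nat.lt_succ_iff, ha']
    constructor
    · rintro ⟨x, hx, ⟨v, hv⟩, hne⟩
      exact ⟨x, hx, v, hv, fun hc => hne (by rw [hv, hc])⟩
    · rintro ⟨x, hx, v, hv, hne⟩
      exact ⟨x, hx, ⟨v, hv⟩, fun hc => hne (Option.some_inj.1 (hv.symm.trans hc))⟩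
  have hU1 : ∀ k τ, U (2 * k + 1) τ = true ↔ ∃ p < τ.length, ∃ b,
      h k p = some b ∧ τ[p]? ≠ some b := by
    intro k τ
    have e1 : (2 * k + 1) % 2 = 0 ↔ False := ⟨fun h => by omega, False.elim⟩
    have e2 : (2 * k + 1) / 2 = k := by omega
    simp only [U, e1, e2, decide_false, cond_false, List.any_eq_true, List.mem_range,
      Bool.and_eq_true, Option.isSome_iff_exists, Bool.not_eq_true', decide_eq_false_iff_not]
    constructor
    · rintro ⟨p, hp, ⟨b, hb⟩, hne⟩
      exact ⟨p, hp, b, hb, fun hc => hne (by rw [hb, hc])⟩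
    · rintro ⟨p, hp, b, hb, hne⟩
      exact ⟨p, hp, ⟨b, hb⟩, fun hc => hne (hc.trans hb)⟩
  have hUmono : ∀ r σ τ, σ <+: τ → U r σ = true → U r τ = true := by
    intro r σ τ hστ
    obtain ⟨k, rfl | rfl⟩ : ∃ k, r = 2 * k ∨ r = 2 * k + 1 := ⟨r / 2, by omega⟩
    · rw [hU0, hU0]
      rintro ⟨x, hx, v, hv, hne⟩
      exact ⟨x, hx.trans hστ.length_le, v, hφ.mono hστ hv, hne⟩
    · rw [hU1, hU1]
      rintro ⟨p, hp, b, hb, hne⟩
      exact ⟨p, lt_of_lt_of_le hp hστ.length_le, b, hb, by rwa [← prefix_getElem? hστ hp]⟩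
  obtain ⟨u, B, hB, hcore⟩ := core hUc hUmono
  have hbB : bits {n | B n = true} = B := bits_setOf B
  refine ⟨{n | B n = true}, ?_, ?_, ?_⟩
  · -- `B` is recursive
    refine ⟨fun n => inferInstanceAs (Decidable (B n = true)), hB.of_eq fun n => ?_⟩
    show B n = decide (B n = true)
    cases B n <;> rfl
  · -- `B` is complex almost everywhere
    intro k hk
    have hval : ∀ p y, y ∈ M.Φ k ∅ p → y ≤ t' p → h k p = some (B p) := by
      intro p y hy hyt
      have h1 : (List.range (t' p + 1)).any (fun y => dec (k, p, y)) = true := by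
        rw [List.any_eq_true]
        exact ⟨y, List.mem_range.2 (by omega), (hdec' k p y).2 hy⟩
      obtain ⟨v, hv⟩ := hNs k p y ∅ hy (N (k, p, t' p)) (hNm _ _ _ _ hyt)
      have hmem := hφ.spec.2 ⟨_, hv⟩
      simp only [Nat.unpair_pair] at hmem
      rw [hk p, Part.mem_some_iff] at hmem
      simp only [h, h1, cond_true]
      rw [← hempty, hv, Option.map_some, hmem, chi_eq, hbB]
      cases B p <;> rfl
    have hval2 : ∀ p b, h k p = some b → b = B p := by
      intro p b hb
      have h1 : (List.range (t' p + 1)).any (fun y => dec (k, p, y)) = true := by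
        by_contra hc
        rw [Bool.not_eq_true] at hc
        simp only [h, hc, cond_false] at hb
        simp at hb
      rw [List.any_eq_true] at h1
      obtain ⟨y, h2, h3⟩ := h1
      have h4 := hval p y ((hdec' k p y).1 h3) (by have := List.mem_range.1 h2; omega)
      rw [h4] at hb
      exact (Option.some_inj.1 hb).symm
    have hno : ∀ n, U (2 * k + 1) (pre B n) = false := by
      intro n
      rw [← Bool.not_eq_true, hU1]
      rintro ⟨p, hp, b, hb, hne⟩
      rw [length_pre] at hp
      rw [getElem?_pre, if_pos hp] at hne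
      exact hne (by rw [hval2 p b hb])
    obtain ⟨_, p0, hp0⟩ := hcore (2 * k + 1) hno
    rw [Filter.eventually_atTop]
    refine ⟨p0, fun p hp => ?_⟩
    have hdom : (M.Φ k ∅ p).Dom := by rw [M.dom_iff, hk p]; trivial
    refine ⟨_, Part.get_mem hdom, ?_⟩
    by_contra hle
    have h1 := hval p _ (Part.get_mem hdom) (not_lt.1 hle)
    have h2 := hp0 p hp (!(B p))
    rw [← Bool.not_eq_true, hU1] at h2
    refine h2 ⟨p, by simp, B p, h1, ?_⟩
    rw [List.getElem?_append_right (by simp)]
    simp
  · -- `B` does not help `A`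
    intro t ht i hi
    by_contra hcon
    rw [Filter.not_frequently] at hcon
    have hno : ∀ n, U (2 * i) (pre B n) = false := by
      intro n
      rw [← Bool.not_eq_true, hU0]
      rintro ⟨x, hx, v, hv, hne⟩
      rw [← hbB] at hv
      have hmem := hφ.spec.2 ⟨_, hv⟩
      simp only [Nat.unpair_pair] at hmem
      rw [hi x, Part.mem_some_iff] at hmem
      exact hne hmem
    obtain ⟨⟨z, hz⟩, _⟩ := hcore (2 * i) hno
    -- the index of the simulation
    have hdN : ∀ x n, DN fφ (encode (u, i, z)) x n = DD fφ (u, i, z) x n := by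
      intro x n
      unfold DN
      rw [encodek]
      rfl
    have hsound : ∀ x n v, DD fφ (u, i, z) x n = some v → v = chi A x := by
      intro x n v hv
      unfold DD at hv
      obtain ⟨τ, hτ, hv⟩ := List.exists_of_findSome?_eq_some hv
      by_cases hc : (decide (x ≤ τ.length) && comparable τ (K u (2 * i + 1) z n)) = true
      · simp only [hc, cond_true] at hv
        rw [Bool.and_eq_true, decide_eq_true_eq, comparable_iff] at hc
        have h1 := (hz n).2 τ hc.2 (mem_allStr.1 hτ)
        by_contra hne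
        rw [← Bool.not_eq_true, hU0] at h1
        exact h1 ⟨x, hc.1, v, hv, hne⟩
      · rw [Bool.not_eq_true] at hc
        simp only [hc, cond_false] at hv
        exact absurd hv (by simp)
    have hcomplete : ∀ x y, y ∈ M.Φ i {n | B n = true} x →
        ∃ v, DD fφ (u, i, z) x (max x (N (i, x, y))) = some v := by
      intro x y hy
      obtain ⟨v, hv⟩ := hNs i x y _ hy (max x (N (i, x, y))) (le_max_right _ _)
      rw [hbB] at hv
      obtain ⟨m, hm⟩ := (hz (max x (N (i, x, y)))).1
      have hcomp : comparable (pre B (max x (N (i, x, y))))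
          (K u (2 * i + 1) z (max x (N (i, x, y)))) = true := by
        rw [comparable_iff, hm]
        rcases le_total (max x (N (i, x, y))) m with h1 | h1
        · exact Or.inl (pre_prefix B h1)
        · exact Or.inr (pre_prefix B h1)
      rw [← Option.isSome_iff_exists]
      unfold DD
      rw [List.findSome?_isSome_iff]
      refine ⟨pre B (max x (N (i, x, y))), mem_allStr.2 (by simp), ?_⟩
      rw [hcomp, length_pre, decide_eq_true (le_max_left x _)]
      simp only [Bool.and_self, cond_true, hv]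
      rfl
    have hΦdom : ∀ x, (M.Φ i {n | B n = true} x).Dom := by
      intro x
      rw [M.dom_iff, hi x]
      trivial
    have hcomp : ∀ x, M.φ (s (encode (u, i, z))) ∅ x = Part.some (chi A x) := by
      intro x
      rw [hs']
      have hd : (Nat.rfindOpt fun n => DN fφ (encode (u, i, z)) x n).Dom := by
        rw [Nat.rfindOpt_dom]
        obtain ⟨v, hv⟩ := hcomplete x _ (Part.get_mem (hΦdom x))
        exact ⟨_, v, by rw [hdN]; exact hv⟩
      obtain ⟨n, hn⟩ := Nat.rfindOpt_spec (Part.get_mem hd)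
      rw [hdN] at hn
      have h1 := hsound x n _ hn
      rw [← h1]
      exact (Part.some_get hd).symm
    have hfr := ht _ hcomp
    obtain ⟨x, hx1, hx2, hx3⟩ := (hfr.and_eventually
      (hcon.and (Filter.eventually_ge_atTop (encode (u, i, z))))).exists
    obtain ⟨y, hy, hlt⟩ := hx1
    have hy0 := Part.get_mem (hΦdom x)
    have hle : (M.Φ i {n | B n = true} x).get (hΦdom x) ≤ t x := by
      by_contra hc
      exact hx2 ⟨_, hy0, not_le.1 hc⟩
    obtain ⟨v, hv⟩ := hcomplete x _ hy0
    obtain ⟨y', hy1, hy2⟩ := hgspec x _ _ hx3 ⟨max x (N (i, x, (M.Φ i {n | B n = true} x).get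
      (hΦdom x))), by simp only [bnd, idx, encodek, Option.map_some, Option.getD_some]; exact le_rfl,
      v, by rw [hdN]; exact hv⟩
    have h1 := hgmono x _ _ hle
    have h2 := Part.mem_unique hy hy2
    simp only at hlt
    omega

end Pool.Agent.Helper84
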