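import Mathlib.Computability.Halting
import Mathlib.Order.Filter.AtTopBot.Basic

/-!
# Relative Blum measures: definitions

* `chi A` is the characteristic function of `A`.
* `RecFunctional F`: the functional `F` from sets `X` and arguments `n` to values is computed by
  one oracle program, uniformly in the oracle `X`.
* `RelBlumMeasure`: a relative Blum measure (acceptable enumeration of the functions computable
  with an oracle, uniformly in the oracle, with a cost function satisfying the relativised Blum
  axioms).
* `CompIO M X A t`, `CompAE M X A t`: infinitely-often and almost-everywhere lower bounds for the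
  complexity of deciding `A` with oracle `X`.

The file `Pool.Agent.Helper84.Sanity` proves that for a fixed oracle the sections of the
`RecFunctional`s are exactly the functions recursive in that oracle in the sense of Mathlib, that
a `RelBlumMeasure` enumerates exactly these, and that a `RelBlumMeasure` exists.
-/

namespace Pool.Agent.Helper84

open Classical in
/-- The characteristic function of a set of natural numbers. -/
noncomputable def chi (A : Set ℕ) (n : ℕ) : ℕ := if n ∈ A then 1 else 0

/-- Partial recursive functionals: `F X` is a partial function on the natural numbers computed by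
one oracle program from the oracle `X`, for all sets `X` at once.  The clauses are those of
Mathlib's `Nat.RecursiveIn`, with the oracle set `X` as a parameter. -/
inductive RecFunctional : (Set ℕ → ℕ →. ℕ) → Prop
  | zero : RecFunctional fun _ _ => 0
  | succ : RecFunctional fun _ => Nat.succ
  | left : RecFunctional fun _ n => (Nat.unpair n).1
  | right : RecFunctional fun _ n => (Nat.unpair n).2
  | oracle : RecFunctional fun X n => chi X n
  | pair {F G : Set ℕ → ℕ →. ℕ} (hF : RecFunctional F) (hG : RecFunctional G) :
      RecFunctional fun X n => (Nat.pair <$> F X n <*> G X n)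
  | comp {F G : Set ℕ → ℕ →. ℕ} (hF : RecFunctional F) (hG : RecFunctional G) :
      RecFunctional fun X n => G X n >>= F X
  | prec {F G : Set ℕ → ℕ →. ℕ} (hF : RecFunctional F) (hG : RecFunctional G) :
      RecFunctional fun X p =>
        let (a, n) := Nat.unpair p
        n.rec (F X a) fun y IH => do
          let i ← IH
          G X (Nat.pair a (Nat.pair y i))
  | rfind {F : Set ℕ → ℕ →. ℕ} (hF : RecFunctional F) :
      RecFunctional fun X a =>
        Nat.rfind fun n => (fun m => m = 0) <$> F X (Nat.pair a n)

/-- A relative Blum measure. -/
structure RelBlumMeasure where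
  /-- `φ i X` is the `i`-th partial function computable with oracle `X`. -/
  φ : ℕ → Set ℕ → ℕ →. ℕ
  /-- `Φ i X x` is the cost of the computation of `φ i X` on `x`. -/
  Φ : ℕ → Set ℕ → ℕ →. ℕ
  /-- The enumeration is partial recursive in the oracle, uniformly in index and argument. -/
  universal : RecFunctional fun X p => φ p.unpair.1 X p.unpair.2
  /-- The enumeration is acceptable: every uniformly enumerated family of partial functions
  computable with an oracle can be translated effectively into it (s-m-n). -/
  acceptable : ∀ F : Set ℕ → ℕ →. ℕ, RecFunctional F →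
    ∃ s : ℕ → ℕ, Computable s ∧ ∀ i X x, φ (s i) X x = F X (Nat.pair i x)
  /-- `Φ i X x` is defined iff `φ i X x` is. -/
  dom_iff : ∀ i X x, (Φ i X x).Dom ↔ (φ i X x).Dom
  /-- The predicate `Φ i X x = y` is decidable relative to `X`, uniformly in `i, x, y`. -/
  decidable_graph : RecFunctional fun X p =>
    chi {q : ℕ | q.unpair.2.unpair.2 ∈ Φ q.unpair.1 X q.unpair.2.unpair.1} p

/-- `Φ^X-Comp(A) >_io t`: every program deciding `A` with oracle `X` has cost exceeding `t` at
infinitely many arguments. -/
def CompIO (M : RelBlumMeasure) (X A : Set ℕ) (t : ℕ → ℕ) : Prop :=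
  ∀ i, (∀ x, M.φ i X x = Part.some (chi A x)) → ∃ᶠ x in Filter.atTop, ∃ y ∈ M.Φ i X x, t x < y

/-- `Φ^X-Comp(A) >_ae t`: every program deciding `A` with oracle `X` has cost exceeding `t` at
all but finitely many arguments. -/
def CompAE (M : RelBlumMeasure) (X A : Set ℕ) (t : ℕ → ℕ) : Prop :=
  ∀ i, (∀ x, M.φ i X x = Part.some (chi A x)) → ∀ᶠ x in Filter.atTop, ∃ y ∈ M.Φ i X x, t x < y

end Pool.Agent.Helper84
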