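import Pool.Agent.Helper84.Generic
import Pool.Agent.Helper84.RelBlumDefs

/-!
# Finite approximations of the recursive functionals
-/

namespace Pool.Agent.Helper84

open Encodable Primrec

theorem RecFunctional.of_partrec {f : ℕ →. ℕ} (hf : Nat.Partrec f) :
    RecFunctional fun _ => f := by
  induction hf with
  | zero => exact .zero
  | succ => exact .succ
  | left => exact .left
  | right => exact .right
  | pair _ _ ih1 ih2 => exact .pair ih1 ih2
  | comp _ _ ih1 ih2 => exact .comp ih1 ih2
  | prec _ _ ih1 ih2 => exact .prec ih1 ih2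
  | rfind _ ih => exact .rfind ih

open Classical in
/-- The characteristic function as a Boolean sequence. -/
noncomputable def bits (X : Set ℕ) (n : ℕ) : Bool := decide (n ∈ X)

/-- `f` is a primitive recursive monotone approximation of the functional `F` on finite strings. -/
structure Approx (F : Set ℕ → ℕ →. ℕ) (f : List Bool → ℕ → Option ℕ) : Prop where
  prim : Primrec₂ f
  mono : ∀ {σ τ x v}, σ <+: τ → f σ x = some v → f τ x = some v
  spec : ∀ {X x v}, v ∈ F X x ↔ ∃ n, f (pre (bits X) n) x = some v

theorem Approx.spec_mono {F f} (h : Approx F f) {X : Set ℕ} {x v n m : ℕ} (hnm : n ≤ m)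
    (hv : f (pre (bits X) n) x = some v) : f (pre (bits X) m) x = some v :=
  h.mono (pre_prefix _ hnm) hv

section cases

variable {F G : Set ℕ → ℕ →. ℕ} {f g : List Bool → ℕ → Option ℕ}

theorem approx_total {h : ℕ → ℕ} (hp : Primrec h) :
    Approx (fun _ n => (h n : Part ℕ)) (fun _ n => some (h n)) where
  prim := (Primrec.option_some.comp (hp.comp snd)).to₂
  mono := fun _ h => h
  spec := by intro X x v; simp [eq_comm]

theorem approx_oracle : Approx (fun X n => (chi X n : Part ℕ))
    (fun σ n => (σ[n]?).map fun b => cond b 1 0) where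
  prim := by
    refine option_map (f := fun p : List Bool × ℕ => (p.1)[p.2]?) list_getElem? ?_
    exact (Primrec.cond snd (Primrec.const 1) (Primrec.const 0)).to₂
  mono := by
    intro σ τ x v h hv
    have hx : x < σ.length := by
      by_contra hc
      rw [List.getElem?_eq_none (not_lt.1 hc)] at hv
      simp at hv
    rw [← prefix_getElem? h hx]
    exact hv
  spec := by
    intro X x v
    have key : ∀ n, ((pre (bits X) n)[x]?).map (fun b => cond b 1 0) =
        if x < n then some (chi X x) else none := by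
      intro n
      rw [getElem?_pre]
      by_cases h : x < n
      · rw [if_pos h, if_pos h]
        by_cases hx : x ∈ X <;> simp [bits, chi, hx]
      · rw [if_neg h, if_neg h]; rfl
    simp only [key]
    constructor
    · intro h
      have h' : v = chi X x := by simpa using h
      exact ⟨x + 1, by simp [h']⟩
    · rintro ⟨n, hn⟩
      by_cases h : x < n
      · rw [if_pos h, Option.some_inj] at hn
        simp [hn]
      · rw [if_neg h] at hn; simp at hn

theorem approx_pair (hf : Approx F f) (hg : Approx G g) :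
    Approx (fun X n => (Nat.pair <$> F X n <*> G X n))
      (fun σ n => (f σ n).bind fun a => (g σ n).map fun b => Nat.pair a b) where
  prim := by
    refine option_bind (f := fun p : List Bool × ℕ => f p.1 p.2) hf.prim ?_
    refine Primrec.to₂ (f := fun q : (List Bool × ℕ) × ℕ =>
      (g q.1.1 q.1.2).map fun b => Nat.pair q.2 b) ?_
    refine option_map (hg.prim.comp (fst.comp fst) (snd.comp fst)) ?_
    exact (Primrec₂.natPair.comp (snd.comp fst) snd).to₂
  mono := by
    intro σ τ x v h hv
    rw [Option.bind_eq_some_iff] at hv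
    obtain ⟨a, ha, hv⟩ := hv
    rw [Option.map_eq_some_iff] at hv
    obtain ⟨b, hb, rfl⟩ := hv
    rw [hf.mono h ha, Option.bind_some, hg.mono h hb, Option.map_some]
  spec := by
    intro X x v
    have e : v ∈ (Nat.pair <$> F X x <*> G X x) ↔ ∃ a ∈ F X x, ∃ b ∈ G X x, Nat.pair a b = v := by
      simp [Seq.seq]
    rw [e]
    constructor
    · rintro ⟨a, ha, b, hb, rfl⟩
      obtain ⟨n, hn⟩ := hf.spec.1 ha
      obtain ⟨m, hm⟩ := hg.spec.1 hb
      refine ⟨max n m, ?_⟩
      rw [hf.spec_mono (le_max_left n m) hn, Option.bind_some,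
        hg.spec_mono (le_max_right n m) hm, Option.map_some]
    · rintro ⟨n, hn⟩
      rw [Option.bind_eq_some_iff] at hn
      obtain ⟨a, ha, hn⟩ := hn
      rw [Option.map_eq_some_iff] at hn
      obtain ⟨b, hb, rfl⟩ := hn
      exact ⟨a, hf.spec.2 ⟨n, ha⟩, b, hg.spec.2 ⟨n, hb⟩, rfl⟩

theorem approx_comp (hf : Approx F f) (hg : Approx G g) :
    Approx (fun X n => G X n >>= F X) (fun σ n => (g σ n).bind fun a => f σ a) where
  prim := by
    refine option_bind (f := fun p : List Bool × ℕ => g p.1 p.2) hg.prim ?_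
    exact (hf.prim.comp (fst.comp fst) snd).to₂
  mono := by
    intro σ τ x v h hv
    rw [Option.bind_eq_some_iff] at hv
    obtain ⟨a, ha, hv⟩ := hv
    rw [hg.mono h ha, Option.bind_some, hf.mono h hv]
  spec := by
    intro X x v
    have e : v ∈ (G X x >>= F X) ↔ ∃ a ∈ G X x, v ∈ F X a := Part.mem_bind_iff
    rw [e]
    constructor
    · rintro ⟨a, ha, hv⟩
      obtain ⟨n, hn⟩ := hg.spec.1 ha
      obtain ⟨m, hm⟩ := hf.spec.1 hv
      refine ⟨max n m, ?_⟩
      rw [hg.spec_mono (le_max_left n m) hn, Option.bind_some,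
        hf.spec_mono (le_max_right n m) hm]
    · rintro ⟨n, hn⟩
      rw [Option.bind_eq_some_iff] at hn
      obtain ⟨a, ha, hn⟩ := hn
      exact ⟨a, hg.spec.2 ⟨n, ha⟩, hf.spec.2 ⟨n, hn⟩⟩

/-- Approximation of a primitive recursion. -/
def precA (f g : List Bool → ℕ → Option ℕ) (σ : List Bool) (a n : ℕ) : Option ℕ :=
  Nat.rec (f σ a) (fun y IH => IH.bind fun i => g σ (Nat.pair a (Nat.pair y i))) n

theorem approx_prec (hf : Approx F f) (hg : Approx G g) :
    Approx (fun X p =>
        let (a, n) := Nat.unpair p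
        n.rec (F X a) fun y IH => do
          let i ← IH
          G X (Nat.pair a (Nat.pair y i)))
      (fun σ p => precA f g σ p.unpair.1 p.unpair.2) where
  prim := by
    unfold precA
    have h1 : Primrec fun p : List Bool × ℕ => p.2.unpair.1 := fst.comp (Primrec.unpair.comp snd)
    have h2 : Primrec fun p : List Bool × ℕ => p.2.unpair.2 := snd.comp (Primrec.unpair.comp snd)
    refine nat_rec' (f := fun p : List Bool × ℕ => p.2.unpair.2)
      (g := fun p : List Bool × ℕ => f p.1 p.2.unpair.1)
      (h := fun (p : List Bool × ℕ) (q : ℕ × Option ℕ) =>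
        q.2.bind fun i => g p.1 (Nat.pair p.2.unpair.1 (Nat.pair q.1 i))) h2
      (hf.prim.comp fst h1) ?_
    refine Primrec.to₂ (f := fun q : (List Bool × ℕ) × (ℕ × Option ℕ) =>
        q.2.2.bind fun i => g q.1.1 (Nat.pair q.1.2.unpair.1 (Nat.pair q.2.1 i))) ?_
    refine option_bind (snd.comp snd) ?_
    refine Primrec.to₂ (f := fun q : ((List Bool × ℕ) × (ℕ × Option ℕ)) × ℕ =>
        g q.1.1.1 (Nat.pair q.1.1.2.unpair.1 (Nat.pair q.1.2.1 q.2))) ?_
    refine hg.prim.comp (fst.comp (fst.comp fst)) ?_
    exact Primrec₂.natPair.comp (h1.comp (fst.comp fst))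
      (Primrec₂.natPair.comp (fst.comp (snd.comp fst)) snd)
  mono := by
    intro σ τ x v h hv
    revert hv
    generalize x.unpair.1 = a
    generalize x.unpair.2 = n
    intro hv
    unfold precA at hv ⊢
    induction n generalizing v with
    | zero => exact hf.mono h hv
    | succ n ih =>
      simp only at hv ⊢
      rw [Option.bind_eq_some_iff] at hv
      obtain ⟨i, hi, hv⟩ := hv
      rw [ih hi, Option.bind_some, hg.mono h hv]
  spec := by
    intro X x v
    simp only
    generalize x.unpair.1 = a
    generalize x.unpair.2 = n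
    unfold precA
    induction n generalizing v with
    | zero => exact hf.spec
    | succ n ih =>
      simp only
      constructor
      · intro h
        rw [Part.bind_eq_bind, Part.mem_bind_iff] at h
        obtain ⟨i, hi, hv⟩ := h
        obtain ⟨k, hk⟩ := (ih (v := i)).1 hi
        obtain ⟨m, hm⟩ := hg.spec.1 hv
        refine ⟨max k m, ?_⟩
        have hk' : (Nat.rec (f (pre (bits X) (max k m)) a) (fun y IH => IH.bind fun i =>
            g (pre (bits X) (max k m)) (Nat.pair a (Nat.pair y i))) n : Option ℕ) = some i := by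
          have hmono : ∀ (l : ℕ) (w : ℕ),
              (Nat.rec (f (pre (bits X) k) a) (fun y IH => IH.bind fun i =>
                g (pre (bits X) k) (Nat.pair a (Nat.pair y i))) l : Option ℕ) = some w →
              (Nat.rec (f (pre (bits X) (max k m)) a) (fun y IH => IH.bind fun i =>
                g (pre (bits X) (max k m)) (Nat.pair a (Nat.pair y i))) l : Option ℕ) = some w := by
            intro l
            induction l with
            | zero => intro w hw; exact hf.spec_mono (le_max_left k m) hw
            | succ l ihl =>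
              intro w hw
              simp only at hw ⊢
              rw [Option.bind_eq_some_iff] at hw
              obtain ⟨j, hj, hw⟩ := hw
              rw [ihl j hj, Option.bind_some, hg.spec_mono (le_max_left k m) hw]
          exact hmono n i hk
        rw [hk', Option.bind_some, hg.spec_mono (le_max_right k m) hm]
      · rintro ⟨k, hk⟩
        rw [Option.bind_eq_some_iff] at hk
        obtain ⟨i, hi, hv⟩ := hk
        rw [Part.bind_eq_bind, Part.mem_bind_iff]
        exact ⟨i, (ih (v := i)).2 ⟨k, hi⟩, hg.spec.2 ⟨k, hv⟩⟩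

/-- Test whether an approximation to a search is finished at `n`. -/
def rfT (f : List Bool → ℕ → Option ℕ) (σ : List Bool) (a n : ℕ) : Bool :=
  decide (f σ (Nat.pair a n) = some 0) && (List.range n).all fun m =>
    (f σ (Nat.pair a m)).isSome && !(decide (f σ (Nat.pair a m) = some 0))

theorem rfT_iff {σ : List Bool} {a n : ℕ} : rfT f σ a n = true ↔
    f σ (Nat.pair a n) = some 0 ∧ ∀ m < n, ∃ k, f σ (Nat.pair a m) = some (k + 1) := by
  unfold rfT
  simp only [Bool.and_eq_true, decide_eq_true_eq, List.all_eq_true, List.mem_range,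
    Bool.not_eq_true', decide_eq_false_iff_not]
  refine and_congr_right fun _ => forall_congr' fun m => imp_congr_right fun _ => ?_
  constructor
  · rintro ⟨h1, h2⟩
    obtain ⟨v, hv⟩ := Option.isSome_iff_exists.1 h1
    rw [hv] at h2 ⊢
    cases v with
    | zero => exact absurd rfl h2
    | succ k => exact ⟨k, rfl⟩
  · rintro ⟨k, hk⟩
    rw [hk]
    exact ⟨rfl, by simp⟩

theorem rfT_unique {σ : List Bool} {a n m : ℕ} (hn : rfT f σ a n = true)
    (hm : rfT f σ a m = true) : n = m := by
  rw [rfT_iff] at hn hm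
  rcases lt_trichotomy n m with h | h | h
  · obtain ⟨k, hk⟩ := hm.2 n h
    rw [hn.1] at hk
    simp at hk
  · exact h
  · obtain ⟨k, hk⟩ := hn.2 m h
    rw [hm.1] at hk
    simp at hk

theorem find_rfT {σ : List Bool} {a v : ℕ} :
    (List.range σ.length).find? (rfT f σ a) = some v ↔ v < σ.length ∧ rfT f σ a v = true := by
  rw [List.find?_range_eq_some]
  constructor
  · rintro ⟨h1, h2, _⟩
    exact ⟨List.mem_range.1 h2, h1⟩
  · rintro ⟨h1, h2⟩
    refine ⟨h2, List.mem_range.2 h1, fun j hj => ?_⟩
    cases hc : rfT f σ a j with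
    | false => rfl
    | true => exact absurd (rfT_unique hc h2) (by omega)

theorem approx_rfind (hf : Approx F f) :
    Approx (fun X a => Nat.rfind fun n => (fun m => m = 0) <$> F X (Nat.pair a n))
      (fun σ a => (List.range σ.length).find? (rfT f σ a)) where
  prim := by
    unfold rfT
    refine primrec_find (f := fun p : List Bool × ℕ => List.range p.1.length)
      (p := fun (p : List Bool × ℕ) n => decide (f p.1 (Nat.pair p.2 n) = some 0) &&
        (List.range n).all fun m => (f p.1 (Nat.pair p.2 m)).isSome &&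
          !(decide (f p.1 (Nat.pair p.2 m) = some 0)))
      (list_range.comp (list_length.comp fst)) ?_
    refine Primrec.to₂ (f := fun q : (List Bool × ℕ) × ℕ =>
        decide (f q.1.1 (Nat.pair q.1.2 q.2) = some 0) &&
        (List.range q.2).all fun m => (f q.1.1 (Nat.pair q.1.2 m)).isSome &&
          !(decide (f q.1.1 (Nat.pair q.1.2 m) = some 0))) ?_
    refine Primrec.and.comp (Primrec.eq.decide.comp (hf.prim.comp (fst.comp fst)
      (Primrec₂.natPair.comp (snd.comp fst) snd)) (Primrec.const (some 0))) ?_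
    refine primrec_list_all (f := fun q : (List Bool × ℕ) × ℕ => List.range q.2)
      (p := fun (q : (List Bool × ℕ) × ℕ) m => (f q.1.1 (Nat.pair q.1.2 m)).isSome &&
          !(decide (f q.1.1 (Nat.pair q.1.2 m) = some 0))) (list_range.comp snd) ?_
    refine Primrec.to₂ (f := fun w : ((List Bool × ℕ) × ℕ) × ℕ =>
        (f w.1.1.1 (Nat.pair w.1.1.2 w.2)).isSome &&
          !(decide (f w.1.1.1 (Nat.pair w.1.1.2 w.2) = some 0))) ?_
    have h := hf.prim.comp (f := f) (g := fun w : ((List Bool × ℕ) × ℕ) × ℕ => w.1.1.1)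
      (h := fun w : ((List Bool × ℕ) × ℕ) × ℕ => Nat.pair w.1.1.2 w.2)
      (fst.comp (fst.comp fst)) (Primrec₂.natPair.comp (snd.comp (fst.comp fst)) snd)
    exact Primrec.and.comp (Primrec.option_isSome.comp h)
      (Primrec.not.comp (Primrec.eq.decide.comp h (Primrec.const (some 0))))
  mono := by
    intro σ τ x v h hv
    rw [find_rfT] at hv ⊢
    refine ⟨lt_of_lt_of_le hv.1 h.length_le, ?_⟩
    have := hv.2
    rw [rfT_iff] at this ⊢
    refine ⟨hf.mono h this.1, fun m hm => ?_⟩
    obtain ⟨k, hk⟩ := this.2 m hm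
    exact ⟨k, hf.mono h hk⟩
  spec := by
    intro X x v
    refine Nat.mem_rfind.trans ?_
    have e1 : ∀ n, true ∈ ((fun m : ℕ => (decide (m = 0) : Bool)) <$> F X (Nat.pair x n) : Part Bool) ↔
        0 ∈ F X (Nat.pair x n) := by
      intro n
      simp
    have e2 : ∀ n, false ∈ ((fun m : ℕ => (decide (m = 0) : Bool)) <$> F X (Nat.pair x n) : Part Bool) ↔
        ∃ k, k + 1 ∈ F X (Nat.pair x n) := by
      intro n
      simp only [Part.map_eq_map, Part.mem_map_iff, decide_eq_false_iff_not]
      constructor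
      · rintro ⟨a, ha, hne⟩
        obtain ⟨k, rfl⟩ := Nat.exists_eq_succ_of_ne_zero hne
        exact ⟨k, ha⟩
      · rintro ⟨k, hk⟩
        exact ⟨k + 1, hk, Nat.succ_ne_zero k⟩
    have e3 : ∀ n, (List.range (pre (bits X) n).length).find? (rfT f (pre (bits X) n) x) = some v ↔
        v < n ∧ f (pre (bits X) n) (Nat.pair x v) = some 0 ∧
          ∀ m < v, ∃ k, f (pre (bits X) n) (Nat.pair x m) = some (k + 1) := by
      intro n
      rw [find_rfT, rfT_iff, length_pre]
    simp only [e3]
    constructor
    · rintro ⟨h1, h2⟩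
      have h1' := hf.spec.1 ((e1 v).1 h1)
      obtain ⟨n1, hn1⟩ := h1'
      have h3 : ∀ w, w ≤ v → ∃ n, ∀ m < w, ∃ k, f (pre (bits X) n) (Nat.pair x m) = some (k + 1) := by
        intro w
        induction w with
        | zero => intro _; exact ⟨0, fun m hm => absurd hm (Nat.not_lt_zero m)⟩
        | succ w ih =>
          intro hw
          obtain ⟨n, hn⟩ := ih (by omega)
          obtain ⟨k, hk⟩ := (e2 w).1 (h2 (show w < v by omega))
          obtain ⟨n', hn'⟩ := hf.spec.1 hk
          refine ⟨max n n', fun m hm => ?_⟩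
          rcases Nat.lt_succ_iff_lt_or_eq.1 hm with h | rfl
          · obtain ⟨j, hj⟩ := hn m h
            exact ⟨j, hf.spec_mono (le_max_left n n') hj⟩
          · exact ⟨k, hf.spec_mono (le_max_right n n') hn'⟩
      obtain ⟨n2, hn2⟩ := h3 v le_rfl
      refine ⟨max (v + 1) (max n1 n2), ?_, ?_, ?_⟩
      · exact lt_of_lt_of_le (Nat.lt_succ_self v) (le_max_left _ _)
      · exact hf.spec_mono ((le_max_left n1 n2).trans (le_max_right _ _)) hn1
      · intro m hm
        obtain ⟨j, hj⟩ := hn2 m hm
        exact ⟨j, hf.spec_mono ((le_max_right n1 n2).trans (le_max_right _ _)) hj⟩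
    · rintro ⟨n, _, h1, h2⟩
      refine ⟨(e1 v).2 (hf.spec.2 ⟨n, h1⟩), fun {m} hm => (e2 m).2 ?_⟩
      obtain ⟨k, hk⟩ := h2 m hm
      exact ⟨k, hf.spec.2 ⟨n, hk⟩⟩

end cases

/-- Every partial recursive functional has a primitive recursive monotone approximation. -/
theorem exists_approx {F : Set ℕ → ℕ →. ℕ} (hF : RecFunctional F) : ∃ f, Approx F f := by
  induction hF with
  | zero => exact ⟨_, approx_total (h := fun _ => 0) (Primrec.const 0)⟩
  | succ => exact ⟨_, approx_total (h := Nat.succ) Primrec.succ⟩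
  | left => exact ⟨_, approx_total (h := fun n => n.unpair.1) (fst.comp Primrec.unpair)⟩
  | right => exact ⟨_, approx_total (h := fun n => n.unpair.2) (snd.comp Primrec.unpair)⟩
  | oracle => exact ⟨_, approx_oracle⟩
  | pair _ _ ih1 ih2 =>
    obtain ⟨f, hf⟩ := ih1
    obtain ⟨g, hg⟩ := ih2
    exact ⟨_, approx_pair hf hg⟩
  | comp _ _ ih1 ih2 =>
    obtain ⟨f, hf⟩ := ih1
    obtain ⟨g, hg⟩ := ih2
    exact ⟨_, approx_comp hf hg⟩
  | prec _ _ ih1 ih2 =>
    obtain ⟨f, hf⟩ := ih1
    obtain ⟨g, hg⟩ := ih2
    exact ⟨_, approx_prec hf hg⟩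
  | rfind _ ih =>
    obtain ⟨f, hf⟩ := ih
    exact ⟨_, approx_rfind hf⟩

end Pool.Agent.Helper84
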