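import Pool.Agent.Helper84.Blum
import Mathlib.Computability.RecursiveIn

/-!
# Sanity checks for the definitions

* `recursiveIn_iff`: for a fixed oracle `X`, the sections `F X` of the recursive functionals are
  exactly the partial functions which are recursive in the characteristic function of `X` in the
  sense of Mathlib;
* `RelBlumMeasure.enumerates`: a relative Blum measure enumerates, for each oracle `X`, exactly
  the partial functions recursive in `X`;
* `exists_relBlumMeasure`: relative Blum measures exist.
-/

namespace Pool.Agent.Helper84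

open Encodable
open Nat.Partrec (Code)
open Nat.Partrec.Code (evaln evaln_sound evaln_complete curry eval_curry)

theorem recursiveIn_iff (X : Set ℕ) (f : ℕ →. ℕ) :
    Nat.RecursiveIn {fun n => Part.some (chi X n)} f ↔ ∃ F, RecFunctional F ∧ F X = f := by
  constructor
  · intro h
    induction h with
    | zero => exact ⟨_, .zero, rfl⟩
    | succ => exact ⟨_, .succ, rfl⟩
    | left => exact ⟨_, .left, rfl⟩
    | right => exact ⟨_, .right, rfl⟩
    | oracle g hg =>
      have hg' : g = fun n => Part.some (chi X n) := hg
      subst hg'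
      exact ⟨_, .oracle, rfl⟩
    | pair _ _ ih1 ih2 =>
      obtain ⟨F, hF, rfl⟩ := ih1
      obtain ⟨G, hG, rfl⟩ := ih2
      exact ⟨_, .pair hF hG, rfl⟩
    | comp _ _ ih1 ih2 =>
      obtain ⟨F, hF, rfl⟩ := ih1
      obtain ⟨G, hG, rfl⟩ := ih2
      exact ⟨_, .comp hF hG, rfl⟩
    | prec _ _ ih1 ih2 =>
      obtain ⟨F, hF, rfl⟩ := ih1
      obtain ⟨G, hG, rfl⟩ := ih2
      exact ⟨_, .prec hF hG, rfl⟩
    | rfind _ ih =>
      obtain ⟨F, hF, rfl⟩ := ih
      exact ⟨_, .rfind hF, rfl⟩
  · rintro ⟨F, hF, rfl⟩
    induction hF with
    | zero => exact .zero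
    | succ => exact .succ
    | left => exact .left
    | right => exact .right
    | oracle => exact .oracle _ rfl
    | pair _ _ ih1 ih2 => exact .pair ih1 ih2
    | comp _ _ ih1 ih2 => exact .comp ih1 ih2
    | prec _ _ ih1 ih2 => exact .prec ih1 ih2
    | rfind _ ih => exact .rfind ih

/-- A total function as a partial one. -/
abbrev tot (f : Set ℕ → ℕ → ℕ) : Set ℕ → ℕ →. ℕ := fun X n => Part.some (f X n)

theorem RecFunctional.of_primrec {f : ℕ → ℕ} (hf : Primrec f) : RecFunctional (tot fun _ => f) :=
  RecFunctional.of_partrec (Partrec.nat_iff.1 hf.to_comp)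

theorem RecFunctional.tot_comp {f : ℕ → ℕ} {g : Set ℕ → ℕ → ℕ} (hf : Primrec f)
    (hg : RecFunctional (tot g)) : RecFunctional (tot fun X n => f (g X n)) := by
  have h := RecFunctional.comp (RecFunctional.of_primrec hf) hg
  have e : (fun (X : Set ℕ) (n : ℕ) => (tot g X n >>= (tot fun _ => f) X : Part ℕ)) =
      tot fun X n => f (g X n) := by
    funext X n
    exact Part.bind_some _ _
  exact e ▸ h

theorem RecFunctional.tot_comp' {f g : Set ℕ → ℕ → ℕ} (hf : RecFunctional (tot f))
    (hg : RecFunctional (tot g)) : RecFunctional (tot fun X n => f X (g X n)) := by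
  have h := RecFunctional.comp hf hg
  have e : (fun (X : Set ℕ) (n : ℕ) => (tot g X n >>= tot f X : Part ℕ)) =
      tot fun X n => f X (g X n) := by
    funext X n
    exact Part.bind_some _ _
  exact e ▸ h

theorem RecFunctional.tot_pair {f g : Set ℕ → ℕ → ℕ} (hf : RecFunctional (tot f))
    (hg : RecFunctional (tot g)) : RecFunctional (tot fun X n => Nat.pair (f X n) (g X n)) := by
  have h := RecFunctional.pair hf hg
  have e : (fun (X : Set ℕ) (n : ℕ) => (Nat.pair <$> tot f X n <*> tot g X n : Part ℕ)) =
      tot fun X n => Nat.pair (f X n) (g X n) := by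
    funext X n
    apply Part.ext
    intro v
    simp [Seq.seq, tot]
  exact e ▸ h

theorem RecFunctional.tot_prec {f : Set ℕ → ℕ → ℕ} {g : Set ℕ → ℕ → ℕ}
    (hf : RecFunctional (tot f)) (hg : RecFunctional (tot g)) :
    RecFunctional (tot fun X p => Nat.rec (f X p.unpair.1)
      (fun y i => g X (Nat.pair p.unpair.1 (Nat.pair y i))) p.unpair.2) := by
  have h := RecFunctional.prec hf hg
  have e : (fun (X : Set ℕ) (p : ℕ) =>
        let (a, n) := Nat.unpair p
        n.rec (tot f X a) fun y IH => do
          let i ← IH
          tot g X (Nat.pair a (Nat.pair y i)) : Set ℕ → ℕ →. ℕ) =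
      tot fun X p => Nat.rec (f X p.unpair.1)
      (fun y i => g X (Nat.pair p.unpair.1 (Nat.pair y i))) p.unpair.2 := by
    funext X p
    simp only [tot]
    generalize p.unpair.1 = a
    generalize p.unpair.2 = n
    induction n with
    | zero => rfl
    | succ n ih =>
      simp only [ih]
      exact Part.bind_some _ _
  exact e ▸ h

/-- The finite initial segments of the oracle. -/
theorem recFunctional_pre : RecFunctional (tot fun X n => encode (pre (bits X) n)) := by
  -- the step function on `⟨a, ⟨y, i⟩⟩`
  have hstep : RecFunctional (tot fun X q =>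
      encode ((decode (α := List Bool) q.unpair.2.unpair.2).getD [] ++
        [decide (chi X q.unpair.2.unpair.1 = 1)])) := by
    have h1 : RecFunctional (tot fun X q =>
        Nat.pair q.unpair.2.unpair.2 (chi X q.unpair.2.unpair.1)) :=
      RecFunctional.tot_pair
        (RecFunctional.of_primrec (f := fun q => q.unpair.2.unpair.2)
          (Primrec.snd.comp (Primrec.unpair.comp (Primrec.snd.comp Primrec.unpair))))
        (RecFunctional.tot_comp' (f := fun X n => chi X n) (g := fun _ q => q.unpair.2.unpair.1)
          .oracle (RecFunctional.of_primrec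
            (Primrec.fst.comp (Primrec.unpair.comp (Primrec.snd.comp Primrec.unpair)))))
    have h2 : Primrec fun w : ℕ => encode ((decode (α := List Bool) w.unpair.1).getD [] ++
        [decide (w.unpair.2 = 1)]) := by
      refine Primrec.encode.comp (Primrec.list_append.comp ?_ ?_)
      · exact Primrec.option_getD.comp (Primrec.decode.comp (Primrec.fst.comp Primrec.unpair))
          (Primrec.const [])
      · exact Primrec.list_cons.comp (Primrec.eq.decide.comp (Primrec.snd.comp Primrec.unpair)
          (Primrec.const 1)) (Primrec.const [])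
    have h3 := RecFunctional.tot_comp h2 h1
    simpa only [Nat.unpair_pair] using h3
  have h := RecFunctional.tot_prec (f := fun _ _ => 0) RecFunctional.zero hstep
  have h' := RecFunctional.tot_comp' h (RecFunctional.of_primrec (f := fun n => Nat.pair 0 n)
    (Primrec₂.natPair.comp (Primrec.const 0) Primrec.id))
  have e : (tot fun X n => Nat.rec 0 (fun y i =>
      encode ((decode (α := List Bool) i).getD [] ++ [decide (chi X y = 1)])) n :
        Set ℕ → ℕ →. ℕ) = tot fun X n => encode (pre (bits X) n) := by
    funext X n
    simp only [tot, Part.some_inj]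
    induction n with
    | zero => rfl
    | succ n ih =>
      simp only
      rw [ih, encodek, Option.getD_some, pre_succ]
      congr 3
      rw [chi_eq]
      cases bits X n <;> rfl
  rw [← e]
  simpa only [Nat.unpair_pair] using h'

/-- The value (as an encoded option) of the code `i` on `(X restricted to l, x)` in `k` steps, at
`⟨⟨i, x⟩, ⟨k, l⟩⟩`. -/
noncomputable def WW (X : Set ℕ) (q : ℕ) : ℕ :=
  encode (evaln q.unpair.2.unpair.1 (Denumerable.ofNat Code q.unpair.1.unpair.1)
    (encode (pre (bits X) q.unpair.2.unpair.2, q.unpair.1.unpair.2)))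

theorem recFunctional_WW : RecFunctional (tot WW) := by
  have h1 : RecFunctional (tot fun X q => Nat.pair q (encode (pre (bits X) q.unpair.2.unpair.2))) :=
    RecFunctional.tot_pair (RecFunctional.of_primrec (f := fun q => q) Primrec.id)
      (RecFunctional.tot_comp' recFunctional_pre (RecFunctional.of_primrec
        (f := fun q => q.unpair.2.unpair.2)
        (Primrec.snd.comp (Primrec.unpair.comp (Primrec.snd.comp Primrec.unpair)))))
  have h2 : Primrec fun w : ℕ => encode (evaln w.unpair.1.unpair.2.unpair.1
      (Denumerable.ofNat Code w.unpair.1.unpair.1.unpair.1)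
      (encode ((decode (α := List Bool) w.unpair.2).getD [], w.unpair.1.unpair.1.unpair.2))) := by
    have hq : Primrec fun w : ℕ => w.unpair.1 := Primrec.fst.comp Primrec.unpair
    have hq1 : Primrec fun w : ℕ => w.unpair.1.unpair.1 := Primrec.fst.comp (Primrec.unpair.comp hq)
    have hq2 : Primrec fun w : ℕ => w.unpair.1.unpair.2 := Primrec.snd.comp (Primrec.unpair.comp hq)
    refine Primrec.encode.comp (Nat.Partrec.Code.primrec_evaln.comp (Primrec.pair
      (Primrec.pair (Primrec.fst.comp (Primrec.unpair.comp hq2))
        ((Primrec.ofNat Code).comp (Primrec.fst.comp (Primrec.unpair.comp hq1)))) ?_))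
    exact Primrec.encode.comp ((Primrec.option_getD.comp
      (Primrec.decode.comp (Primrec.snd.comp Primrec.unpair)) (Primrec.const [])).pair
      (Primrec.snd.comp (Primrec.unpair.comp hq1)))
  have h3 := RecFunctional.tot_comp h2 h1
  simp only [Nat.unpair_pair, encodek, Option.getD_some] at h3
  exact h3

/-- The search for a converging computation. -/
noncomputable def RR (X : Set ℕ) (a : ℕ) : Part ℕ :=
  Nat.rfind fun n => Part.some (decide (1 - WW X (Nat.pair a n) = 0))

theorem recFunctional_RR : RecFunctional fun X a => RR X a := by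
  have h := RecFunctional.rfind (RecFunctional.tot_comp (f := fun w => 1 - w)
    (Primrec.nat_sub.comp (Primrec.const 1) Primrec.id) recFunctional_WW)
  have e : (fun (X : Set ℕ) (a : ℕ) => Nat.rfind fun n =>
      (fun m => m = 0) <$> tot (fun X n => 1 - WW X n) X (Nat.pair a n) : Set ℕ → ℕ →. ℕ) =
      fun X a => RR X a := by
    funext X a
    unfold RR
    congr 1
  exact e ▸ h

theorem mem_RR {X : Set ℕ} {a n : ℕ} : n ∈ RR X a ↔ WW X (Nat.pair a n) ≠ 0 ∧
    ∀ m < n, WW X (Nat.pair a m) = 0 := by
  refine Nat.mem_rfind.trans ?_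
  simp only [Part.mem_some_iff]
  refine and_congr ?_ (forall_congr' fun m => imp_congr_right fun _ => ?_)
  · rw [eq_comm, decide_eq_true_eq]; omega
  · rw [eq_comm, decide_eq_false_iff_not]; omega

/-- A standard relative Blum measure: search over pairs (number of steps, number of oracle bits)
for a converging computation of the `i`-th Turing functional; the cost is the first such pair. -/
noncomputable def stdBlum : RelBlumMeasure where
  φ i X x := (RR X (Nat.pair i x)).bind fun n => Part.some (WW X (Nat.pair (Nat.pair i x) n) - 1)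
  Φ i X x := RR X (Nat.pair i x)
  universal := by
    have h1 : RecFunctional fun X a => (Nat.pair <$> tot (fun _ a => a) X a <*> RR X a) :=
      RecFunctional.pair (RecFunctional.of_primrec Primrec.id) recFunctional_RR
    have h2 : RecFunctional (tot fun X a => WW X a - 1) :=
      RecFunctional.tot_comp (f := fun w => w - 1) Primrec.pred recFunctional_WW
    have h := RecFunctional.comp h2 h1
    have e : (fun (X : Set ℕ) (n : ℕ) =>
        ((Nat.pair <$> tot (fun _ a => a) X n <*> RR X n) >>= tot (fun X a => WW X a - 1) X :
          Part ℕ)) = fun X p => (RR X (Nat.pair p.unpair.1 p.unpair.2)).bind fun n =>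
            Part.some (WW X (Nat.pair (Nat.pair p.unpair.1 p.unpair.2) n) - 1) := by
      funext X p
      rw [Nat.pair_unpair]
      apply Part.ext
      intro v
      simp [Seq.seq, tot]
    exact e ▸ h
  acceptable := by
    intro F hF
    obtain ⟨f, hf⟩ := exists_approx hF
    have hp : Partrec fun w : ℕ × List Bool × ℕ =>
        (Part.ofOption (f w.2.1 (Nat.pair w.1 w.2.2)) : Part ℕ) := by
      have : Computable fun w : ℕ × List Bool × ℕ => f w.2.1 (Nat.pair w.1 w.2.2) :=
        (hf.prim.comp (Primrec.fst.comp Primrec.snd) (Primrec₂.natPair.comp Primrec.fst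
          (Primrec.snd.comp Primrec.snd))).to_comp
      exact this.ofOption
    obtain ⟨c, hc⟩ := Nat.Partrec.Code.exists_code.1 hp
    have hc' : ∀ i σ x v, v ∈ (curry c i).eval (encode (σ, x)) ↔ f σ (Nat.pair i x) = some v := by
      intro i σ x v
      rw [eval_curry, hc]
      have e : Nat.pair i (encode (σ, x)) = encode (i, σ, x) := rfl
      simp only [e, encodek]
      simp
    refine ⟨fun i => encode (curry c i), ?_, ?_⟩
    · exact (Primrec.encode.comp (Nat.Partrec.Code.primrec₂_curry.comp (Primrec.const c)
        Primrec.id)).to_comp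
    · intro i X x
      have hW : ∀ n v, WW X (Nat.pair (Nat.pair (encode (curry c i)) x) n) = v + 1 →
          v ∈ F X (Nat.pair i x) := by
        intro n v hv
        unfold WW at hv
        simp only [Nat.unpair_pair, Denumerable.ofNat_encode] at hv
        rcases ho : evaln n.unpair.1 (curry c i) (encode (pre (bits X) n.unpair.2, x)) with _ | w
        · rw [ho] at hv; simp at hv
        · rw [ho] at hv
          simp only [encode_some, encode_nat, Nat.succ_eq_add_one, add_left_inj] at hv
          subst hv
          exact hf.spec.2 ⟨_, (hc' i _ x w).1 (evaln_sound ho)⟩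
      apply Part.ext
      intro v
      simp only [Part.mem_bind_iff, Part.mem_some_iff]
      constructor
      · rintro ⟨n, hn, rfl⟩
        have h1 := (mem_RR.1 hn).1
        exact hW n _ (Nat.succ_pred_eq_of_ne_zero h1).symm
      · intro hv
        obtain ⟨l, hl⟩ := hf.spec.1 hv
        obtain ⟨k, hk⟩ := evaln_complete.1 ((hc' i _ x v).2 hl)
        have hex : ∃ n, WW X (Nat.pair (Nat.pair (encode (curry c i)) x) n) ≠ 0 := by
          refine ⟨Nat.pair k l, ?_⟩
          unfold WW
          simp only [Nat.unpair_pair, Denumerable.ofNat_encode]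
          rw [Option.mem_def.1 hk]
          simp
        classical
        refine ⟨Nat.find hex, mem_RR.2 ⟨Nat.find_spec hex, fun m hm => ?_⟩, ?_⟩
        · by_contra hc
          exact Nat.find_min hex hm hc
        · have h2 := hW _ _ (Nat.succ_pred_eq_of_ne_zero (Nat.find_spec hex)).symm
          exact Part.mem_unique hv h2
  dom_iff := by
    intro i X x
    constructor
    · intro h
      exact ⟨h, trivial⟩
    · rintro ⟨h, _⟩
      exact h
  decidable_graph := by
    -- `n` is the least number with `WW X ⟨a, n⟩ ≠ 0` or `n = y`, at `⟨a, y⟩`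
    have hT : RecFunctional (tot fun X w => (1 - WW X (Nat.pair w.unpair.1.unpair.1 w.unpair.2)) *
        (w.unpair.1.unpair.2 - w.unpair.2)) := by
      have h1 : RecFunctional (tot fun X w => Nat.pair
          (WW X (Nat.pair w.unpair.1.unpair.1 w.unpair.2)) w) :=
        RecFunctional.tot_pair (RecFunctional.tot_comp' recFunctional_WW
          (RecFunctional.of_primrec (f := fun w => Nat.pair w.unpair.1.unpair.1 w.unpair.2)
            (Primrec₂.natPair.comp (Primrec.fst.comp (Primrec.unpair.comp (Primrec.fst.comp
              Primrec.unpair))) (Primrec.snd.comp Primrec.unpair))))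
          (RecFunctional.of_primrec Primrec.id)
      have h2 : Primrec fun v : ℕ => (1 - v.unpair.1) *
          (v.unpair.2.unpair.1.unpair.2 - v.unpair.2.unpair.2) := by
        have hw : Primrec fun v : ℕ => v.unpair.2 := Primrec.snd.comp Primrec.unpair
        exact Primrec.nat_mul.comp (Primrec.nat_sub.comp (Primrec.const 1)
          (Primrec.fst.comp Primrec.unpair)) (Primrec.nat_sub.comp (Primrec.snd.comp
            (Primrec.unpair.comp (Primrec.fst.comp (Primrec.unpair.comp hw))))
            (Primrec.snd.comp (Primrec.unpair.comp hw)))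
      have h3 := RecFunctional.tot_comp h2 h1
      simpa only [Nat.unpair_pair] using h3
    have hS := RecFunctional.rfind hT
    have hdom : ∀ (X : Set ℕ) (b : ℕ), ∃ n, ((1 - WW X (Nat.pair b.unpair.1 n)) *
        (b.unpair.2 - n) = 0) := fun X b => ⟨b.unpair.2, by simp⟩
    classical
    let S : Set ℕ → ℕ → ℕ := fun X b => Nat.find (hdom X b)
    have hS' : RecFunctional (tot S) := by
      have e : (fun (X : Set ℕ) (b : ℕ) => Nat.rfind fun n =>
          (fun m => m = 0) <$> tot (fun X w =>
            (1 - WW X (Nat.pair w.unpair.1.unpair.1 w.unpair.2)) *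
            (w.unpair.1.unpair.2 - w.unpair.2)) X (Nat.pair b n) : Set ℕ → ℕ →. ℕ) = tot S := by
        funext X b
        apply Part.eq_some_iff.2
        refine Nat.mem_rfind.2 ⟨?_, fun {m} hm => ?_⟩
        · have := Nat.find_spec (hdom X b)
          simp only [tot, Nat.unpair_pair, Part.map_eq_map, Part.map_some, Part.mem_some_iff]
          exact (decide_eq_true this).symm
        · have := Nat.find_min (hdom X b) hm
          simp only [tot, Nat.unpair_pair, Part.map_eq_map, Part.map_some, Part.mem_some_iff]
          exact (decide_eq_false this).symm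
      exact e ▸ hS
    -- assemble
    have h1 : RecFunctional (tot fun X p => S X (Nat.pair (Nat.pair p.unpair.1
        p.unpair.2.unpair.1) p.unpair.2.unpair.2)) :=
      RecFunctional.tot_comp' hS' (RecFunctional.of_primrec (f := fun p =>
        Nat.pair (Nat.pair p.unpair.1 p.unpair.2.unpair.1) p.unpair.2.unpair.2)
        (Primrec₂.natPair.comp (Primrec₂.natPair.comp (Primrec.fst.comp Primrec.unpair)
          (Primrec.fst.comp (Primrec.unpair.comp (Primrec.snd.comp Primrec.unpair))))
          (Primrec.snd.comp (Primrec.unpair.comp (Primrec.snd.comp Primrec.unpair)))))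
    have h2 : RecFunctional (tot fun X p => WW X (Nat.pair (Nat.pair p.unpair.1
        p.unpair.2.unpair.1) p.unpair.2.unpair.2)) :=
      RecFunctional.tot_comp' recFunctional_WW (RecFunctional.of_primrec (f := fun p =>
        Nat.pair (Nat.pair p.unpair.1 p.unpair.2.unpair.1) p.unpair.2.unpair.2)
        (Primrec₂.natPair.comp (Primrec₂.natPair.comp (Primrec.fst.comp Primrec.unpair)
          (Primrec.fst.comp (Primrec.unpair.comp (Primrec.snd.comp Primrec.unpair))))
          (Primrec.snd.comp (Primrec.unpair.comp (Primrec.snd.comp Primrec.unpair)))))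
    have h3 := RecFunctional.tot_pair (RecFunctional.of_primrec (f := fun p => p) Primrec.id)
      (RecFunctional.tot_pair h1 h2)
    have h4 : Primrec fun w : ℕ => if w.unpair.2.unpair.1 = w.unpair.1.unpair.2.unpair.2 ∧
        0 < w.unpair.2.unpair.2 then 1 else 0 := by
      have hs : Primrec fun w : ℕ => w.unpair.2.unpair.1 :=
        Primrec.fst.comp (Primrec.unpair.comp (Primrec.snd.comp Primrec.unpair))
      have hw : Primrec fun w : ℕ => w.unpair.2.unpair.2 :=
        Primrec.snd.comp (Primrec.unpair.comp (Primrec.snd.comp Primrec.unpair))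
      have hy : Primrec fun w : ℕ => w.unpair.1.unpair.2.unpair.2 :=
        Primrec.snd.comp (Primrec.unpair.comp (Primrec.snd.comp (Primrec.unpair.comp
          (Primrec.fst.comp Primrec.unpair))))
      exact Primrec.ite ((Primrec.eq.comp hs hy).and (Primrec.nat_lt.comp (Primrec.const 0) hw))
        (Primrec.const 1) (Primrec.const 0)
    have h5 := RecFunctional.tot_comp h4 h3
    simp only [Nat.unpair_pair] at h5
    have e : (tot fun X p => if S X (Nat.pair (Nat.pair p.unpair.1 p.unpair.2.unpair.1)
        p.unpair.2.unpair.2) = p.unpair.2.unpair.2 ∧ 0 < WW X (Nat.pair (Nat.pair p.unpair.1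
        p.unpair.2.unpair.1) p.unpair.2.unpair.2) then 1 else 0 : Set ℕ → ℕ →. ℕ) = tot
      fun X p => chi {q : ℕ | q.unpair.2.unpair.2 ∈ RR X (Nat.pair q.unpair.1
        q.unpair.2.unpair.1)} p := by
      funext X p
      simp only [tot, Part.some_inj]
      unfold chi
      refine if_congr ?_ rfl rfl
      change _ ↔ _ ∈ RR X _
      rw [mem_RR]
      generalize Nat.pair p.unpair.1 p.unpair.2.unpair.1 = a
      generalize p.unpair.2.unpair.2 = y
      simp only [S]
      rw [Nat.find_eq_iff]
      simp only [Nat.unpair_pair, Nat.mul_eq_zero, not_or]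
      constructor
      · rintro ⟨⟨_, h7⟩, h8⟩
        refine ⟨by omega, fun m hm => ?_⟩
        have := (h7 m hm).1
        omega
      · rintro ⟨h6, h7⟩
        refine ⟨⟨Or.inr (by omega), fun m hm => ⟨?_, by omega⟩⟩, by omega⟩
        have := h7 m hm
        omega
    rw [e] at h5
    exact h5

/-- Relative Blum measures exist. -/
theorem exists_relBlumMeasure : Nonempty RelBlumMeasure := ⟨stdBlum⟩

/-- A relative Blum measure enumerates, for each oracle `X`, exactly the partial functions
recursive in `X`. -/
theorem RelBlumMeasure.enumerates (M : RelBlumMeasure) (X : Set ℕ) (f : ℕ →. ℕ) :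
    Nat.RecursiveIn {fun n => Part.some (chi X n)} f ↔ ∃ i, M.φ i X = f := by
  rw [recursiveIn_iff]
  constructor
  · rintro ⟨F, hF, rfl⟩
    have hG : RecFunctional fun X n => ((tot fun _ n => n.unpair.2) X n >>= F X : Part ℕ) :=
      .comp hF (RecFunctional.of_primrec (Primrec.snd.comp Primrec.unpair))
    obtain ⟨s, _, hs⟩ := M.acceptable _ hG
    refine ⟨s 0, funext fun x => ?_⟩
    rw [hs]
    simp only [tot, Nat.unpair_pair]
    exact Part.bind_some _ _
  · rintro ⟨i, rfl⟩
    refine ⟨fun X x => M.φ i X x, ?_, rfl⟩
    have h := RecFunctional.comp M.universal (RecFunctional.of_primrec (f := fun x => Nat.pair i x)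
      (Primrec₂.natPair.comp (Primrec.const i) Primrec.id))
    have e : (fun (X : Set ℕ) (n : ℕ) => (tot (fun _ x => Nat.pair i x) X n >>=
        (fun p => M.φ p.unpair.1 X p.unpair.2) : Part ℕ)) = fun X x => M.φ i X x := by
      funext X x
      simp only [tot]
      refine (Part.bind_some _ _).trans ?_
      rw [Nat.unpair_pair]
    exact e ▸ h

end Pool.Agent.Helper84
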