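import Mathlib.Computability.PartrecCode
import Mathlib.Computability.Halting

/-!
# Finite binary strings: enumeration, prefixes, and some computability helpers
-/

namespace Pool.Agent.Helper84

open Primrec

/-! ### Primitive recursive and computable list and bounded quantifiers -/

section helpers

variable {α β σ : Type*} [Primcodable α] [Primcodable β] [Primcodable σ]

theorem primrec_list_all {f : α → List β} {p : α → β → Bool} (hf : Primrec f) (hp : Primrec₂ p) :
    Primrec fun a => (f a).all (p a) :=
  (list_foldr hf (Primrec.const true)
    (to₂ <| Primrec.and.comp (hp.comp fst (fst.comp snd)) (snd.comp snd))).of_eq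
    fun a => by induction f a <;> simp [*]

theorem primrec_list_any {f : α → List β} {p : α → β → Bool} (hf : Primrec f) (hp : Primrec₂ p) :
    Primrec fun a => (f a).any (p a) :=
  (list_foldr hf (Primrec.const false)
    (to₂ <| Primrec.or.comp (hp.comp fst (fst.comp snd)) (snd.comp snd))).of_eq
    fun a => by induction f a <;> simp [*]

theorem primrec_findSome {f : α → List β} {g : α → β → Option σ} (hf : Primrec f)
    (hg : Primrec₂ g) : Primrec fun a => (f a).findSome? (g a) :=
  (list_foldr hf (Primrec.const none)
    (to₂ <| option_orElse.comp (hg.comp fst (fst.comp snd)) (snd.comp snd))).of_eq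
    fun a => by
      induction f a with
      | nil => simp
      | cons b l ih =>
        simp only [List.foldr_cons, List.findSome?_cons, ih]
        cases g a b <;> simp

theorem primrec_find {f : α → List β} {p : α → β → Bool} (hf : Primrec f)
    (hp : Primrec₂ p) : Primrec fun a => (f a).find? (p a) :=
  (primrec_findSome hf (g := fun a b => bif p a b then some b else none)
    (to₂ <| Primrec.cond hp (option_some.comp snd) (Primrec.const none))).of_eq
    fun a => by
      induction f a with
      | nil => simp
      | cons b l ih =>
        simp only [List.findSome?_cons, List.find?_cons, ih]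
        cases p a b <;> simp

end helpers

/-- All strings of length `n`. -/
def strs (n : ℕ) : List (List Bool) :=
  Nat.rec [[]] (fun _ L => L.map (fun l => false :: l) ++ L.map (fun l => true :: l)) n

theorem mem_strs {n : ℕ} {τ : List Bool} : τ ∈ strs n ↔ τ.length = n := by
  induction n generalizing τ with
  | zero => simp [strs, List.length_eq_zero_iff]
  | succ n ih =>
    change τ ∈ (strs n).map (fun l => false :: l) ++ (strs n).map (fun l => true :: l) ↔ _
    simp only [List.mem_append, List.mem_map, ih]
    constructor
    · rintro (⟨a, h, rfl⟩ | ⟨a, h, rfl⟩) <;> simp [h]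
    · intro h
      cases τ with
      | nil => simp at h
      | cons b l =>
        cases b
        · exact Or.inl ⟨l, by simpa using h, rfl⟩
        · exact Or.inr ⟨l, by simpa using h, rfl⟩

theorem primrec_strs : Primrec strs := by
  unfold strs
  refine nat_rec₁ (f := fun _ (L : List (List Bool)) =>
    L.map (fun l => false :: l) ++ L.map (fun l => true :: l)) [[]] ?_
  refine list_append.comp₂ ?_ ?_
  · exact (list_map snd (list_cons.comp (Primrec.const false) snd).to₂).to₂
  · exact (list_map snd (list_cons.comp (Primrec.const true) snd).to₂).to₂

/-- All strings of length at most `n`, shorter ones first. -/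
def allStr (n : ℕ) : List (List Bool) :=
  (List.range (n + 1)).flatMap strs

theorem mem_allStr {n : ℕ} {τ : List Bool} : τ ∈ allStr n ↔ τ.length ≤ n := by
  simp [allStr, mem_strs, Nat.lt_succ_iff]

theorem primrec_allStr : Primrec allStr :=
  list_flatMap (list_range.comp Primrec.succ) (primrec_strs.comp snd).to₂

theorem allStr_prefix {m n : ℕ} (h : m ≤ n) : allStr m <+: allStr n := by
  obtain ⟨k, rfl⟩ := Nat.exists_eq_add_of_le h
  refine ⟨(List.range' (m + 1) k).flatMap strs, ?_⟩
  unfold allStr
  rw [← List.flatMap_append]
  congr 1
  rw [List.range_eq_range', List.range_eq_range']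
  have := List.range'_append_1 (s := 0) (m := m + 1) (n := k)
  rw [zero_add] at this
  rw [this]
  congr 1
  omega

end Pool.Agent.Helper84
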